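import Mathlib
import Pool.Agent.R967.FB.Wiener

/-!
Windows of Brownian motion distributed as the co-meander / the three dimensional Bessel process
in finite expected time (MP_0f8574_pr).  Definitions and statements of the pieces.
-/

set_option autoImplicit false

open MeasureTheory ProbabilityTheory Filter Topology Set unitInterval
open scoped ENNReal NNReal
open Pool.Agent.R967.FB

namespace Pool.Agent.R132.CM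

/-- three dimensional Euclidean space -/
abbrev E3 := EuclideanSpace ℝ (Fin 3)

/-- the centred Gaussian law on the line with variance `v` -/
noncomputable def gam1 (v : ℝ) : Measure ℝ := gaussianReal 0 v.toNNReal

/-- the centred Gaussian law on `ℝ³` with covariance `v` times the identity -/
noncomputable def gam3 (v : ℝ) : Measure E3 := (stdGaussian E3).map (fun z => Real.sqrt v • z)

instance pathI : MeasurableSpace C(I, ℝ) := borel _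
instance borelI : BorelSpace C(I, ℝ) := ⟨rfl⟩

/-- standard three-dimensional Brownian motion started at `0`, given by its continuous path -/
structure IsBM3 {Ω : Type} [MeasurableSpace Ω] (P : Measure Ω) (V : Ω → C(ℝ≥0, E3)) : Prop where
  meas : ∀ t, Measurable (fun ω => V ω t)
  zero : ∀ ω, V ω 0 = 0
  ind : HasIndepIncrements (fun t ω => V ω t) P
  law : ∀ s t : ℝ≥0, s ≤ t → P.map (fun ω => V ω t - V ω s) = gam3 ((t : ℝ) - s)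

/-- the window `(w (t + u) - w t; 0 ≤ u ≤ 1)` -/
noncomputable def win (w : C(ℝ≥0, ℝ)) (t : ℝ≥0) : C(I, ℝ) :=
  ⟨fun u => w (t + unitInterval.toNNReal u) - w t, by fun_prop⟩

/-- the radial part on `[0,1]` -/
noncomputable def rad (v : C(ℝ≥0, E3)) : C(I, ℝ) :=
  ⟨fun u => ‖v (unitInterval.toNNReal u)‖, by fun_prop⟩

/-- the weight `r⁻²ᶜ`: `c = 0` Bessel(3), `c = 1` co-meander -/
noncomputable def rho (c : ℕ) (r : ℝ) : ℝ := 1 / r ^ (2 * c)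

/-- The main statement: some window, started at a random time with finite expectation, has the
law with density `R_1⁻²ᶜ` with respect to the Bessel(3) process. -/
def Main (c : ℕ) : Prop :=
  ∀ (Ω Ω' : Type) [MeasurableSpace Ω] [MeasurableSpace Ω'] (P : Measure Ω) (P' : Measure Ω')
    [IsProbabilityMeasure P] [IsProbabilityMeasure P'] (B : Ω → C(ℝ≥0, ℝ))
    (V : Ω' → C(ℝ≥0, E3)), Measurable B → IsBrownianReal (fun t ω => B ω t) P → IsBM3 P' V →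
    ∃ T : Ω × I → ℝ≥0, Measurable T ∧ ∫⁻ p, (T p : ℝ≥0∞) ∂(P.prod volume) < ⊤ ∧
      ∀ F : C(I, ℝ) → ℝ≥0∞, Measurable F →
        ∫⁻ p, F (win (B p.1) (T p)) ∂(P.prod volume) =
          ∫⁻ ω, ENNReal.ofReal (rho c ‖V ω 1‖) * F (rad (V ω)) ∂P'

/-! ### Kernels -/

/-- transition density of Bessel(3) with respect to Brownian motion -/
noncomputable def kk (t r s : ℝ) : ℝ :=
  if 0 < s then s / r * (1 - Real.exp (-(2 * r * s) / t)) else 0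

/-- the same from `r = 0` -/
noncomputable def k0 (t s : ℝ) : ℝ := if 0 < s then 2 * s ^ 2 / t else 0

def StROT : Prop := ∀ (v : E3) (t : ℝ), 0 < t → ∀ f : ℝ → ℝ≥0∞, Measurable f →
  ∫⁻ z, f ‖v + z‖ ∂(gam3 t) = ∫⁻ a, ∫⁻ b, ∫⁻ c,
    f (Real.sqrt ((‖v‖ + Real.sqrt t * a) ^ 2 + t * (b ^ 2 + c ^ 2)))
      ∂(gaussianReal 0 1) ∂(gaussianReal 0 1) ∂(gaussianReal 0 1)

def StPOL : Prop := ∀ h : ℝ → ℝ≥0∞, Measurable h →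
  ∫⁻ b, ∫⁻ c, h (b ^ 2 + c ^ 2) ∂(gaussianReal 0 1) ∂(gaussianReal 0 1) =
    ∫⁻ s in Ioi (0 : ℝ), h s * ENNReal.ofReal (Real.exp (-s / 2) / 2)

def StCHG : Prop := ∀ (t r : ℝ), 0 < t → 0 ≤ r → ∀ f : ℝ → ℝ≥0∞, Measurable f →
  ∫⁻ a, (∫⁻ s in Ioi (0 : ℝ), f (Real.sqrt ((r + Real.sqrt t * a) ^ 2 + t * s)) *
      ENNReal.ofReal (Real.exp (-s / 2) / 2)) ∂(gaussianReal 0 1) =
    ∫⁻ x, f (r + x) * ENNReal.ofReal (if r = 0 then k0 t (r + x) else kk t r (r + x)) ∂(gam1 t)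

/-- kernel identity, `v ≠ 0` and `v = 0` -/
def StKER : Prop := ∀ (v : E3) (t : ℝ), 0 < t → ∀ f : ℝ → ℝ≥0∞, Measurable f →
  ∫⁻ z, f ‖v + z‖ ∂(gam3 t) = ∫⁻ x, f (‖v‖ + x) *
    ENNReal.ofReal (if ‖v‖ = 0 then k0 t (‖v‖ + x) else kk t ‖v‖ (‖v‖ + x)) ∂(gam1 t)

/-! ### The walk -/

structure IIDG {Ω : Type} [MeasurableSpace Ω] (P : Measure Ω) (v : ℝ) (ξ : ℕ → Ω → ℝ) : Prop where
  meas : ∀ i, Measurable (ξ i)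
  ind : iIndepFun ξ P
  law : ∀ i, P.map (ξ i) = gam1 v

structure IID3 {Ω : Type} [MeasurableSpace Ω] (P : Measure Ω) (v : ℝ) (ζ : ℕ → Ω → E3) : Prop where
  meas : ∀ i, Measurable (ζ i)
  ind : iIndepFun ζ P
  law : ∀ i, P.map (ζ i) = gam3 v

/-- partial sums -/
def S (x : ℕ → ℝ) (i : ℕ) : ℝ := ∑ l ∈ Finset.range i, x l

/-- partial sums in `ℝ³` -/
def S3 (x : ℕ → E3) (i : ℕ) : E3 := ∑ l ∈ Finset.range i, x l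

/-- shift -/
def sh (j : ℕ) (x : ℕ → ℝ) (l : ℕ) : ℝ := x (j + l)

/-- density at the grid times `1/n, …, m/n` of Bessel(3) with respect to Brownian motion -/
noncomputable def G (n m : ℕ) (x : ℕ → ℝ) : ℝ :=
  open Classical in
  if ∀ i, 1 ≤ i → i ≤ m → 0 < S x i then
    2 * n * S x 1 * S x m * ∏ i ∈ Finset.Ico 1 m, (1 - Real.exp (-(2 * n * S x i * S x (i + 1))))
  else 0

/-- density of the target law on the grid -/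
noncomputable def g (c n : ℕ) (x : ℕ → ℝ) : ℝ := G n n x * rho c (S x n)

/-- the weight of a block -/
noncomputable def Wt (c n : ℕ) (x : ℕ → ℝ) : ℝ := (1 / (n : ℝ)) * ∑ j ∈ Finset.range n, g c n (sh j x)

def StGRID : Prop := ∀ (n m : ℕ), 1 ≤ n → 1 ≤ m → ∀ (Ω Ω' : Type) [MeasurableSpace Ω]
  [MeasurableSpace Ω'] (P : Measure Ω) (P' : Measure Ω') [IsProbabilityMeasure P]
  [IsProbabilityMeasure P'] (ξ : ℕ → Ω → ℝ) (ζ : ℕ → Ω' → E3),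
  IIDG P (1 / (n : ℝ)) ξ → IID3 P' (1 / (n : ℝ)) ζ → ∀ Φ : (Fin m → ℝ) → ℝ≥0∞, Measurable Φ →
  ∫⁻ ω, Φ (fun i => ‖S3 (fun l => ζ l ω) (i + 1)‖) ∂P' =
    ∫⁻ ω, Φ (fun i => S (fun l => ξ l ω) (i + 1)) * ENNReal.ofReal (G n m (fun l => ξ l ω)) ∂P

/-- existence of an i.i.d. sequence, and the law of its partial sums -/
def StSUM3 : Prop :=
  (∀ v : ℝ, ∃ (P' : Measure (ℕ → E3)) (ζ : ℕ → (ℕ → E3) → E3), IsProbabilityMeasure P' ∧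
    IID3 P' v ζ) ∧
  ∀ (n : ℕ), 1 ≤ n → ∀ (Ω' : Type) [MeasurableSpace Ω'] (P' : Measure Ω')
    [IsProbabilityMeasure P'] (ζ : ℕ → Ω' → E3), IID3 P' (1 / (n : ℝ)) ζ → ∀ s : Finset ℕ,
    P'.map (fun ω => ∑ l ∈ s, ζ l ω) = gam3 ((s.card : ℝ) / n)

/-- one time marginals of the grid law -/
def StONE : Prop := ∀ (n m j : ℕ), 1 ≤ n → 1 ≤ j → j ≤ m → ∀ (Ω : Type) [MeasurableSpace Ω]
  (P : Measure Ω) [IsProbabilityMeasure P] (ξ : ℕ → Ω → ℝ), IIDG P (1 / (n : ℝ)) ξ →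
  ∀ f : ℝ → ℝ≥0∞, Measurable f →
  ∫⁻ ω, f (S (fun l => ξ l ω) j) * ENNReal.ofReal (G n m (fun l => ξ l ω)) ∂P =
    ∫⁻ z, f ‖z‖ ∂(gam3 ((j : ℝ) / n))

/-! ### Moments -/

/-- negative moments around any centre -/
def StNEG : Prop := ∀ (v : E3) (t : ℝ), 0 < t →
  ∫⁻ z, ENNReal.ofReal (‖v + z‖ ^ (-(5 / 2) : ℝ)) ∂(gam3 t) ≤
      ENNReal.ofReal (2 / t * (1 + t ^ (-(1 / 2) : ℝ))) ∧
  ∫⁻ z, ENNReal.ofReal (1 / ‖v + z‖ ^ 2) ∂(gam3 t) ≤ ENNReal.ofReal (2 / t)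

/-- centred moments -/
def StMOM : Prop := ∀ t : ℝ, 0 < t →
  ∫⁻ z, ENNReal.ofReal (1 / ‖z‖ ^ 2) ∂(gam3 t) = ENNReal.ofReal (1 / t) ∧
  ∫⁻ z, ENNReal.ofReal (‖z‖ ^ 2) ∂(gam3 t) = ENNReal.ofReal (3 * t) ∧
  ∫⁻ z, ENNReal.ofReal (1 / ‖z‖) ∂(gam3 t) ≤ ENNReal.ofReal (t ^ (-(1 / 2) : ℝ)) ∧
  ∫⁻ z, ENNReal.ofReal ‖z‖ ∂(gam3 t) ≤ ENNReal.ofReal (2 * t ^ ((1 / 2) : ℝ)) ∧
  ∫⁻ z, ENNReal.ofReal (‖z‖ ^ (-(3 / 2) : ℝ)) ∂(gam3 t) ≤ ENNReal.ofReal (4 * t ^ (-(3 / 4) : ℝ)) ∧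
  ∫⁻ z, ENNReal.ofReal (‖z‖ ^ (-(5 / 2) : ℝ)) ∂(gam3 t) ≤ ENNReal.ofReal (4 * t ^ (-(5 / 4) : ℝ))

def StMEAN : Prop := ∀ (c n : ℕ), c ≤ 1 → 1 ≤ n → ∀ (Ω : Type) [MeasurableSpace Ω]
  (P : Measure Ω) [IsProbabilityMeasure P] (ξ : ℕ → Ω → ℝ), IIDG P (1 / (n : ℝ)) ξ →
  ∫⁻ ω, ENNReal.ofReal (g c n (fun l => ξ l ω)) ∂P = 1

/-- correlation of two windows at distance `k/n` -/
def StOFF (c : ℕ) : Prop := ∀ (n k : ℕ), 1 ≤ k → k < n → ∀ (Ω : Type) [MeasurableSpace Ω]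
  (P : Measure Ω) [IsProbabilityMeasure P] (ξ : ℕ → Ω → ℝ), IIDG P (1 / (n : ℝ)) ξ →
  ∫⁻ ω, ENNReal.ofReal (g c n (fun l => ξ l ω)) * ENNReal.ofReal (g c n (sh k (fun l => ξ l ω))) ∂P
    ≤ ENNReal.ofReal (100 * ((n : ℝ) / k) ^ ((3 / 4) : ℝ))

/-- second moment of one window density -/
def StDIAG (c : ℕ) : Prop := ∀ (n : ℕ), 4 ≤ n → ∀ (Ω : Type) [MeasurableSpace Ω]
  (P : Measure Ω) [IsProbabilityMeasure P] (ξ : ℕ → Ω → ℝ), IIDG P (1 / (n : ℝ)) ξ →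
  ∫⁻ ω, ENNReal.ofReal (g c n (fun l => ξ l ω)) ^ 2 ∂P ≤ ENNReal.ofReal (500 * n)

/-- three dimensional estimate for `StDIAG 1` -/
def StD1 : Prop := ∀ (n : ℕ), 4 ≤ n → ∀ (Ω' : Type) [MeasurableSpace Ω'] (P' : Measure Ω')
    [IsProbabilityMeasure P'] (ζ : ℕ → Ω' → E3), IID3 P' (1 / (n : ℝ)) ζ →
  ∫⁻ ω, ENNReal.ofReal (‖S3 (fun l => ζ l ω) 1‖ * ‖S3 (fun l => ζ l ω) (n - 1)‖ ^ ((1 / 2) : ℝ) *
    ‖S3 (fun l => ζ l ω) n‖ ^ (-(5 / 2) : ℝ)) ∂P' ≤ ENNReal.ofReal (100 * (n : ℝ) ^ (-(1 / 2) : ℝ))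

/-- second moment of the weight of a block -/
def StSM : Prop := ∀ (c n : ℕ), c ≤ 1 → 4 ≤ n → ∀ (Ω : Type) [MeasurableSpace Ω]
  (P : Measure Ω) [IsProbabilityMeasure P] (ξ : ℕ → Ω → ℝ), IIDG P (1 / (n : ℝ)) ξ →
  ∫⁻ ω, ENNReal.ofReal (Wt c n (fun l => ξ l ω)) ^ 2 ∂P ≤ ENNReal.ofReal 1300

/-! ### The selection lemma -/

/-- exponential law -/
noncomputable def ex : Measure ℝ := expMeasure 1

/-- the label `l` minimises `u/w` -/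
def AA {M : ℕ} (w : Fin M → ℝ) (l : Fin M) : Set (Fin M → ℝ) :=
  {u | ∀ j, j ≠ l → u l * w j < u j * w l}

/-- rank of `l`: number of labels with smaller clock -/
noncomputable def rk {M : ℕ} (u : Fin M → ℝ) (l : Fin M) : Fin M :=
  ⟨(Finset.univ.filter (fun j => u j < u l)).card, by
    have h : Finset.univ.filter (fun j => u j < u l) ⊂ (Finset.univ : Finset (Fin M)) :=
      Finset.filter_ssubset.mpr ⟨l, Finset.mem_univ l, lt_irrefl _⟩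
    simpa using Finset.card_lt_card h⟩

def StP1 : Prop := ∀ (M : ℕ) (w : Fin M → ℝ), (∀ j, 0 < w j) → ∀ l : Fin M,
  (Measure.pi (fun _ : Fin M => ex)) (AA w l) = ENNReal.ofReal (w l / ∑ j, w j)

def StP2 : Prop := ∀ (M : ℕ) (w : Fin M → ℝ), (∀ j, 0 < w j) → ∀ l j : Fin M, j ≠ l →
  (Measure.pi (fun _ : Fin M => ex)) (AA w l ∩ {u | u j < u l}) ≤
    ENNReal.ofReal ((w l / ∑ i ∈ Finset.univ.erase j, w i) ^ 2)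

/-- reordering i.i.d. variables by an independent permutation -/
def StPERM : Prop := ∀ (E : Type) [MeasurableSpace E] (μ : Measure E) [IsProbabilityMeasure μ]
  (M : ℕ) (Ψ : (Fin M → E) × (Fin M → ℝ) → ℝ≥0∞), Measurable Ψ →
  ∫⁻ u, ∫⁻ β, Ψ (fun l => β (rk u l), u) ∂(Measure.pi (fun _ : Fin M => μ))
      ∂(Measure.pi (fun _ : Fin M => ex)) =
    ∫⁻ u, ∫⁻ β, Ψ (β, u) ∂(Measure.pi (fun _ : Fin M => μ)) ∂(Measure.pi (fun _ : Fin M => ex))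

def StP4 : Prop := ∀ (E : Type) [MeasurableSpace E] (μ : Measure E) [IsProbabilityMeasure μ]
  (w : E → ℝ) (C δ : ℝ), 1 ≤ C → 0 < δ → Measurable w → (∀ x, δ ≤ w x) →
  ∫⁻ x, ENNReal.ofReal (w x) ∂μ = 1 → ∫⁻ x, ENNReal.ofReal (w x) ^ 2 ∂μ ≤ ENNReal.ofReal C →
  ∀ᶠ M : ℕ in atTop, ∑ l : Fin M, ∑ j ∈ Finset.univ.erase l,
    ∫⁻ β, ENNReal.ofReal ((w (β l) / ∑ i ∈ Finset.univ.erase j, w (β i)) ^ 2)
      ∂(Measure.pi (fun _ : Fin M => μ)) ≤ ENNReal.ofReal (18 * C)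

def StP5 : Prop := ∀ (E : Type) [MeasurableSpace E] (μ : Measure E) [IsProbabilityMeasure μ]
  (w : E → ℝ) (C : ℝ), 1 ≤ C → Measurable w → (∀ x, 0 < w x) →
  ∫⁻ x, ENNReal.ofReal (w x) ∂μ = 1 → ∫⁻ x, ENNReal.ofReal (w x) ^ 2 ∂μ ≤ ENNReal.ofReal C →
  ∀ M : ℕ, 1 ≤ M → ∀ F : E → ℝ≥0∞, Measurable F → (∀ x, F x ≤ 1) →
  ∫⁻ x, ENNReal.ofReal (w x) * F x ∂μ ≤
    ∫⁻ β, ∑ l : Fin M, ENNReal.ofReal (w (β l) / ∑ j, w (β j)) * F (β l)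
      ∂(Measure.pi (fun _ : Fin M => μ)) + ENNReal.ofReal (Real.sqrt (C / M))

/-- the selection lemma (anticipating selection in finite mean index) -/
def StSEL : Prop := ∀ (E : Type) [MeasurableSpace E] (μ : Measure E) [IsProbabilityMeasure μ]
  (w : E → ℝ) (C : ℝ), 1 ≤ C → Measurable w → (∀ x, 0 ≤ w x) →
  ∫⁻ x, ENNReal.ofReal (w x) ∂μ = 1 → ∫⁻ x, ENNReal.ofReal (w x) ^ 2 ∂μ ≤ ENNReal.ofReal C →
  ∀ ε : ℝ, 0 < ε → ∃ (M : ℕ) (q : Fin M → (Fin M → E) → ℝ≥0∞), (∀ i, Measurable (q i)) ∧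
    (∀ β, ∑ i, q i β ≤ 1) ∧
    ∑ i : Fin M, ((i : ℕ) + 1 : ℝ≥0∞) * ∫⁻ β, q i β ∂(Measure.pi (fun _ : Fin M => μ)) ≤
      ENNReal.ofReal (20 * C) ∧
    ∀ F : E → ℝ≥0∞, Measurable F → (∀ x, F x ≤ 1) →
      ∫⁻ x, ENNReal.ofReal (w x) * F x ∂μ ≤
        ∑ i : Fin M, ∫⁻ β, q i β * F (β i) ∂(Measure.pi (fun _ : Fin M => μ)) + ENNReal.ofReal ε

/-- selection of a block and of a position in the block -/
def StSEL2 : Prop := ∀ (E : Type) [MeasurableSpace E] (μ : Measure E) [IsProbabilityMeasure μ]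
  (n : ℕ) (h : Fin n → E → ℝ) (C : ℝ), 1 ≤ n → 1 ≤ C → (∀ j, Measurable (h j)) →
  (∀ j x, 0 ≤ h j x) → ∫⁻ x, ENNReal.ofReal ((1 / (n : ℝ)) * ∑ j, h j x) ∂μ = 1 →
  ∫⁻ x, ENNReal.ofReal ((1 / (n : ℝ)) * ∑ j, h j x) ^ 2 ∂μ ≤ ENNReal.ofReal C →
  ∀ ε : ℝ, 0 < ε → ∃ (M : ℕ) (q : Fin M → Fin n → (Fin M → E) → ℝ≥0∞),
    (∀ i j, Measurable (q i j)) ∧ (∀ β, ∑ i, ∑ j, q i j β ≤ 1) ∧
    ∑ i : Fin M, ∑ j, ((i : ℕ) + 1 : ℝ≥0∞) * ∫⁻ β, q i j β ∂(Measure.pi (fun _ : Fin M => μ)) ≤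
      ENNReal.ofReal (20 * C) ∧
    ∀ F : Fin n → E → ℝ≥0∞, (∀ j, Measurable (F j)) → (∀ j x, F j x ≤ 1) →
      ∑ j, ∫⁻ x, ENNReal.ofReal ((1 / (n : ℝ)) * h j x) * F j x ∂μ ≤
        ∑ i : Fin M, ∑ j, ∫⁻ β, q i j β * F j (β i) ∂(Measure.pi (fun _ : Fin M => μ)) +
          ENNReal.ofReal ε

/-! ### Brownian level -/

/-- increments of the path on the grid -/
noncomputable def incr (n : ℕ) (w : C(ℝ≥0, ℝ)) (l : ℕ) : ℝ :=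
  w (((l + 1 : ℕ) : ℝ≥0) / (n : ℝ≥0)) - w ((l : ℝ≥0) / (n : ℝ≥0))

/-- the window at the time `t`, on the grid -/
noncomputable def gw (n : ℕ) (w : C(ℝ≥0, ℝ)) (t : ℝ≥0) (i : Fin n) : ℝ :=
  w (t + (((i : ℕ) + 1 : ℕ) : ℝ≥0) / (n : ℝ≥0)) - w t

/-- under the Wiener measure the increments are i.i.d. -/
def StINC : Prop := ∀ W : Measure C(ℝ≥0, ℝ), IsWiener W → ∀ n : ℕ, 1 ≤ n →
  IIDG W (1 / (n : ℝ)) (fun l w => incr n w l)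

/-- the law of the sequence of blocks -/
def StBLK : Prop := ∀ (Ω : Type) [MeasurableSpace Ω] (P : Measure Ω) [IsProbabilityMeasure P]
  (v : ℝ) (ξ : ℕ → Ω → ℝ), IIDG P v ξ → ∀ N M : ℕ,
  P.map (fun ω (k : Fin M) (l : Fin N) => ξ (N * k + l) ω) =
    Measure.pi (fun _ : Fin M => Measure.pi (fun _ : Fin N => gam1 v))

/-- weights -/
def StW8 : Prop := ∀ W : Measure C(ℝ≥0, ℝ), IsWiener W → ∀ c n : ℕ, c ≤ 1 → 4 ≤ n →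
  ∀ ε : ℝ, 0 < ε → ∃ (N : ℕ) (t : Fin N → ℝ≥0) (p : Fin N → C(ℝ≥0, ℝ) → ℝ≥0∞),
    (∀ i, Measurable (p i)) ∧ (∀ w, ∑ i, p i w ≤ 1) ∧
    ∑ i, (t i : ℝ≥0∞) * ∫⁻ w, p i w ∂W ≤ 60000 ∧
    ∀ F : (Fin n → ℝ) → ℝ≥0∞, Measurable F → (∀ y, F y ≤ 1) →
      ∫⁻ w, F (fun i => S (incr n w) (i + 1)) * ENNReal.ofReal (g c n (incr n w)) ∂W ≤
        ∑ i, ∫⁻ w, p i w * F (gw n w (t i)) ∂W + ENNReal.ofReal ε

def StLEV : Prop := ∀ W : Measure C(ℝ≥0, ℝ), IsWiener W → ∀ c n : ℕ, c ≤ 1 → 4 ≤ n →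
  ∀ ε : ℝ, 0 < ε → ∃ π : Measure (C(ℝ≥0, ℝ) × ℝ≥0), IsProbabilityMeasure π ∧
    π.map Prod.fst = W ∧ ∫⁻ p, (p.2 : ℝ≥0∞) ∂π ≤ 60000 ∧
    ∀ F : (Fin n → ℝ) → ℝ≥0∞, Measurable F → (∀ y, F y ≤ 1) →
      ∫⁻ w, F (fun i => S (incr n w) (i + 1)) * ENNReal.ofReal (g c n (incr n w)) ∂W ≤
        ∫⁻ p, F (gw n p.1 p.2) ∂π + ENNReal.ofReal ε

/-- the grid law of the target -/
def StGRV : Prop := ∀ W : Measure C(ℝ≥0, ℝ), IsWiener W → ∀ (Ω' : Type) [MeasurableSpace Ω']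
  (P' : Measure Ω') [IsProbabilityMeasure P'] (V : Ω' → C(ℝ≥0, E3)), IsBM3 P' V →
  ∀ c : ℕ, c ≤ 1 → (∫⁻ ω, ENNReal.ofReal (rho c ‖V ω 1‖) ∂P' = 1) ∧
  ∀ n : ℕ, 1 ≤ n → ∀ Φ : (Fin n → ℝ) → ℝ≥0∞, Measurable Φ →
    ∫⁻ ω, ENNReal.ofReal (rho c ‖V ω 1‖) *
        Φ (fun i => ‖V ω ((((i : ℕ) + 1 : ℕ) : ℝ≥0) / (n : ℝ≥0))‖) ∂P' =
      ∫⁻ w, Φ (fun i => S (incr n w) (i + 1)) * ENNReal.ofReal (g c n (incr n w)) ∂W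

/-- compactness -/
def StCOMP : Prop := ∀ (W : Measure C(ℝ≥0, ℝ)) [IsProbabilityMeasure W] (C : ℝ≥0)
  (π : ℕ → Measure (C(ℝ≥0, ℝ) × ℝ≥0)), (∀ k, IsProbabilityMeasure (π k)) →
  (∀ k, (π k).map Prod.fst = W) → (∀ k, ∫⁻ p, (p.2 : ℝ≥0∞) ∂(π k) ≤ C) →
  ∃ (π' : Measure (C(ℝ≥0, ℝ) × ℝ≥0)) (U : Ultrafilter ℕ), IsProbabilityMeasure π' ∧
    (U : Filter ℕ) ≤ atTop ∧ π'.map Prod.fst = W ∧ ∫⁻ p, (p.2 : ℝ≥0∞) ∂π' ≤ C ∧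
    ∀ f : C(ℝ≥0, ℝ) × ℝ≥0 → ℝ≥0, Continuous f → (∀ p, f p ≤ 1) →
      Tendsto (fun k => ∫⁻ p, (f p : ℝ≥0∞) ∂(π k)) U (𝓝 (∫⁻ p, (f p : ℝ≥0∞) ∂π'))

def StLIM : Prop := ∀ W : Measure C(ℝ≥0, ℝ), IsWiener W → ∀ (Ω' : Type) [MeasurableSpace Ω']
  (P' : Measure Ω') [IsProbabilityMeasure P'] (V : Ω' → C(ℝ≥0, E3)), IsBM3 P' V →
  ∀ c : ℕ, c ≤ 1 → ∃ π : Measure (C(ℝ≥0, ℝ) × ℝ≥0), IsProbabilityMeasure π ∧
    π.map Prod.fst = W ∧ ∫⁻ p, (p.2 : ℝ≥0∞) ∂π ≤ 60000 ∧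
    ∀ (k : ℕ) (Φ : (Fin (2 ^ k) → ℝ) → ℝ≥0∞), Measurable Φ →
      ∫⁻ p, Φ (gw (2 ^ k) p.1 p.2) ∂π =
        ∫⁻ ω, ENNReal.ofReal (rho c ‖V ω 1‖) *
          Φ (fun i => ‖V ω ((((i : ℕ) + 1 : ℕ) : ℝ≥0) / ((2 ^ k : ℕ) : ℝ≥0))‖) ∂P'

/-- the point `(i+1)/2^k` of `[0,1]` -/
noncomputable def dy (k : ℕ) (i : Fin (2 ^ k)) : I :=
  ⟨((i : ℕ) + 1 : ℝ) / 2 ^ k, by
    constructor
    · positivity
    · rw [div_le_one (by positivity)]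
      exact_mod_cast i.2⟩

def StEXT : Prop := ∀ (μ₁ μ₂ : Measure C(I, ℝ)) [IsProbabilityMeasure μ₁]
  [IsProbabilityMeasure μ₂], (∀ᵐ x ∂μ₁, x 0 = 0) → (∀ᵐ x ∂μ₂, x 0 = 0) →
  (∀ (k : ℕ) (Φ : (Fin (2 ^ k) → ℝ) → ℝ≥0∞), Measurable Φ →
    ∫⁻ x, Φ (fun i => x (dy k i)) ∂μ₁ = ∫⁻ x, Φ (fun i => x (dy k i)) ∂μ₂) → μ₁ = μ₂

/-- measurability into `C(I, ℝ)` -/
def StMEAS : Prop := ∀ (α : Type) [MeasurableSpace α] (f : α → C(I, ℝ)),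
  (∀ u, Measurable (fun a => f a u)) → Measurable f

def StREP : Prop := ∀ (X : Type) [MeasurableSpace X] (W : Measure X) [IsProbabilityMeasure W]
  (π : Measure (X × ℝ≥0)) [IsProbabilityMeasure π], π.map Prod.fst = W →
  ∃ τ : X × I → ℝ≥0, Measurable τ ∧ (W.prod (volume : Measure I)).map (fun p => (p.1, τ p)) = π

end Pool.Agent.R132.CM
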