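import Pool.Agent.R132.CM.Defs

set_option autoImplicit false

open MeasureTheory ProbabilityTheory Filter Topology Set unitInterval
open scoped ENNReal NNReal
open Pool.Agent.R967.FB

namespace Pool.Agent.R132.CM

namespace LBLK

instance probGam1 (v : ℝ) : IsProbabilityMeasure (gam1 v) := by
  unfold gam1
  infer_instance

theorem pi_curry (v : ℝ) (M N : ℕ) :
    (Measure.pi (fun _ : Fin M × Fin N => gam1 v)).map (MeasurableEquiv.curry (Fin M) (Fin N) ℝ) =
      Measure.pi (fun _ : Fin M => Measure.pi (fun _ : Fin N => gam1 v)) := by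
  have h := Measure.infinitePi_map_curry (ι := Fin M) (κ := Fin N) (X := ℝ)
    (fun _ _ => gam1 v)
  rw [Measure.infinitePi_eq_pi] at h
  rw [h]
  have h2 : (fun _ : Fin M => Measure.infinitePi (fun _ : Fin N => gam1 v)) =
      fun _ : Fin M => Measure.pi (fun _ : Fin N => gam1 v) := by
    funext _
    exact Measure.infinitePi_eq_pi _
  rw [Measure.infinitePi_eq_pi]
  exact congrArg (fun m : Fin M → Measure (Fin N → ℝ) => Measure.pi m) h2

end LBLK

open LBLK in
theorem l_blk : StBLK := by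
  intro Ω _ P _ v ξ hξ N M
  have hinj : Function.Injective (fun p : Fin M × Fin N => N * (p.1 : ℕ) + (p.2 : ℕ)) := by
    rintro ⟨k, l⟩ ⟨k', l'⟩ h
    have hN : 0 < N := lt_of_le_of_lt (Nat.zero_le _) l.2
    have h' : N * (k : ℕ) + (l : ℕ) = N * (k' : ℕ) + (l' : ℕ) := h
    have h1 : (k : ℕ) = k' := by
      have e1 : (N * (k : ℕ) + (l : ℕ)) / N = k := by
        rw [Nat.mul_add_div hN, Nat.div_eq_of_lt l.2, add_zero]
      have e2 : (N * (k' : ℕ) + (l' : ℕ)) / N = k' := by
        rw [Nat.mul_add_div hN, Nat.div_eq_of_lt l'.2, add_zero]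
      rw [← e1, h', e2]
    have h2 : (l : ℕ) = l' := by
      rw [h1] at h'
      omega
    exact Prod.ext (Fin.ext h1) (Fin.ext h2)
  have hind : iIndepFun (fun p : Fin M × Fin N => ξ (N * (p.1 : ℕ) + (p.2 : ℕ))) P :=
    hξ.ind.precomp hinj
  have h1 := (iIndepFun_iff_map_fun_eq_pi_map
    (fun p : Fin M × Fin N => (hξ.meas (N * (p.1 : ℕ) + (p.2 : ℕ))).aemeasurable)).mp hind
  have h2 : (fun p : Fin M × Fin N => P.map (ξ (N * (p.1 : ℕ) + (p.2 : ℕ)))) =
      fun _ : Fin M × Fin N => gam1 v := by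
    funext p
    exact hξ.law _
  have h3 : Measure.pi (fun p : Fin M × Fin N => P.map (ξ (N * (p.1 : ℕ) + (p.2 : ℕ)))) =
      Measure.pi (fun _ : Fin M × Fin N => gam1 v) :=
    congrArg (fun m : Fin M × Fin N → Measure ℝ => Measure.pi m) h2
  rw [h3] at h1
  rw [← pi_curry, ← h1, Measure.map_map (MeasurableEquiv.measurable _)]
  · rfl
  · exact measurable_pi_lambda _ (fun p => hξ.meas _)

end Pool.Agent.R132.CM
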