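import Pool.Agent.R132.CM.Defs

/-!
Piece CHG of the project on MP_0f8574_pr (helper765): polar coordinates for the Gaussian law.
-/

set_option autoImplicit false

open MeasureTheory ProbabilityTheory Set
open scoped ENNReal NNReal

namespace Pool.Agent.R132.CM

/-- The intended form of `StCHG`: the outer integral is with respect to the Gaussian law (in
`StCHG` of `Defs.lean` the measure binds to the inner integral). -/
def StCHG2 : Prop := ∀ (t r : ℝ), 0 < t → 0 ≤ r → ∀ f : ℝ → ℝ≥0∞, Measurable f →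
  ∫⁻ a, (∫⁻ s in Ioi (0 : ℝ), f (Real.sqrt ((r + Real.sqrt t * a) ^ 2 + t * s)) *
      ENNReal.ofReal (Real.exp (-s / 2) / 2)) ∂(gaussianReal 0 1) =
    ∫⁻ x, f (r + x) * ENNReal.ofReal (if r = 0 then k0 t (r + x) else kk t r (r + x)) ∂(gam1 t)

namespace CHG

/-- the density of the centred Gaussian law with variance `t` -/
noncomputable def ph (t x : ℝ) : ℝ :=
  (Real.sqrt (2 * Real.pi * t))⁻¹ * Real.exp (-x ^ 2 / (2 * t))

lemma ph_meas (t : ℝ) : Measurable (ph t) := by
  unfold ph
  fun_prop

lemma ph_nonneg (t x : ℝ) : 0 ≤ ph t x := by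
  unfold ph
  positivity

lemma gam1_lint {t : ℝ} (ht : 0 < t) (g : ℝ → ℝ≥0∞) (hg : Measurable g) :
    ∫⁻ x, g x ∂(gam1 t) = ∫⁻ x, ENNReal.ofReal (ph t x) * g x := by
  unfold gam1
  have hv : t.toNNReal ≠ 0 := by
    simpa using ht
  rw [gaussianReal_of_var_ne_zero _ hv,
    lintegral_withDensity_eq_lintegral_mul _ (measurable_gaussianPDF _ _) hg]
  refine lintegral_congr fun x => ?_
  simp only [Pi.mul_apply, gaussianPDF, gaussianPDFReal, ph, Real.coe_toNNReal _ ht.le, sub_zero]

lemma inner {t : ℝ} (ht : 0 < t) (y : ℝ) (f : ℝ → ℝ≥0∞) :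
    ∫⁻ s in Ioi (0 : ℝ), f (Real.sqrt (y ^ 2 + t * s)) * ENNReal.ofReal (Real.exp (-s / 2) / 2) =
      ∫⁻ q in Ioi |y|, f q * ENNReal.ofReal (q / t * Real.exp (-(q ^ 2 - y ^ 2) / (2 * t))) := by
  have him : (fun q : ℝ => (q ^ 2 - y ^ 2) / t) '' Ioi |y| = Ioi 0 := by
    ext s
    constructor
    · rintro ⟨q, hq, rfl⟩
      have h1 : |y| < q := hq
      have h2 : y ^ 2 < q ^ 2 := by
        rw [← sq_abs y]
        exact pow_lt_pow_left₀ h1 (abs_nonneg _) (by norm_num)
      exact div_pos (by linarith) ht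
    · intro hs
      have hs' : 0 < s := hs
      refine ⟨Real.sqrt (y ^ 2 + t * s), ?_, ?_⟩
      · show |y| < _
        rw [← Real.sqrt_sq_eq_abs]
        exact Real.sqrt_lt_sqrt (sq_nonneg _) (by nlinarith [mul_pos ht hs'])
      · show (Real.sqrt (y ^ 2 + t * s) ^ 2 - y ^ 2) / t = s
        rw [Real.sq_sqrt (by positivity)]
        field_simp
        ring
  rw [← him, lintegral_image_eq_lintegral_abs_deriv_mul measurableSet_Ioi
    (f' := fun q => 2 * q / t) ?_ ?_]
  · refine setLIntegral_congr_fun measurableSet_Ioi (fun q hq => ?_)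
    have h1 : |y| < q := hq
    have h0 : 0 < q := (abs_nonneg y).trans_lt h1
    have h3 : y ^ 2 + t * ((q ^ 2 - y ^ 2) / t) = q ^ 2 := by
      field_simp
      ring
    show ENNReal.ofReal |2 * q / t| * (f (Real.sqrt (y ^ 2 + t * ((q ^ 2 - y ^ 2) / t))) *
      ENNReal.ofReal (Real.exp (-((q ^ 2 - y ^ 2) / t) / 2) / 2)) = _
    rw [h3, Real.sqrt_sq h0.le, abs_of_pos (by positivity), mul_left_comm,
      ← ENNReal.ofReal_mul (by positivity)]
    congr 2
    have h4 : -((q ^ 2 - y ^ 2) / t) / 2 = -(q ^ 2 - y ^ 2) / (2 * t) := by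
      field_simp
    rw [h4]
    ring
  · intro q hq
    have h1 : HasDerivAt (fun q : ℝ => (q ^ 2 - y ^ 2) / t) (2 * q / t) q := by
      have := (((hasDerivAt_id q).pow 2).sub_const (y ^ 2)).div_const t
      simpa using this
    exact h1.hasDerivWithinAt
  · intro q1 h1 q2 h2 h12
    have h1' : |y| < q1 := h1
    have h2' : |y| < q2 := h2
    have p1 : 0 < q1 := (abs_nonneg y).trans_lt h1'
    have p2 : 0 < q2 := (abs_nonneg y).trans_lt h2'
    have h3 : (q1 ^ 2 - y ^ 2) / t = (q2 ^ 2 - y ^ 2) / t := h12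
    have h4 : q1 ^ 2 = q2 ^ 2 := by
      have := (div_left_inj' ht.ne').1 h3
      linarith
    nlinarith [sq_nonneg (q1 - q2), mul_pos p1 p2, (pow_left_inj₀ p1.le p2.le (by norm_num : (2:ℕ) ≠ 0)).1 h4]

/-- scaling of the standard Gaussian law -/
lemma scale {t : ℝ} (ht : 0 < t) (H : ℝ → ℝ≥0∞) (hH : Measurable H) :
    ∫⁻ a, H (Real.sqrt t * a) ∂(gaussianReal 0 1) = ∫⁻ x, H x ∂(gam1 t) := by
  have h1 : (gaussianReal 0 1).map (fun a => Real.sqrt t * a) = gam1 t := by
    rw [gaussianReal_map_const_mul]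
    unfold gam1
    congr 1
    · simp
    · ext
      simp [Real.sq_sqrt ht.le, Real.coe_toNNReal _ ht.le]
  rw [← h1, lintegral_map hH (by fun_prop)]

/-- the exponential integral -/
lemma expint {c p : ℝ} (hc : c ≠ 0) :
    ∫ y in (-p)..p, Real.exp (c * y) = (Real.exp (c * p) - Real.exp (-(c * p))) / c := by
  rw [intervalIntegral.integral_comp_mul_left (fun y => Real.exp y) hc, integral_exp]
  rw [smul_eq_mul, mul_neg]
  field_simp

lemma key {t r q : ℝ} (ht : 0 < t) (hr : 0 ≤ r) (hq : 0 < q) :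
    ENNReal.ofReal (q / t * Real.exp (-q ^ 2 / (2 * t))) *
        ∫⁻ y in Ioo (-q) q, ENNReal.ofReal (ph t (y - r) * Real.exp (y ^ 2 / (2 * t))) =
      ENNReal.ofReal (ph t (q - r)) *
        ENNReal.ofReal (if r = 0 then k0 t q else kk t r q) := by
  set C : ℝ := (Real.sqrt (2 * Real.pi * t))⁻¹ with hC
  have hCpos : 0 < C := by positivity
  have e1 : ∀ y : ℝ, ph t (y - r) * Real.exp (y ^ 2 / (2 * t)) =
      C * Real.exp (-r ^ 2 / (2 * t)) * Real.exp (r / t * y) := by
    intro y
    unfold ph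
    rw [← hC, mul_assoc, ← Real.exp_add, mul_assoc, ← Real.exp_add]
    congr 2
    field_simp
    ring
  have e2 : ∫⁻ y in Ioo (-q) q, ENNReal.ofReal (ph t (y - r) * Real.exp (y ^ 2 / (2 * t))) =
      ENNReal.ofReal (C * Real.exp (-r ^ 2 / (2 * t)) * ∫ y in (-q)..q, Real.exp (r / t * y)) := by
    rw [intervalIntegral.integral_of_le (by linarith), integral_Ioc_eq_integral_Ioo,
      ← integral_const_mul, ofReal_integral_eq_lintegral_ofReal]
    · refine lintegral_congr fun y => ?_
      rw [e1]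
    · apply Integrable.const_mul
      have h1 : IntegrableOn (fun y : ℝ => Real.exp (r / t * y)) (Icc (-q) q) :=
        ContinuousOn.integrableOn_compact isCompact_Icc (by fun_prop)
      exact h1.mono_set Ioo_subset_Icc_self
    · exact Filter.Eventually.of_forall fun y => by positivity
  rw [e2, ← ENNReal.ofReal_mul (by positivity), ← ENNReal.ofReal_mul (ph_nonneg _ _)]
  congr 1
  by_cases h0 : r = 0
  · subst h0
    simp only [zero_div, zero_mul, Real.exp_zero, intervalIntegral.integral_const, if_true]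
    unfold k0 ph
    rw [if_pos hq, ← hC]
    simp only [sub_zero, smul_eq_mul, mul_one]
    norm_num
    field_simp
    ring
  · have hr' : 0 < r := lt_of_le_of_ne hr (Ne.symm h0)
    rw [if_neg h0, expint (by positivity)]
    unfold kk ph
    rw [if_pos hq, ← hC]
    have a1 : Real.exp (-q ^ 2 / (2 * t)) * Real.exp (-r ^ 2 / (2 * t)) * Real.exp (r / t * q) =
        Real.exp (-(q - r) ^ 2 / (2 * t)) := by
      rw [← Real.exp_add, ← Real.exp_add]
      congr 1
      field_simp
      ring
    have a2 : Real.exp (-q ^ 2 / (2 * t)) * Real.exp (-r ^ 2 / (2 * t)) *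
        Real.exp (-(r / t * q)) =
        Real.exp (-(q - r) ^ 2 / (2 * t)) * Real.exp (-(2 * r * q) / t) := by
      rw [← Real.exp_add, ← Real.exp_add, ← Real.exp_add]
      congr 1
      field_simp
      ring
    calc q / t * Real.exp (-q ^ 2 / (2 * t)) * (C * Real.exp (-r ^ 2 / (2 * t)) *
          ((Real.exp (r / t * q) - Real.exp (-(r / t * q))) / (r / t)))
        = C * (q / r) * (Real.exp (-q ^ 2 / (2 * t)) * Real.exp (-r ^ 2 / (2 * t)) *
            Real.exp (r / t * q) - Real.exp (-q ^ 2 / (2 * t)) * Real.exp (-r ^ 2 / (2 * t)) *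
            Real.exp (-(r / t * q))) := by
          field_simp
      _ = _ := by
          rw [a1, a2]
          ring

end CHG

open CHG in
theorem l_chg2 : StCHG2 := by
  intro t r ht hr f hf
  -- the integrand as a function of `y = r + x`
  set H : ℝ → ℝ≥0∞ := fun y =>
    ∫⁻ q in Ioi |y|, f q * ENNReal.ofReal (q / t * Real.exp (-(q ^ 2 - y ^ 2) / (2 * t))) with hH
  -- joint integrand
  set J : ℝ × ℝ → ℝ≥0∞ := fun p => {p : ℝ × ℝ | |p.1| < p.2}.indicator (fun p =>
    f p.2 * ENNReal.ofReal (p.2 / t * Real.exp (-(p.2 ^ 2 - p.1 ^ 2) / (2 * t)))) p with hJ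
  have hJm : Measurable J := by
    refine Measurable.indicator ?_ ?_
    · refine (hf.comp measurable_snd).mul ?_
      fun_prop
    · exact measurableSet_lt (by fun_prop) (by fun_prop)
  have hHJ : ∀ y, H y = ∫⁻ q, J (y, q) := by
    intro y
    show ∫⁻ q in Ioi |y|, _ = _
    rw [← lintegral_indicator measurableSet_Ioi]
    rfl
  have hHm : Measurable H := by
    have : H = fun y => ∫⁻ q, J (y, q) := funext hHJ
    rw [this]
    exact hJm.lintegral_prod_right'
  have hL : ∫⁻ a, (∫⁻ s in Ioi (0 : ℝ), f (Real.sqrt ((r + Real.sqrt t * a) ^ 2 + t * s)) *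
      ENNReal.ofReal (Real.exp (-s / 2) / 2)) ∂(gaussianReal 0 1) =
      ∫⁻ x, H (r + x) ∂(gam1 t) := by
    rw [← scale ht (fun x => H (r + x)) (show Measurable (fun x => H (r + x)) from
      hHm.comp (by fun_prop))]
    refine lintegral_congr fun a => ?_
    exact inner ht _ f
  have hHr : Measurable (fun x => H (r + x)) := hHm.comp (by fun_prop)
  rw [hL, gam1_lint ht (fun x => H (r + x)) hHr, gam1_lint ht]
  swap
  · refine (hf.comp (by fun_prop)).mul (ENNReal.measurable_ofReal.comp ?_)
    by_cases h0 : r = 0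
    · simp only [h0, if_true, k0]
      refine Measurable.ite (measurableSet_lt (by fun_prop) (by fun_prop)) (by fun_prop)
        (by fun_prop)
    · simp only [h0, if_false, kk]
      refine Measurable.ite (measurableSet_lt (by fun_prop) (by fun_prop)) (by fun_prop)
        (by fun_prop)
  -- translation
  have hT1 : ∫⁻ x, ENNReal.ofReal (ph t x) * H (r + x) =
      ∫⁻ y, ENNReal.ofReal (ph t (y - r)) * H y := by
    rw [← lintegral_add_left_eq_self (μ := volume)
      (fun y => ENNReal.ofReal (ph t (y - r)) * H y) r]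
    refine lintegral_congr fun x => ?_
    simp
  have hT2 : ∫⁻ x, ENNReal.ofReal (ph t x) * (f (r + x) *
      ENNReal.ofReal (if r = 0 then k0 t (r + x) else kk t r (r + x))) =
      ∫⁻ y, ENNReal.ofReal (ph t (y - r)) * (f y *
        ENNReal.ofReal (if r = 0 then k0 t y else kk t r y)) := by
    rw [← lintegral_add_left_eq_self (μ := volume)
      (fun y => ENNReal.ofReal (ph t (y - r)) * (f y *
        ENNReal.ofReal (if r = 0 then k0 t y else kk t r y))) r]
    refine lintegral_congr fun x => ?_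
    simp
  rw [hT1, hT2]
  -- swap
  have hS : ∫⁻ y, ENNReal.ofReal (ph t (y - r)) * H y =
      ∫⁻ q, ∫⁻ y, ENNReal.ofReal (ph t (y - r)) * J (y, q) := by
    rw [← lintegral_lintegral_swap]
    · refine lintegral_congr fun y => ?_
      have hJy : Measurable (fun q => J (y, q)) := hJm.comp measurable_prodMk_left
      rw [hHJ, lintegral_const_mul _ hJy]
    · refine Measurable.aemeasurable ?_
      refine Measurable.mul ?_ hJm
      exact ENNReal.measurable_ofReal.comp ((ph_meas t).comp (by fun_prop))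
  rw [hS]
  refine lintegral_congr fun q => ?_
  by_cases hq : 0 < q
  · have h1 : ∫⁻ y, ENNReal.ofReal (ph t (y - r)) * J (y, q) =
        ∫⁻ y in Ioo (-q) q, (f q * ENNReal.ofReal (q / t * Real.exp (-q ^ 2 / (2 * t)))) *
          ENNReal.ofReal (ph t (y - r) * Real.exp (y ^ 2 / (2 * t))) := by
      rw [← lintegral_indicator measurableSet_Ioo]
      refine lintegral_congr fun y => ?_
      by_cases hy : |y| < q
      · have hy' : y ∈ Ioo (-q) q := abs_lt.1 hy
        rw [indicator_of_mem hy']
        have : J (y, q) = f q * ENNReal.ofReal (q / t * Real.exp (-(q ^ 2 - y ^ 2) / (2 * t))) := by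
          show indicator _ _ _ = _
          rw [indicator_of_mem (show ((y, q) : ℝ × ℝ) ∈ {p : ℝ × ℝ | |p.1| < p.2} from hy)]
        rw [this]
        have e : q / t * Real.exp (-(q ^ 2 - y ^ 2) / (2 * t)) =
            q / t * Real.exp (-q ^ 2 / (2 * t)) * Real.exp (y ^ 2 / (2 * t)) := by
          rw [mul_assoc, ← Real.exp_add]
          congr 2
          ring
        rw [e, ENNReal.ofReal_mul (by positivity), ENNReal.ofReal_mul (ph_nonneg _ _)]
        ring
      · have hy' : y ∉ Ioo (-q) q := fun h => hy (abs_lt.2 h)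
        rw [indicator_of_notMem hy']
        have : J (y, q) = 0 := by
          show indicator _ _ _ = _
          rw [indicator_of_notMem (show ((y, q) : ℝ × ℝ) ∉ {p : ℝ × ℝ | |p.1| < p.2} from hy)]
        rw [this, mul_zero]
    have hm : Measurable (fun y => ENNReal.ofReal (ph t (y - r) * Real.exp (y ^ 2 / (2 * t)))) := by
      have h2 : Measurable (fun y : ℝ => ph t (y - r)) := (ph_meas t).comp (by fun_prop)
      exact ENNReal.measurable_ofReal.comp (h2.mul (by fun_prop))
    rw [h1, lintegral_const_mul _ hm, mul_assoc, key ht hr hq]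
    ring
  · have h1 : ∀ y, J (y, q) = 0 := by
      intro y
      show indicator _ _ _ = _
      refine indicator_of_notMem ?_ _
      intro h
      exact hq ((abs_nonneg y).trans_lt h)
    have h2 : (if r = 0 then k0 t q else kk t r q) = 0 := by
      unfold k0 kk
      simp [hq]
    simp [h1, h2]

end Pool.Agent.R132.CM
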