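import Pool.Agent.R132.CM.Defs

/-! Piece COMP (helper415): compactness of laws with fixed first marginal and bounded mean of the
second coordinate. -/

set_option autoImplicit false

open MeasureTheory ProbabilityTheory Filter Topology Set unitInterval
open scoped ENNReal NNReal BoundedContinuousFunction
open Pool.Agent.R967.FB

namespace Pool.Agent.R132.CM

/-- a bounded continuous function from a bound -/
noncomputable def compBcf {X : Type} [TopologicalSpace X] (f : X → ℝ≥0) (hf : Continuous f)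
    (K : ℝ≥0) (hK : ∀ p, f p ≤ K) : X →ᵇ ℝ≥0 :=
  BoundedContinuousFunction.mkOfBound ⟨f, hf⟩ K (by
    intro x y
    rw [NNReal.dist_eq, abs_le]
    have h1 : ((f x : ℝ≥0) : ℝ) ≤ K := by exact_mod_cast hK x
    have h2 : ((f y : ℝ≥0) : ℝ) ≤ K := by exact_mod_cast hK y
    have h3 : (0 : ℝ) ≤ f x := NNReal.coe_nonneg _
    have h4 : (0 : ℝ) ≤ f y := NNReal.coe_nonneg _
    simp only [ContinuousMap.coe_mk]
    constructor <;> linarith)

theorem compBcf_apply {X : Type} [TopologicalSpace X] (f : X → ℝ≥0) (hf : Continuous f)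
    (K : ℝ≥0) (hK : ∀ p, f p ≤ K) (x : X) : compBcf f hf K hK x = f x := rfl

theorem l_comp : StCOMP := by
  intro W _ C π hp hf hC
  set PP : ℕ → ProbabilityMeasure (C(ℝ≥0, ℝ) × ℝ≥0) := fun k => ⟨π k, hp k⟩ with hPP
  have htight : IsTightMeasureSet
      {((μ : ProbabilityMeasure (C(ℝ≥0, ℝ) × ℝ≥0)) : Measure (C(ℝ≥0, ℝ) × ℝ≥0)) | μ ∈ range PP} := by
    apply IsTightMeasureSet.prodMk
    · apply (isTightMeasureSet_singleton (μ := W)).subset
      rintro _ ⟨_, ⟨μ, ⟨k, rfl⟩, rfl⟩, rfl⟩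
      exact hf k
    · rw [isTightMeasureSet_iff_exists_isCompact_measure_compl_le]
      intro ε hε
      obtain ⟨R, hR0, hR⟩ : ∃ R : ℝ≥0, 0 < R ∧ (C : ℝ≥0∞) / R ≤ ε := by
        by_cases ht : ε = ⊤
        · exact ⟨1, one_pos, by rw [ht]; exact le_top⟩
        · lift ε to ℝ≥0 using ht
          have hε' : 0 < ε := by exact_mod_cast hε
          refine ⟨C / ε + 1, by positivity, ?_⟩
          have hpos : 0 < C / ε + 1 := by positivity
          rw [← ENNReal.coe_div hpos.ne', ENNReal.coe_le_coe, div_le_iff₀ hpos, mul_add, mul_one,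
            mul_div_cancel₀ _ hε'.ne']
          exact le_self_add
      refine ⟨Icc 0 R, isCompact_Icc, ?_⟩
      rintro _ ⟨_, ⟨μ, ⟨k, rfl⟩, rfl⟩, rfl⟩
      change (π k).map Prod.snd (Icc 0 R)ᶜ ≤ ε
      rw [Measure.map_apply measurable_snd isClosed_Icc.isOpen_compl.measurableSet]
      refine le_trans ?_ hR
      rw [ENNReal.le_div_iff_mul_le (Or.inl (by exact_mod_cast hR0.ne')) (Or.inl ENNReal.coe_ne_top)]
      have hmar := mul_meas_ge_le_lintegral₀ (μ := π k)
        (f := fun p : C(ℝ≥0, ℝ) × ℝ≥0 => (p.2 : ℝ≥0∞)) (by fun_prop) (R : ℝ≥0∞)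
      refine le_trans ?_ (hmar.trans (hC k))
      rw [mul_comm]
      gcongr
      intro p hp
      simp only [mem_preimage, mem_compl_iff, mem_Icc, zero_le, true_and, not_le] at hp
      simp only [mem_ofPred_eq, ENNReal.coe_le_coe]
      exact hp.le
  have hcomp := isCompact_closure_of_isTightMeasureSet htight
  set U : Ultrafilter ℕ := Ultrafilter.of atTop with hU
  have hUle : (U : Filter ℕ) ≤ atTop := Ultrafilter.of_le atTop
  obtain ⟨μ, -, hlim⟩ := hcomp.ultrafilter_le_nhds (U.map PP) (by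
    rw [le_principal_iff, Ultrafilter.mem_coe, Ultrafilter.mem_map]
    exact Filter.mem_of_superset Filter.univ_mem fun k _ => subset_closure (mem_range_self k))
  have hT : Tendsto PP U (𝓝 μ) := hlim
  have key : ∀ (f : C(ℝ≥0, ℝ) × ℝ≥0 → ℝ≥0) (_ : Continuous f) (K : ℝ≥0), (∀ p, f p ≤ K) →
      Tendsto (fun k => ∫⁻ p, (f p : ℝ≥0∞) ∂(π k)) U (𝓝 (∫⁻ p, (f p : ℝ≥0∞) ∂(μ : Measure _))) := by
    intro f hf' K hK
    exact (ProbabilityMeasure.tendsto_iff_forall_lintegral_tendsto.1 hT) (compBcf f hf' K hK)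
  refine ⟨(μ : Measure _), U, μ.2, hUle, ?_, ?_, fun f hf' hf1 => key f hf' 1 hf1⟩
  · have h1 : Tendsto (fun k => (PP k).map (f := Prod.fst) measurable_fst.aemeasurable) U
        (𝓝 (μ.map (f := Prod.fst) measurable_fst.aemeasurable)) :=
      ProbabilityMeasure.tendsto_map_of_tendsto_of_continuous PP μ hT continuous_fst
    have h2 : (fun k => (PP k).map (f := Prod.fst) measurable_fst.aemeasurable) =
        fun _ => (⟨W, inferInstance⟩ : ProbabilityMeasure C(ℝ≥0, ℝ)) := by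
      funext k
      apply Subtype.ext
      exact hf k
    rw [h2] at h1
    have h3 := tendsto_nhds_unique h1 tendsto_const_nhds
    have h4 := congrArg (fun ν : ProbabilityMeasure C(ℝ≥0, ℝ) => (ν : Measure C(ℝ≥0, ℝ))) h3
    exact h4
  · have h5 : ∀ K : ℕ, ∫⁻ p : C(ℝ≥0, ℝ) × ℝ≥0, ((min p.2 (K : ℝ≥0) : ℝ≥0) : ℝ≥0∞)
        ∂(μ : Measure (C(ℝ≥0, ℝ) × ℝ≥0)) ≤ C := by
      intro K
      have h6 := key (fun p => min p.2 (K : ℝ≥0)) (by fun_prop) K (fun p => min_le_right _ _)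
      refine le_of_tendsto h6 (Filter.Eventually.of_forall fun k => ?_)
      refine le_trans (lintegral_mono fun p => ?_) (hC k)
      exact ENNReal.coe_le_coe.2 (min_le_left _ _)
    have h7 : ∫⁻ p, (p.2 : ℝ≥0∞) ∂(μ : Measure (C(ℝ≥0, ℝ) × ℝ≥0)) =
        ⨆ K : ℕ, ∫⁻ p : C(ℝ≥0, ℝ) × ℝ≥0, ((min p.2 (K : ℝ≥0) : ℝ≥0) : ℝ≥0∞)
          ∂(μ : Measure (C(ℝ≥0, ℝ) × ℝ≥0)) := by
      rw [← lintegral_iSup (by fun_prop)]
      · refine lintegral_congr fun p => ?_
        apply le_antisymm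
        · obtain ⟨K, hK⟩ := exists_nat_ge p.2
          refine le_iSup_of_le K ?_
          rw [min_eq_left hK]
        · exact iSup_le fun K => ENNReal.coe_le_coe.2 (min_le_left _ _)
      · intro K K' hKK p
        exact ENNReal.coe_le_coe.2 (min_le_min le_rfl (by exact_mod_cast hKK))
    rw [h7]
    exact iSup_le h5

end Pool.Agent.R132.CM
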