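import Mathlib
import Pool.Agent.R132.CM.Defs

/-! The three dimensional estimate `StD1`. -/

set_option autoImplicit false

open MeasureTheory ProbabilityTheory Filter Topology Set
open scoped ENNReal NNReal

namespace Pool.Agent.R132.CM.LD1

open Pool.Agent.R132.CM

/-- the pointwise bound -/
lemma pw (a x w u : ℝ) (ha : 0 ≤ a) (hx : 0 ≤ x) (hw : 0 ≤ w) (hu : 0 ≤ u) (h : x ≤ w + u) :
    ENNReal.ofReal (a * x ^ ((1 / 2) : ℝ) * w ^ (-(5 / 2) : ℝ)) ≤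
      ENNReal.ofReal a * ENNReal.ofReal (1 / w ^ 2) +
        ENNReal.ofReal a * ENNReal.ofReal (u ^ ((1 / 2) : ℝ)) *
          ENNReal.ofReal (w ^ (-(5 / 2) : ℝ)) := by
  have h1 : x ^ ((1 / 2) : ℝ) ≤ w ^ ((1 / 2) : ℝ) + u ^ ((1 / 2) : ℝ) := by
    refine (Real.rpow_le_rpow hx h (by norm_num)).trans ?_
    exact Real.rpow_add_le_add_rpow hw hu (by norm_num) (by norm_num)
  have h2 : w ^ ((1 / 2) : ℝ) * w ^ (-(5 / 2) : ℝ) ≤ 1 / w ^ 2 := by
    rcases hw.eq_or_lt with h0 | h0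
    · rw [← h0, Real.zero_rpow (by norm_num)]
      simp
    · rw [← Real.rpow_add h0]
      apply le_of_eq
      rw [show ((1 / 2) : ℝ) + (-(5 / 2)) = -((2 : ℕ) : ℝ) by norm_num, Real.rpow_neg hw,
        Real.rpow_natCast, one_div]
  have h3 : 0 ≤ w ^ (-(5 / 2) : ℝ) := Real.rpow_nonneg hw _
  have h4 : 0 ≤ u ^ ((1 / 2) : ℝ) := Real.rpow_nonneg hu _
  have h5 : a * x ^ ((1 / 2) : ℝ) * w ^ (-(5 / 2) : ℝ) ≤
      a * (1 / w ^ 2) + a * u ^ ((1 / 2) : ℝ) * w ^ (-(5 / 2) : ℝ) := by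
    calc a * x ^ ((1 / 2) : ℝ) * w ^ (-(5 / 2) : ℝ)
        ≤ a * (w ^ ((1 / 2) : ℝ) + u ^ ((1 / 2) : ℝ)) * w ^ (-(5 / 2) : ℝ) := by gcongr
      _ = a * (w ^ ((1 / 2) : ℝ) * w ^ (-(5 / 2) : ℝ)) +
          a * u ^ ((1 / 2) : ℝ) * w ^ (-(5 / 2) : ℝ) := by ring
      _ ≤ _ := by gcongr
  refine (ENNReal.ofReal_le_ofReal h5).trans ?_
  rw [ENNReal.ofReal_add (by positivity) (by positivity), ENNReal.ofReal_mul ha,
    ENNReal.ofReal_mul (mul_nonneg ha h4), ENNReal.ofReal_mul ha]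

/-- the integrand as a function of `(ζ₀, ζ_{n-1})` and `V` -/
noncomputable def FF (p : (E3 × E3) × E3) : ℝ≥0∞ :=
  ENNReal.ofReal ‖p.1.1‖ * ENNReal.ofReal (1 / ‖(p.1.1 + p.1.2) + p.2‖ ^ 2) +
    ENNReal.ofReal ‖p.1.1‖ * ENNReal.ofReal (‖p.1.2‖ ^ ((1 / 2) : ℝ)) *
      ENNReal.ofReal (‖(p.1.1 + p.1.2) + p.2‖ ^ (-(5 / 2) : ℝ))

lemma measurable_FF : Measurable FF := by
  unfold FF
  have h1 : Measurable (fun p : (E3 × E3) × E3 => ‖p.1.1‖) := by fun_prop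
  have h2 : Measurable (fun p : (E3 × E3) × E3 => ‖p.1.2‖) := by fun_prop
  have h3 : Measurable (fun p : (E3 × E3) × E3 => ‖(p.1.1 + p.1.2) + p.2‖) := by fun_prop
  refine Measurable.add (h1.ennreal_ofReal.mul ?_) ((h1.ennreal_ofReal.mul ?_).mul ?_)
  · exact ((h3.pow_const 2).const_div 1).ennreal_ofReal
  · exact (h2.pow_const _).ennreal_ofReal
  · exact (h3.pow_const _).ennreal_ofReal

lemma num (n : ℕ) (hn : 4 ≤ n) :
    2 / (((n : ℝ) - 2) / n) ≤ 4 ∧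
    2 / (((n : ℝ) - 2) / n) * (1 + (((n : ℝ) - 2) / n) ^ (-(1 / 2) : ℝ)) ≤ 12 := by
  have hn' : (4 : ℝ) ≤ n := by exact_mod_cast hn
  have ht : (1 : ℝ) / 2 ≤ ((n : ℝ) - 2) / n := by
    rw [div_le_div_iff₀ (by norm_num) (by linarith)]
    linarith
  set t : ℝ := ((n : ℝ) - 2) / n with ht'
  have h1 : 2 / t ≤ 4 := by
    rw [div_le_iff₀ (by linarith)]
    linarith
  have h2 : t ^ (-(1 / 2) : ℝ) ≤ 2 := by
    have : t ^ (-(1 / 2) : ℝ) ≤ ((1 : ℝ) / 2) ^ (-(1 / 2) : ℝ) :=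
      Real.rpow_le_rpow_of_nonpos (by norm_num) ht (by norm_num)
    refine this.trans ?_
    rw [one_div, Real.rpow_neg (by norm_num), Real.inv_rpow (by norm_num), inv_inv]
    calc (2 : ℝ) ^ ((2 : ℝ)⁻¹) ≤ (2 : ℝ) ^ (1 : ℝ) :=
          Real.rpow_le_rpow_of_exponent_le (by norm_num) (by norm_num)
      _ = 2 := Real.rpow_one 2
  refine ⟨h1, ?_⟩
  have h3 : 0 ≤ t ^ (-(1 / 2) : ℝ) := Real.rpow_nonneg (by linarith) _
  calc 2 / t * (1 + t ^ (-(1 / 2) : ℝ)) ≤ 4 * (1 + 2) := by gcongr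
    _ = 12 := by norm_num

end Pool.Agent.R132.CM.LD1

namespace Pool.Agent.R132.CM

open LD1

theorem l_d1 : StNEG → StMOM → StSUM3 → StD1 := by
  intro hneg hmom hsum n hn Ω' _ P' _ ζ hζ
  have hn' : (4 : ℝ) ≤ n := by exact_mod_cast hn
  have hn0 : (0 : ℝ) < n := by linarith
  set V : Ω' → E3 := fun ω => ∑ l ∈ Finset.Ico 1 (n - 1), ζ l ω with hV
  have hVm : Measurable V := by
    refine Finset.measurable_sum _ (fun l _ => hζ.meas l)
  -- the law of V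
  have hVl : P'.map V = gam3 (((n : ℝ) - 2) / n) := by
    have := hsum.2 n (by omega) Ω' P' ζ hζ (Finset.Ico 1 (n - 1))
    rw [hV, this]
    congr 2
    rw [Nat.card_Ico, show n - 1 - 1 = n - 2 by omega, Nat.cast_sub (by omega)]
    norm_num
  have ht0 : 0 < ((n : ℝ) - 2) / n := div_pos (by linarith) hn0
  -- independence
  have hind : IndepFun (fun ω => (ζ 0 ω, ζ (n - 1) ω)) V P' := by
    have h := hζ.ind.indepFun_finset {0, n - 1} (Finset.Ico 1 (n - 1)) (by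
      rw [Finset.disjoint_left]
      intro x hx hx'
      simp only [Finset.mem_insert, Finset.mem_singleton] at hx
      rw [Finset.mem_Ico] at hx'
      omega) hζ.meas
    have hφ : Measurable (fun f : (({0, n - 1} : Finset ℕ) → E3) =>
        (f ⟨0, by simp⟩, f ⟨n - 1, by simp⟩)) := by fun_prop
    have hψ : Measurable (fun f : ((Finset.Ico 1 (n - 1) : Finset ℕ) → E3) => ∑ l, f l) := by
      fun_prop
    have h' := h.comp hφ hψ
    have e : V = (fun f : ((Finset.Ico 1 (n - 1) : Finset ℕ) → E3) => ∑ l, f l) ∘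
        (fun a (i : (Finset.Ico 1 (n - 1) : Finset ℕ)) => ζ i a) := by
      funext ω
      simp only [hV, Function.comp]
      rw [Finset.sum_coe_sort (Finset.Ico 1 (n - 1)) (fun l => ζ l ω)]
    rw [e]
    exact h'
  have hind2 : IndepFun (ζ 0) (ζ (n - 1)) P' := hζ.ind.indepFun (by omega)
  have hpm : Measurable (fun ω => (ζ 0 ω, ζ (n - 1) ω)) := (hζ.meas 0).prodMk (hζ.meas _)
  -- pointwise bound
  have hpw : ∀ ω, ENNReal.ofReal (‖S3 (fun l => ζ l ω) 1‖ *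
      ‖S3 (fun l => ζ l ω) (n - 1)‖ ^ ((1 / 2) : ℝ) *
      ‖S3 (fun l => ζ l ω) n‖ ^ (-(5 / 2) : ℝ)) ≤ FF ((ζ 0 ω, ζ (n - 1) ω), V ω) := by
    intro ω
    have e1 : S3 (fun l => ζ l ω) 1 = ζ 0 ω := by simp [S3]
    have e2 : S3 (fun l => ζ l ω) n = S3 (fun l => ζ l ω) (n - 1) + ζ (n - 1) ω := by
      unfold S3
      conv_lhs => rw [show n = (n - 1) + 1 by omega]
      rw [Finset.sum_range_succ]
    have e3 : S3 (fun l => ζ l ω) (n - 1) = ζ 0 ω + V ω := by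
      unfold S3
      rw [hV, Finset.range_eq_Ico, Finset.sum_eq_sum_Ico_succ_bot (by omega)]
    have e4 : S3 (fun l => ζ l ω) n = (ζ 0 ω + ζ (n - 1) ω) + V ω := by
      rw [e2, e3]; abel
    have h := pw ‖S3 (fun l => ζ l ω) 1‖ ‖S3 (fun l => ζ l ω) (n - 1)‖ ‖S3 (fun l => ζ l ω) n‖
      ‖ζ (n - 1) ω‖ (norm_nonneg _) (norm_nonneg _) (norm_nonneg _) (norm_nonneg _) (by
        have : S3 (fun l => ζ l ω) (n - 1) = S3 (fun l => ζ l ω) n - ζ (n - 1) ω := by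
          rw [e2]; abel
        rw [this]
        exact norm_sub_le _ _)
    refine h.trans (le_of_eq ?_)
    unfold FF
    simp only [e4, e1]
  -- first moments
  have hm1 : ∀ i, ∫⁻ ω, ENNReal.ofReal ‖ζ i ω‖ ∂P' ≤
      ENNReal.ofReal (2 * (n : ℝ) ^ (-(1 / 2) : ℝ)) := by
    intro i
    have h := (hmom (1 / (n : ℝ)) (by positivity)).2.2.2.1
    have h2 : ∫⁻ ω, ENNReal.ofReal ‖ζ i ω‖ ∂P' =
        ∫⁻ z, ENNReal.ofReal ‖z‖ ∂(gam3 (1 / (n : ℝ))) := by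
      rw [← hζ.law i, lintegral_map (by fun_prop) (hζ.meas i)]
    rw [h2]
    refine h.trans (le_of_eq ?_)
    rw [one_div (n : ℝ), Real.inv_rpow hn0.le, ← Real.rpow_neg hn0.le]
  have hsq : (n : ℝ) ^ (-(1 / 2) : ℝ) ≤ 1 / 2 := by
    calc (n : ℝ) ^ (-(1 / 2) : ℝ) ≤ (4 : ℝ) ^ (-(1 / 2) : ℝ) :=
          Real.rpow_le_rpow_of_nonpos (by norm_num) hn' (by norm_num)
      _ = 1 / 2 := by
          rw [Real.rpow_neg (by norm_num), ← Real.sqrt_eq_rpow,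
            show (4 : ℝ) = 2 ^ 2 by norm_num, Real.sqrt_sq (by norm_num)]
          norm_num
  have hm2 : ∀ i, ∫⁻ ω, ENNReal.ofReal (‖ζ i ω‖ ^ ((1 / 2) : ℝ)) ∂P' ≤ ENNReal.ofReal 2 := by
    intro i
    have h1 : ∀ ω, ENNReal.ofReal (‖ζ i ω‖ ^ ((1 / 2) : ℝ)) ≤
        1 + ENNReal.ofReal ‖ζ i ω‖ := by
      intro ω
      rw [← ENNReal.ofReal_one, ← ENNReal.ofReal_add (by norm_num) (norm_nonneg _)]
      apply ENNReal.ofReal_le_ofReal
      have h0 := norm_nonneg (ζ i ω)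
      rcases le_total ‖ζ i ω‖ 1 with h | h
      · have := Real.rpow_le_one h0 h (z := 1 / 2) (by norm_num)
        linarith
      · have := Real.rpow_le_rpow_of_exponent_le h (y := 1 / 2) (z := 1) (by norm_num)
        rw [Real.rpow_one] at this
        linarith
    calc ∫⁻ ω, ENNReal.ofReal (‖ζ i ω‖ ^ ((1 / 2) : ℝ)) ∂P'
        ≤ ∫⁻ ω, (1 + ENNReal.ofReal ‖ζ i ω‖) ∂P' := lintegral_mono h1
      _ = 1 + ∫⁻ ω, ENNReal.ofReal ‖ζ i ω‖ ∂P' := by
          rw [lintegral_add_left measurable_const]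
          simp
      _ ≤ 1 + ENNReal.ofReal (2 * (n : ℝ) ^ (-(1 / 2) : ℝ)) := by gcongr; exact hm1 i
      _ ≤ ENNReal.ofReal 2 := by
          rw [← ENNReal.ofReal_one, ← ENNReal.ofReal_add (by norm_num) (by positivity)]
          apply ENNReal.ofReal_le_ofReal
          linarith
  -- the inner integral
  have hin : ∀ q : E3 × E3, ∫⁻ z, FF (q, z) ∂(gam3 (((n : ℝ) - 2) / n)) ≤
      ENNReal.ofReal ‖q.1‖ * ENNReal.ofReal 4 +
        ENNReal.ofReal ‖q.1‖ * ENNReal.ofReal (‖q.2‖ ^ ((1 / 2) : ℝ)) * ENNReal.ofReal 12 := by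
    intro q
    have hA := hneg (q.1 + q.2) _ ht0
    have hN := num n hn
    have m1 : Measurable (fun z : E3 => ENNReal.ofReal (1 / ‖(q.1 + q.2) + z‖ ^ 2)) := by
      have h3 : Measurable (fun z : E3 => ‖(q.1 + q.2) + z‖) := by fun_prop
      exact ((h3.pow_const 2).const_div 1).ennreal_ofReal
    have m2 : Measurable
        (fun z : E3 => ENNReal.ofReal (‖(q.1 + q.2) + z‖ ^ (-(5 / 2) : ℝ))) := by
      have h3 : Measurable (fun z : E3 => ‖(q.1 + q.2) + z‖) := by fun_prop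
      exact (h3.pow_const _).ennreal_ofReal
    unfold FF
    simp only
    rw [lintegral_add_left (m1.const_mul _), lintegral_const_mul _ m1, lintegral_const_mul _ m2]
    gcongr
    · exact hA.2.trans (ENNReal.ofReal_le_ofReal hN.1)
    · exact hA.1.trans (ENNReal.ofReal_le_ofReal hN.2)
  calc ∫⁻ ω, ENNReal.ofReal (‖S3 (fun l => ζ l ω) 1‖ *
      ‖S3 (fun l => ζ l ω) (n - 1)‖ ^ ((1 / 2) : ℝ) *
      ‖S3 (fun l => ζ l ω) n‖ ^ (-(5 / 2) : ℝ)) ∂P'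
      ≤ ∫⁻ ω, FF ((ζ 0 ω, ζ (n - 1) ω), V ω) ∂P' := lintegral_mono hpw
    _ = ∫⁻ p, FF p ∂(P'.map (fun ω => ((ζ 0 ω, ζ (n - 1) ω), V ω))) := by
        rw [lintegral_map measurable_FF (hpm.prodMk hVm)]
    _ = ∫⁻ p, FF p ∂((P'.map (fun ω => (ζ 0 ω, ζ (n - 1) ω))).prod (P'.map V)) := by
        rw [(indepFun_iff_map_prod_eq_prod_map_map hpm.aemeasurable hVm.aemeasurable).1 hind]
    _ = ∫⁻ q, ∫⁻ z, FF (q, z) ∂(P'.map V) ∂(P'.map (fun ω => (ζ 0 ω, ζ (n - 1) ω))) := by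
        have : IsProbabilityMeasure (P'.map V) :=
          Measure.isProbabilityMeasure_map hVm.aemeasurable
        exact lintegral_prod _ measurable_FF.aemeasurable
    _ ≤ ∫⁻ q, (ENNReal.ofReal ‖q.1‖ * ENNReal.ofReal 4 +
        ENNReal.ofReal ‖q.1‖ * ENNReal.ofReal (‖q.2‖ ^ ((1 / 2) : ℝ)) * ENNReal.ofReal 12)
          ∂(P'.map (fun ω => (ζ 0 ω, ζ (n - 1) ω))) := by
        rw [hVl]
        exact lintegral_mono hin
    _ = ∫⁻ ω, (ENNReal.ofReal ‖ζ 0 ω‖ * ENNReal.ofReal 4 +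
        ENNReal.ofReal ‖ζ 0 ω‖ * ENNReal.ofReal (‖ζ (n - 1) ω‖ ^ ((1 / 2) : ℝ)) *
          ENNReal.ofReal 12) ∂P' := by
        rw [lintegral_map _ hpm]
        have h1 : Measurable (fun q : E3 × E3 => ‖q.1‖) := by fun_prop
        have h2 : Measurable (fun q : E3 × E3 => ‖q.2‖) := by fun_prop
        exact (h1.ennreal_ofReal.mul_const _).add
          ((h1.ennreal_ofReal.mul (h2.pow_const _).ennreal_ofReal).mul_const _)
    _ = (∫⁻ ω, ENNReal.ofReal ‖ζ 0 ω‖ ∂P') * ENNReal.ofReal 4 +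
        (∫⁻ ω, ENNReal.ofReal ‖ζ 0 ω‖ ∂P') *
          (∫⁻ ω, ENNReal.ofReal (‖ζ (n - 1) ω‖ ^ ((1 / 2) : ℝ)) ∂P') * ENNReal.ofReal 12 := by
        have h1 : Measurable (fun ω => ENNReal.ofReal ‖ζ 0 ω‖) :=
          (hζ.meas 0).norm.ennreal_ofReal
        have h2 : Measurable (fun ω => ENNReal.ofReal (‖ζ (n - 1) ω‖ ^ ((1 / 2) : ℝ))) :=
          ((hζ.meas _).norm.pow_const _).ennreal_ofReal
        have h3 : IndepFun (fun ω => ENNReal.ofReal ‖ζ 0 ω‖)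
            (fun ω => ENNReal.ofReal (‖ζ (n - 1) ω‖ ^ ((1 / 2) : ℝ))) P' := by
          have h := hind2.comp (φ := fun z : E3 => ENNReal.ofReal ‖z‖)
            (ψ := fun z : E3 => ENNReal.ofReal (‖z‖ ^ ((1 / 2) : ℝ)))
            measurable_norm.ennreal_ofReal (measurable_norm.pow_const _).ennreal_ofReal
          exact h
        have h4 : Measurable (fun ω => ENNReal.ofReal ‖ζ 0 ω‖ *
            ENNReal.ofReal (‖ζ (n - 1) ω‖ ^ ((1 / 2) : ℝ))) := h1.mul h2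
        rw [lintegral_add_left (h1.mul_const _), lintegral_mul_const _ h1,
          lintegral_mul_const _ h4]
        congr 2
        exact lintegral_mul_eq_lintegral_mul_lintegral_of_indepFun h1 h2 h3
    _ ≤ ENNReal.ofReal (2 * (n : ℝ) ^ (-(1 / 2) : ℝ)) * ENNReal.ofReal 4 +
        ENNReal.ofReal (2 * (n : ℝ) ^ (-(1 / 2) : ℝ)) * ENNReal.ofReal 2 *
          ENNReal.ofReal 12 := by
        gcongr
        · exact hm1 0
        · exact hm1 0
        · exact hm2 _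
    _ ≤ ENNReal.ofReal (100 * (n : ℝ) ^ (-(1 / 2) : ℝ)) := by
        have h0 : 0 ≤ (n : ℝ) ^ (-(1 / 2) : ℝ) := Real.rpow_nonneg hn0.le _
        rw [← ENNReal.ofReal_mul (by positivity), ← ENNReal.ofReal_mul (by positivity),
          ← ENNReal.ofReal_mul (by positivity), ← ENNReal.ofReal_add (by positivity)
            (by positivity)]
        apply ENNReal.ofReal_le_ofReal
        linarith

end Pool.Agent.R132.CM
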