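import Mathlib
import Pool.Agent.R132.CM.Defs

set_option autoImplicit false

open MeasureTheory ProbabilityTheory Filter Topology Set unitInterval
open scoped ENNReal NNReal
open Pool.Agent.R967.FB

namespace Pool.Agent.R132.CM

namespace Diag0

theorem meas_S {Ω : Type} [MeasurableSpace Ω] {ξ : ℕ → Ω → ℝ} (h : ∀ i, Measurable (ξ i))
    (i : ℕ) : Measurable (fun ω => S (fun l => ξ l ω) i) := by
  unfold S
  exact Finset.measurable_fun_sum _ (fun l _ => h l)

theorem meas_G {Ω : Type} [MeasurableSpace Ω] {ξ : ℕ → Ω → ℝ} (h : ∀ i, Measurable (ξ i))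
    (n m : ℕ) : Measurable (fun ω => G n m (fun l => ξ l ω)) := by
  classical
  have hS := meas_S h
  unfold G
  apply Measurable.ite
  · have : {ω | ∀ i, 1 ≤ i → i ≤ m → 0 < S (fun l => ξ l ω) i} =
        ⋂ i, ⋂ (_ : 1 ≤ i), ⋂ (_ : i ≤ m), {ω | 0 < S (fun l => ξ l ω) i} := by
      ext ω
      simp
    rw [this]
    exact MeasurableSet.iInter fun i => MeasurableSet.iInter fun _ => MeasurableSet.iInter fun _ =>
      measurableSet_lt measurable_const (hS i)
  · apply Measurable.mul
    · exact ((measurable_const.mul (hS 1)).mul (hS m))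
    · apply Finset.measurable_fun_prod
      intro i _
      exact measurable_const.sub
        (Real.measurable_exp.comp ((measurable_const.mul (hS i)).mul (hS (i + 1))).neg)
  · exact measurable_const

theorem G_le (n m : ℕ) (hm : 1 ≤ m) (x : ℕ → ℝ) :
    G n m x ≤ n * S x 1 ^ 2 + n * S x m ^ 2 := by
  unfold G
  split_ifs with hc
  · have h1 := hc 1 le_rfl hm
    have h2 := hc m hm le_rfl
    have hp : ∏ i ∈ Finset.Ico 1 m, (1 - Real.exp (-(2 * n * S x i * S x (i + 1)))) ≤ 1 := by
      apply Finset.prod_le_one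
      · intro i hi
        have hi' := Finset.mem_Ico.mp hi
        have h3 := hc i hi'.1 (by omega)
        have h4 := hc (i + 1) (by omega) (by omega)
        have h5 : Real.exp (-(2 * n * S x i * S x (i + 1))) ≤ 1 := by
          apply Real.exp_le_one_iff.mpr
          have : 0 ≤ 2 * (n : ℝ) * S x i * S x (i + 1) := by positivity
          linarith
        linarith
      · intro i hi
        have := Real.exp_pos (-(2 * n * S x i * S x (i + 1)))
        linarith
    have hn : (0 : ℝ) ≤ n := Nat.cast_nonneg n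
    calc 2 * n * S x 1 * S x m *
          ∏ i ∈ Finset.Ico 1 m, (1 - Real.exp (-(2 * n * S x i * S x (i + 1))))
        ≤ 2 * n * S x 1 * S x m * 1 := by
          apply mul_le_mul_of_nonneg_left hp
          positivity
      _ ≤ n * S x 1 ^ 2 + n * S x m ^ 2 := by nlinarith [sq_nonneg (S x 1 - S x m)]
  · positivity

end Diag0

open Diag0 in
/-- CM-DIAG0 -/
theorem l_diag0 : StGRID → StONE → StMOM → StDIAG 0 := by
  intro _ hone hmom n hn Ω _ P _ ξ hξ
  have hn1 : 1 ≤ n := by omega
  have hn0 : (0 : ℝ) < n := by exact_mod_cast hn1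
  have hn4 : (4 : ℝ) ≤ n := by exact_mod_cast hn
  have hS := meas_S hξ.meas
  have hG := meas_G hξ.meas n n
  have hbound : ∀ ω, ENNReal.ofReal (g 0 n (fun l => ξ l ω)) ^ 2 ≤
      ENNReal.ofReal (n * S (fun l => ξ l ω) 1 ^ 2) * ENNReal.ofReal (G n n (fun l => ξ l ω)) +
      ENNReal.ofReal (n * S (fun l => ξ l ω) n ^ 2) * ENNReal.ofReal (G n n (fun l => ξ l ω)) := by
    intro ω
    have h1 : g 0 n (fun l => ξ l ω) = G n n (fun l => ξ l ω) := by
      simp [g, rho]
    rw [h1, sq, ← add_mul, ← ENNReal.ofReal_add (by positivity) (by positivity)]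
    gcongr
    exact G_le n n hn1 _
  refine (lintegral_mono hbound).trans ?_
  have hm1 : Measurable (fun ω => ENNReal.ofReal (n * S (fun l => ξ l ω) 1 ^ 2) *
      ENNReal.ofReal (G n n (fun l => ξ l ω))) :=
    (measurable_const.mul ((hS 1).pow_const 2)).ennreal_ofReal.mul hG.ennreal_ofReal
  rw [lintegral_add_left hm1]
  have hf : Measurable (fun y : ℝ => ENNReal.ofReal (n * y ^ 2)) :=
    (measurable_const.mul (measurable_id.pow_const 2)).ennreal_ofReal
  have e1 := hone n n 1 hn1 le_rfl hn1 Ω P ξ hξ (fun y : ℝ => ENNReal.ofReal (n * y ^ 2)) hf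
  have e2 := hone n n n hn1 hn1 le_rfl Ω P ξ hξ (fun y : ℝ => ENNReal.ofReal (n * y ^ 2)) hf
  rw [e1, e2]
  have hmm : ∀ t : ℝ, 0 < t → ∫⁻ z, ENNReal.ofReal (n * ‖z‖ ^ 2) ∂(gam3 t) =
      ENNReal.ofReal (n * (3 * t)) := by
    intro t ht
    have h2 := (hmom t ht).2.1
    have h3 : ∀ z : E3, ENNReal.ofReal (n * ‖z‖ ^ 2) =
        ENNReal.ofReal n * ENNReal.ofReal (‖z‖ ^ 2) := fun z =>
      ENNReal.ofReal_mul hn0.le
    simp_rw [h3]
    rw [lintegral_const_mul _ (by fun_prop), h2, ← ENNReal.ofReal_mul hn0.le]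
  rw [hmm _ (by positivity), hmm _ (by positivity),
    ← ENNReal.ofReal_add (by positivity) (by positivity)]
  apply ENNReal.ofReal_le_ofReal
  have h5 : (n : ℝ) * (3 * ((1 : ℕ) / n)) = 3 := by
    push_cast
    field_simp
  have h6 : (n : ℝ) * (3 * ((n : ℝ) / n)) = 3 * n := by
    field_simp
  rw [h5, h6]
  linarith

end Pool.Agent.R132.CM
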