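import Pool.Agent.R132.CM.Defs

/-!
# CM-DIAG1: second moment of the density of one window of the co-meander
-/

set_option autoImplicit false

open MeasureTheory ProbabilityTheory Filter Topology Set
open scoped ENNReal NNReal

namespace Pool.Agent.R132.CM

namespace LDiag1

theorem one_sub_exp_le (t : ℝ) (ht : 0 ≤ t) : 1 - Real.exp (-t) ≤ t ^ ((1 / 2) : ℝ) := by
  rw [← Real.sqrt_eq_rpow]
  have h1 := Real.add_one_le_exp (-t)
  have h2 := Real.exp_pos (-t)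
  rcases le_total t 1 with h | h
  · have : t ≤ Real.sqrt t := by
      apply Real.le_sqrt_of_sq_le
      nlinarith
    linarith
  · have : 1 ≤ Real.sqrt t := by
      rw [Real.one_le_sqrt]
      exact h
    linarith

theorem G_le (n : ℕ) (hn : 2 ≤ n) (x : ℕ → ℝ) (hpos : ∀ i, 1 ≤ i → i ≤ n → 0 < S x i) :
    0 ≤ G n n x ∧
    G n n x ≤ 2 * n * S x 1 * S x n * (2 * n * S x (n - 1) * S x n) ^ ((1 / 2) : ℝ) := by
  obtain ⟨k, rfl⟩ : ∃ k, n = k + 1 := ⟨n - 1, by omega⟩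
  have hk : 1 ≤ k := by omega
  unfold G
  rw [if_pos hpos, Finset.prod_Ico_succ_top hk]
  have hfac : ∀ i ∈ Finset.Ico 1 k,
      0 ≤ 1 - Real.exp (-(2 * ((k + 1 : ℕ) : ℝ) * S x i * S x (i + 1))) ∧
      1 - Real.exp (-(2 * ((k + 1 : ℕ) : ℝ) * S x i * S x (i + 1))) ≤ 1 := by
    intro i hi
    rw [Finset.mem_Ico] at hi
    have h1 := hpos i (by omega) (by omega)
    have h2 := hpos (i + 1) (by omega) (by omega)
    constructor
    · have : Real.exp (-(2 * ((k + 1 : ℕ) : ℝ) * S x i * S x (i + 1))) ≤ 1 := by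
        rw [Real.exp_le_one_iff]
        have : 0 ≤ 2 * ((k + 1 : ℕ) : ℝ) * S x i * S x (i + 1) := by positivity
        linarith
      linarith
    · have := Real.exp_pos (-(2 * ((k + 1 : ℕ) : ℝ) * S x i * S x (i + 1)))
      linarith
  have hp0 : 0 ≤ ∏ i ∈ Finset.Ico 1 k,
      (1 - Real.exp (-(2 * ((k + 1 : ℕ) : ℝ) * S x i * S x (i + 1)))) :=
    Finset.prod_nonneg fun i hi => (hfac i hi).1
  have hp1 : ∏ i ∈ Finset.Ico 1 k,
      (1 - Real.exp (-(2 * ((k + 1 : ℕ) : ℝ) * S x i * S x (i + 1)))) ≤ 1 :=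
    Finset.prod_le_one (fun i hi => (hfac i hi).1) fun i hi => (hfac i hi).2
  have ha := hpos 1 le_rfl (by omega)
  have hb := hpos k hk (by omega)
  have hc := hpos (k + 1) (by omega) le_rfl
  have ht : 0 ≤ 2 * ((k + 1 : ℕ) : ℝ) * S x k * S x (k + 1) := by positivity
  have hl := one_sub_exp_le _ ht
  have hl0 : 0 ≤ 1 - Real.exp (-(2 * ((k + 1 : ℕ) : ℝ) * S x k * S x (k + 1))) := by
    have : Real.exp (-(2 * ((k + 1 : ℕ) : ℝ) * S x k * S x (k + 1))) ≤ 1 := by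
      rw [Real.exp_le_one_iff]
      linarith
    linarith
  have hA : 0 ≤ 2 * ((k + 1 : ℕ) : ℝ) * S x 1 * S x (k + 1) := by positivity
  refine ⟨mul_nonneg hA (mul_nonneg hp0 hl0), ?_⟩
  refine mul_le_mul_of_nonneg_left ?_ hA
  rw [Nat.add_sub_cancel]
  calc (∏ i ∈ Finset.Ico 1 k,
      (1 - Real.exp (-(2 * ((k + 1 : ℕ) : ℝ) * S x i * S x (i + 1))))) *
      (1 - Real.exp (-(2 * ((k + 1 : ℕ) : ℝ) * S x k * S x (k + 1))))
      ≤ 1 * (1 - Real.exp (-(2 * ((k + 1 : ℕ) : ℝ) * S x k * S x (k + 1)))) :=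
        mul_le_mul_of_nonneg_right hp1 hl0
    _ ≤ (2 * ((k + 1 : ℕ) : ℝ) * S x k * S x (k + 1)) ^ ((1 / 2) : ℝ) := by
        rw [one_mul]; exact hl

theorem alg (m a b c : ℝ) (hm : 0 < m) (_ha : 0 < a) (hb : 0 < b) (hc : 0 < c) :
    m * a * c * (m * b * c) ^ ((1 / 2) : ℝ) / c ^ 4 =
      m ^ ((3 / 2) : ℝ) * (a * b ^ ((1 / 2) : ℝ) * c ^ (-(5 / 2) : ℝ)) := by
  have h1 : c ^ (-(5 / 2) : ℝ) = c ^ ((1 / 2) : ℝ) / c ^ 3 := by
    rw [show (-(5 / 2) : ℝ) = 1 / 2 - ((3 : ℕ) : ℝ) by norm_num, Real.rpow_sub hc,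
      Real.rpow_natCast]
  have h2 : m ^ ((3 / 2) : ℝ) = m * m ^ ((1 / 2) : ℝ) := by
    rw [show ((3 / 2) : ℝ) = 1 + 1 / 2 by norm_num, Real.rpow_add hm, Real.rpow_one]
  have h3 : (m * b * c) ^ ((1 / 2) : ℝ) =
      m ^ ((1 / 2) : ℝ) * b ^ ((1 / 2) : ℝ) * c ^ ((1 / 2) : ℝ) := by
    rw [Real.mul_rpow (by positivity) hc.le, Real.mul_rpow hm.le hb.le]
  rw [h1, h2, h3]
  field_simp

theorem pt (n : ℕ) (hn : 2 ≤ n) (x : ℕ → ℝ) :
    ENNReal.ofReal (g 1 n x) ^ 2 ≤ ENNReal.ofReal ((2 * (n : ℝ)) ^ ((3 / 2) : ℝ)) *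
      (ENNReal.ofReal (S x 1 * S x (n - 1) ^ ((1 / 2) : ℝ) * S x n ^ (-(5 / 2) : ℝ)) *
        ENNReal.ofReal (G n n x)) := by
  by_cases hpos : ∀ i, 1 ≤ i → i ≤ n → 0 < S x i
  · obtain ⟨hG0, hG⟩ := G_le n hn x hpos
    have ha := hpos 1 le_rfl (by omega)
    have hb := hpos (n - 1) (by omega) (by omega)
    have hc := hpos n (by omega) le_rfl
    have hn0 : 0 < (n : ℝ) := by
      have : 0 < n := by omega
      exact_mod_cast this
    have hg0 : 0 ≤ g 1 n x := by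
      unfold g rho
      positivity
    rw [← ENNReal.ofReal_pow hg0, ← ENNReal.ofReal_mul (by positivity),
      ← ENNReal.ofReal_mul (by positivity)]
    apply ENNReal.ofReal_le_ofReal
    have h1 : g 1 n x ^ 2 = G n n x * (G n n x / S x n ^ 4) := by
      unfold g rho
      field_simp
      try ring
    have h2 : G n n x / S x n ^ 4 ≤ (2 * (n : ℝ)) ^ ((3 / 2) : ℝ) *
        (S x 1 * S x (n - 1) ^ ((1 / 2) : ℝ) * S x n ^ (-(5 / 2) : ℝ)) := by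
      rw [← alg (2 * (n : ℝ)) (S x 1) (S x (n - 1)) (S x n) (by positivity) ha hb hc]
      exact div_le_div_of_nonneg_right hG (by positivity)
    rw [h1, ← mul_assoc, mul_comm]
    exact mul_le_mul_of_nonneg_right h2 hG0
  · have h0 : g 1 n x = 0 := by
      unfold g G
      rw [if_neg hpos, zero_mul]
    rw [h0]
    simp

end LDiag1

open LDiag1 in
theorem l_diag1 : StGRID → StSUM3 → StD1 → StDIAG 1 := by
  intro hgrid hsum hd1 n hn Ω _ P _ ξ hξ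
  obtain ⟨P', ζ, hP', hζ⟩ := hsum.1 (1 / (n : ℝ))
  have hn0 : 0 < (n : ℝ) := by
    have : 0 < n := by omega
    exact_mod_cast this
  let Φ : (Fin n → ℝ) → ℝ≥0∞ := fun y =>
    ENNReal.ofReal (y ⟨0, by omega⟩ * y ⟨n - 2, by omega⟩ ^ ((1 / 2) : ℝ) *
      y ⟨n - 1, by omega⟩ ^ (-(5 / 2) : ℝ))
  have hΦ : Measurable Φ := by
    apply Measurable.ennreal_ofReal
    have hm : ∀ i : Fin n, Measurable (fun y : Fin n → ℝ => y i) := fun i => measurable_pi_apply i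
    exact ((hm _).mul ((hm _).pow_const _)).mul ((hm _).pow_const _)
  have h1 := hgrid n n (by omega) (by omega) Ω (ℕ → E3) P P' ξ ζ hξ hζ Φ hΦ
  have h2 := hd1 n hn (ℕ → E3) P' ζ hζ
  have e1 : n - 2 + 1 = n - 1 := by omega
  have e2 : n - 1 + 1 = n := by omega
  simp only [Φ, zero_add, e1, e2] at h1
  calc ∫⁻ ω, ENNReal.ofReal (g 1 n (fun l => ξ l ω)) ^ 2 ∂P
      ≤ ∫⁻ ω, ENNReal.ofReal ((2 * (n : ℝ)) ^ ((3 / 2) : ℝ)) *
        (ENNReal.ofReal (S (fun l => ξ l ω) 1 * S (fun l => ξ l ω) (n - 1) ^ ((1 / 2) : ℝ) *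
          S (fun l => ξ l ω) n ^ (-(5 / 2) : ℝ)) *
        ENNReal.ofReal (G n n (fun l => ξ l ω))) ∂P :=
        lintegral_mono fun ω => pt n (by omega) _
    _ = ENNReal.ofReal ((2 * (n : ℝ)) ^ ((3 / 2) : ℝ)) *
        ∫⁻ ω, (ENNReal.ofReal (S (fun l => ξ l ω) 1 * S (fun l => ξ l ω) (n - 1) ^ ((1 / 2) : ℝ) *
          S (fun l => ξ l ω) n ^ (-(5 / 2) : ℝ)) *
        ENNReal.ofReal (G n n (fun l => ξ l ω))) ∂P :=
        lintegral_const_mul' _ _ ENNReal.ofReal_ne_top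
    _ ≤ ENNReal.ofReal ((2 * (n : ℝ)) ^ ((3 / 2) : ℝ)) *
        ENNReal.ofReal (100 * (n : ℝ) ^ (-(1 / 2) : ℝ)) := by
        rw [← h1]
        exact mul_le_mul_right h2 _
    _ ≤ ENNReal.ofReal (500 * n) := by
        rw [← ENNReal.ofReal_mul (by positivity)]
        apply ENNReal.ofReal_le_ofReal
        have h3 : (2 * (n : ℝ)) ^ ((3 / 2) : ℝ) = 2 ^ ((3 / 2) : ℝ) * (n : ℝ) ^ ((3 / 2) : ℝ) :=
          Real.mul_rpow (by norm_num) hn0.le
        have h4 : (n : ℝ) ^ ((3 / 2) : ℝ) * (n : ℝ) ^ (-(1 / 2) : ℝ) = n := by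
          rw [← Real.rpow_add hn0]
          norm_num
        have h5 : (2 : ℝ) ^ ((3 / 2) : ℝ) ≤ 4 := by
          calc (2 : ℝ) ^ ((3 / 2) : ℝ) ≤ 2 ^ ((2 : ℕ) : ℝ) :=
                Real.rpow_le_rpow_of_exponent_le (by norm_num) (by norm_num)
            _ = 4 := by rw [Real.rpow_natCast]; norm_num
        calc (2 * (n : ℝ)) ^ ((3 / 2) : ℝ) * (100 * (n : ℝ) ^ (-(1 / 2) : ℝ))
            = 100 * 2 ^ ((3 / 2) : ℝ) * ((n : ℝ) ^ ((3 / 2) : ℝ) * (n : ℝ) ^ (-(1 / 2) : ℝ)) := by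
              rw [h3]; ring
          _ = 100 * 2 ^ ((3 / 2) : ℝ) * n := by rw [h4]
          _ ≤ 500 * n := by nlinarith

end Pool.Agent.R132.CM
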