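import Pool.Agent.R132.CM.Defs

/-!
The law of the norms of the three dimensional walk on the grid (part of MP_0f8574_pr).
-/

set_option autoImplicit false

open MeasureTheory ProbabilityTheory Filter Topology Set unitInterval
open scoped ENNReal NNReal
open Pool.Agent.R967.FB

namespace Pool.Agent.R132.CM

namespace GRID

/-- the kernel -/
noncomputable def K (t r s : ℝ) : ℝ := if r = 0 then k0 t s else kk t r s

theorem measurable_K (t : ℝ) : Measurable (fun p : ℝ × ℝ => K t p.1 p.2) := by
  unfold K k0 kk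
  refine Measurable.ite (measurableSet_eq_fun measurable_fst measurable_const) ?_ ?_
  · refine Measurable.ite (measurableSet_lt measurable_const measurable_snd) ?_ measurable_const
    fun_prop
  · refine Measurable.ite (measurableSet_lt measurable_const measurable_snd) ?_ measurable_const
    fun_prop

theorem indep_lint {Ω E : Type} [MeasurableSpace Ω] [MeasurableSpace E] (P : Measure Ω)
    [IsProbabilityMeasure P] (e0 : E) (X : ℕ → Ω → E) (hm : ∀ i, Measurable (X i))
    (hi : iIndepFun X P) (m : ℕ) (H : (ℕ → E) × E → ℝ≥0∞) (hH : Measurable H)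
    (hdep : ∀ x x' z, (∀ i < m, x i = x' i) → H (x, z) = H (x', z)) :
    ∫⁻ ω, H (fun i => X i ω, X m ω) ∂P =
      ∫⁻ ω, ∫⁻ z, H (fun i => X i ω, z) ∂(P.map (X m)) ∂P := by
  classical
  set τ : (Finset.range m → E) → (ℕ → E) :=
    fun v i => if h : i ∈ Finset.range m then v ⟨i, h⟩ else e0 with hτ
  have hτm : Measurable τ := by
    refine measurable_pi_lambda _ fun i => ?_
    by_cases h : i ∈ Finset.range m
    · simp only [hτ, h, dif_pos]
      exact measurable_pi_apply _
    · simp only [hτ, h, dif_neg, not_false_iff]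
      exact measurable_const
  have hdis : Disjoint (Finset.range m) {m} := by simp
  have h1 := hi.indepFun_finset (Finset.range m) {m} hdis hm
  set T : Ω → (ℕ → E) := fun ω => τ (fun i => X i ω) with hT
  have hTm : Measurable T := hτm.comp (measurable_pi_lambda _ fun i => hm i)
  have h2 : IndepFun T (X m) P :=
    h1.comp hτm (measurable_pi_apply (⟨m, Finset.mem_singleton_self m⟩ : ({m} : Finset ℕ)))
  have h3 : P.map (fun ω => (T ω, X m ω)) = (P.map T).prod (P.map (X m)) :=
    (indepFun_iff_map_prod_eq_prod_map_map hTm.aemeasurable (hm m).aemeasurable).1 h2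
  have hTX : ∀ ω, ∀ i < m, T ω i = X i ω := by
    intro ω i h
    simp only [hT, hτ]
    rw [dif_pos (Finset.mem_range.2 h)]
  have hp : IsProbabilityMeasure (P.map (X m)) := Measure.isProbabilityMeasure_map (hm m).aemeasurable
  calc ∫⁻ ω, H (fun i => X i ω, X m ω) ∂P = ∫⁻ ω, H (T ω, X m ω) ∂P :=
        lintegral_congr fun ω => hdep _ _ _ (fun i hi => (hTX ω i hi).symm)
    _ = ∫⁻ p, H p ∂(P.map (fun ω => (T ω, X m ω))) := (lintegral_map hH (hTm.prodMk (hm m))).symm
    _ = ∫⁻ p, H p ∂((P.map T).prod (P.map (X m))) := by rw [h3]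
    _ = ∫⁻ a, ∫⁻ z, H (a, z) ∂(P.map (X m)) ∂(P.map T) := lintegral_prod _ hH.aemeasurable
    _ = ∫⁻ ω, ∫⁻ z, H (T ω, z) ∂(P.map (X m)) ∂P := lintegral_map (hH.lintegral_prod_right') hTm
    _ = _ := lintegral_congr fun ω => lintegral_congr fun z => hdep _ _ _ (hTX ω)

/-- the density, as an extended nonnegative number -/
noncomputable def GE (t : ℝ) (m : ℕ) (x : ℕ → ℝ) : ℝ≥0∞ :=
  ∏ i ∈ Finset.range m, ENNReal.ofReal (K t (S x i) (S x (i + 1)))

theorem measurable_S (i : ℕ) : Measurable (fun x : ℕ → ℝ => S x i) := by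
  unfold S
  exact Finset.measurable_sum _ fun l _ => measurable_pi_apply l

theorem measurable_S3 (i : ℕ) : Measurable (fun x : ℕ → E3 => S3 x i) := by
  unfold S3
  exact Finset.measurable_sum _ fun l _ => measurable_pi_apply l

theorem measurable_GE (t : ℝ) (m : ℕ) : Measurable (GE t m) := by
  unfold GE
  refine Finset.measurable_prod _ fun i _ => ?_
  exact ((measurable_K t).comp ((measurable_S i).prodMk (measurable_S (i + 1)))).ennreal_ofReal

theorem S_congr {x x' : ℕ → ℝ} {m : ℕ} (h : ∀ i < m, x i = x' i) {i : ℕ} (hi : i ≤ m) :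
    S x i = S x' i := by
  unfold S
  exact Finset.sum_congr rfl fun l hl => h l (by rw [Finset.mem_range] at hl; omega)

theorem S3_congr {x x' : ℕ → E3} {m : ℕ} (h : ∀ i < m, x i = x' i) {i : ℕ} (hi : i ≤ m) :
    S3 x i = S3 x' i := by
  unfold S3
  exact Finset.sum_congr rfl fun l hl => h l (by rw [Finset.mem_range] at hl; omega)

theorem GE_congr {t : ℝ} {x x' : ℕ → ℝ} {m : ℕ} (h : ∀ i < m, x i = x' i) :
    GE t m x = GE t m x' := by
  unfold GE
  refine Finset.prod_congr rfl fun i hi => ?_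
  rw [Finset.mem_range] at hi
  rw [S_congr h hi.le, S_congr h (show i + 1 ≤ m by omega)]

/-- the grid formula, with the density `GE` -/
theorem main (hK : StKER) (t : ℝ) (ht : 0 < t) (Ω Ω' : Type) [MeasurableSpace Ω]
    [MeasurableSpace Ω'] (P : Measure Ω) (P' : Measure Ω') [IsProbabilityMeasure P]
    [IsProbabilityMeasure P'] (ξ : ℕ → Ω → ℝ) (ζ : ℕ → Ω' → E3) (hξ : IIDG P t ξ)
    (hζ : IID3 P' t ζ) (m : ℕ) : ∀ Φ : (ℕ → ℝ) → ℝ≥0∞, Measurable Φ →
    (∀ y y' : ℕ → ℝ, (∀ i ≤ m, y i = y' i) → Φ y = Φ y') →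
    ∫⁻ ω, Φ (fun i => ‖S3 (fun l => ζ l ω) i‖) ∂P' =
      ∫⁻ ω, Φ (fun i => S (fun l => ξ l ω) i) * GE t m (fun l => ξ l ω) ∂P := by
  induction m with
  | zero =>
    intro Φ _ hd
    have e1 : ∀ ω, Φ (fun i => ‖S3 (fun l => ζ l ω) i‖) = Φ (fun _ => 0) := by
      intro ω
      apply hd
      intro i hi
      have : i = 0 := by omega
      subst this
      simp [S3]
    have e2 : ∀ ω, Φ (fun i => S (fun l => ξ l ω) i) * GE t 0 (fun l => ξ l ω) =
        Φ (fun _ => 0) := by
      intro ω
      have : Φ (fun i => S (fun l => ξ l ω) i) = Φ (fun _ => 0) := by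
        apply hd
        intro i hi
        have : i = 0 := by omega
        subst this
        simp [S]
      rw [this]
      simp [GE]
    simp_rw [e1, e2]
    simp
  | succ m ih =>
    intro Φ hΦ hd
    -- `Φ` with the last coordinate separated
    set Φ2 : (ℕ → ℝ) × ℝ → ℝ≥0∞ := fun p => Φ (Function.update p.1 (m + 1) p.2) with hΦ2
    have hupd : Measurable (fun p : (ℕ → ℝ) × ℝ => Function.update p.1 (m + 1) p.2) := by
      refine measurable_pi_lambda _ fun i => ?_
      by_cases h : i = m + 1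
      · subst h
        simp only [Function.update_self]
        exact measurable_snd
      · simp only [Function.update_of_ne h]
        exact (measurable_pi_apply i).comp measurable_fst
    have hΦ2m : Measurable Φ2 := hΦ.comp hupd
    have hΦ2d : ∀ y y' : ℕ → ℝ, (∀ i ≤ m, y i = y' i) → ∀ s, Φ2 (y, s) = Φ2 (y', s) := by
      intro y y' h s
      apply hd
      intro i hi
      by_cases h' : i = m + 1
      · subst h'
        simp
      · simp only [Function.update_of_ne h']
        exact h i (by omega)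
    have hΦ2e : ∀ y : ℕ → ℝ, Φ y = Φ2 (y, y (m + 1)) := by
      intro y
      simp only [hΦ2, Function.update_eq_self]
    set Ψ : (ℕ → ℝ) → ℝ≥0∞ := fun y =>
      ∫⁻ x, Φ2 (y, y m + x) * ENNReal.ofReal (K t (y m) (y m + x)) ∂(gam1 t) with hΨ
    have hinner : Measurable (fun p : (ℕ → ℝ) × ℝ =>
        Φ2 (p.1, p.1 m + p.2) * ENNReal.ofReal (K t (p.1 m) (p.1 m + p.2))) := by
      have hm1 : Measurable (fun p : (ℕ → ℝ) × ℝ => p.1 m) :=
        (measurable_pi_apply m).comp measurable_fst
      have hm2 : Measurable (fun p : (ℕ → ℝ) × ℝ => p.1 m + p.2) := hm1.add measurable_snd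
      exact (hΦ2m.comp (measurable_fst.prodMk hm2)).mul
        ((measurable_K t).comp (hm1.prodMk hm2)).ennreal_ofReal
    have hgp : IsProbabilityMeasure (gam1 t) := by unfold gam1; infer_instance
    have hΨm : Measurable Ψ := hinner.lintegral_prod_right'
    have hΨd : ∀ y y' : ℕ → ℝ, (∀ i ≤ m, y i = y' i) → Ψ y = Ψ y' := by
      intro y y' h
      simp only [hΨ]
      refine lintegral_congr fun x => ?_
      rw [h m le_rfl, hΦ2d y y' h]
    have hIH := ih Ψ hΨm hΨd
    -- left side
    have hS3s : ∀ x : ℕ → E3, S3 x (m + 1) = S3 x m + x m := fun x => Finset.sum_range_succ _ _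
    have hSs : ∀ x : ℕ → ℝ, S x (m + 1) = S x m + x m := fun x => Finset.sum_range_succ _ _
    have hL : ∫⁻ ω, Φ (fun i => ‖S3 (fun l => ζ l ω) i‖) ∂P' =
        ∫⁻ ω, Ψ (fun i => ‖S3 (fun l => ζ l ω) i‖) ∂P' := by
      have h1 := indep_lint P' (0 : E3) ζ hζ.meas hζ.ind m
        (fun p => Φ2 (fun i => ‖S3 p.1 i‖, ‖S3 p.1 m + p.2‖))
        (by
          refine hΦ2m.comp (Measurable.prodMk ?_ ?_)
          · exact measurable_pi_lambda _ fun i => ((measurable_S3 i).comp measurable_fst).norm
          · exact (((measurable_S3 m).comp measurable_fst).add measurable_snd).norm)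
        (by
          intro x x' z h
          show Φ2 (fun i => ‖S3 x i‖, ‖S3 x m + z‖) = Φ2 (fun i => ‖S3 x' i‖, ‖S3 x' m + z‖)
          rw [S3_congr h le_rfl]
          apply hΦ2d
          intro i hi
          rw [S3_congr h hi])
      have h2 : ∀ ω, Φ (fun i => ‖S3 (fun l => ζ l ω) i‖) =
          Φ2 (fun i => ‖S3 (fun l => ζ l ω) i‖, ‖S3 (fun l => ζ l ω) m + ζ m ω‖) := by
        intro ω
        rw [hΦ2e, hS3s]
      simp_rw [h2]
      rw [h1]
      refine lintegral_congr fun ω => ?_
      rw [hζ.law m]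
      have hf : Measurable fun s : ℝ => Φ2 (fun i => ‖S3 (fun l => ζ l ω) i‖, s) :=
        hΦ2m.comp (measurable_const.prodMk measurable_id)
      exact hK (S3 (fun l => ζ l ω) m) t ht _ hf
    rw [hL, hIH]
    -- right side
    have h1 := indep_lint P (0 : ℝ) ξ hξ.meas hξ.ind m
      (fun p => Φ2 (fun i => S p.1 i, S p.1 m + p.2) *
        ENNReal.ofReal (K t (S p.1 m) (S p.1 m + p.2)) * GE t m p.1)
      (by
        have hm1 : Measurable (fun p : (ℕ → ℝ) × ℝ => S p.1 m) :=
          (measurable_S m).comp measurable_fst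
        have hm2 : Measurable (fun p : (ℕ → ℝ) × ℝ => S p.1 m + p.2) := hm1.add measurable_snd
        refine Measurable.mul (Measurable.mul (hΦ2m.comp (Measurable.prodMk ?_ hm2)) ?_) ?_
        · exact measurable_pi_lambda _ fun i => (measurable_S i).comp measurable_fst
        · exact ((measurable_K t).comp (hm1.prodMk hm2)).ennreal_ofReal
        · exact (measurable_GE t m).comp measurable_fst)
      (by
        intro x x' z h
        show Φ2 (fun i => S x i, S x m + z) * ENNReal.ofReal (K t (S x m) (S x m + z)) * GE t m x =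
          Φ2 (fun i => S x' i, S x' m + z) * ENNReal.ofReal (K t (S x' m) (S x' m + z)) *
            GE t m x'
        rw [S_congr h le_rfl, GE_congr h]
        congr 2
        apply hΦ2d
        intro i hi
        rw [S_congr h hi])
    have h2 : ∀ ω, Φ (fun i => S (fun l => ξ l ω) i) * GE t (m + 1) (fun l => ξ l ω) =
        Φ2 (fun i => S (fun l => ξ l ω) i, S (fun l => ξ l ω) m + ξ m ω) *
          ENNReal.ofReal (K t (S (fun l => ξ l ω) m) (S (fun l => ξ l ω) m + ξ m ω)) *
            GE t m (fun l => ξ l ω) := by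
      intro ω
      rw [hΦ2e, hSs]
      unfold GE
      rw [Finset.prod_range_succ, hSs]
      ring
    simp_rw [h2]
    rw [h1]
    refine lintegral_congr fun ω => ?_
    rw [hξ.law m]
    have hq : Measurable fun z : ℝ =>
        Φ2 (fun i => S (fun l => ξ l ω) i, S (fun l => ξ l ω) m + z) *
          ENNReal.ofReal (K t (S (fun l => ξ l ω) m) (S (fun l => ξ l ω) m + z)) :=
      hinner.comp ((measurable_const (a := fun i => S (fun l => ξ l ω) i)).prodMk measurable_id)
    exact (lintegral_mul_const _ hq).symm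

theorem G_nonneg (n m : ℕ) (x : ℕ → ℝ) (hm : 1 ≤ m) : 0 ≤ G n m x := by
  classical
  unfold G
  split_ifs with h
  · have h1 := h 1 le_rfl hm
    have h2 := h m hm le_rfl
    refine mul_nonneg (by positivity) (Finset.prod_nonneg fun i hi => ?_)
    rw [Finset.mem_Ico] at hi
    have h3 := h i hi.1 hi.2.le
    have h4 := h (i + 1) (by omega) hi.2
    have h5 : Real.exp (-(2 * n * S x i * S x (i + 1))) ≤ 1 := by
      apply Real.exp_le_one_iff.2
      have : 0 ≤ 2 * n * S x i * S x (i + 1) := by positivity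
      linarith
    linarith
  · exact le_rfl

theorem G_succ (n m : ℕ) (x : ℕ → ℝ) (hn : 1 ≤ n) (hm : 1 ≤ m) :
    G n (m + 1) x = G n m x * K (1 / (n : ℝ)) (S x m) (S x (m + 1)) := by
  classical
  have hn0 : (0 : ℝ) < n := by exact_mod_cast hn
  by_cases h : ∀ i, 1 ≤ i → i ≤ m → 0 < S x i
  · have hSm := h m hm le_rfl
    have hK : K (1 / (n : ℝ)) (S x m) (S x (m + 1)) = kk (1 / (n : ℝ)) (S x m) (S x (m + 1)) := by
      unfold K
      rw [if_neg hSm.ne']
    rw [hK]
    by_cases h' : 0 < S x (m + 1)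
    · have hc : ∀ i, 1 ≤ i → i ≤ m + 1 → 0 < S x i := by
        intro i hi1 hi2
        rcases Nat.lt_or_ge i (m + 1) with h3 | h3
        · exact h i hi1 (by omega)
        · have : i = m + 1 := by omega
          rw [this]
          exact h'
      unfold G kk
      rw [if_pos hc, if_pos h, if_pos h', Finset.prod_Ico_succ_top hm]
      have e : -(2 * S x m * S x (m + 1)) / (1 / (n : ℝ)) = -(2 * n * S x m * S x (m + 1)) := by
        field_simp
      have e2 : -(2 * (S x m * S x (m + 1))) / (1 / (n : ℝ)) = -(2 * n * S x m * S x (m + 1)) := by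
        field_simp
      rw [e]
      field_simp
    · have hc : ¬ ∀ i, 1 ≤ i → i ≤ m + 1 → 0 < S x i := fun hc => h' (hc (m + 1) (by omega) le_rfl)
      unfold G kk
      rw [if_neg hc, if_neg h', mul_zero]
  · have hc : ¬ ∀ i, 1 ≤ i → i ≤ m + 1 → 0 < S x i := fun hc =>
      h fun i hi1 hi2 => hc i hi1 (by omega)
    unfold G
    rw [if_neg hc, if_neg h, zero_mul]

theorem G_one (n : ℕ) (x : ℕ → ℝ) : G n 1 x = K (1 / (n : ℝ)) (S x 0) (S x 1) := by
  classical
  have h0 : S x 0 = 0 := by simp [S]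
  unfold G K k0
  rw [if_pos h0]
  by_cases h : 0 < S x 1
  · have hc : ∀ i, 1 ≤ i → i ≤ 1 → 0 < S x i := by
      intro i h1 h2
      have : i = 1 := by omega
      rw [this]
      exact h
    rw [if_pos hc, if_pos h]
    simp
    ring
  · have hc : ¬ ∀ i, 1 ≤ i → i ≤ 1 → 0 < S x i := fun hc => h (hc 1 le_rfl le_rfl)
    rw [if_neg hc, if_neg h]

theorem G_eq (n m : ℕ) (x : ℕ → ℝ) (hn : 1 ≤ n) (hm : 1 ≤ m) :
    ENNReal.ofReal (G n m x) = GE (1 / (n : ℝ)) m x := by
  induction m, hm using Nat.le_induction with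
  | base =>
    rw [G_one]
    simp [GE]
  | succ m hm ih =>
    rw [G_succ n m x hn hm, ENNReal.ofReal_mul (G_nonneg n m x hm), ih]
    unfold GE
    rw [Finset.prod_range_succ]

end GRID

theorem l_grid : StKER → StGRID := by
  intro hK n m hn hm Ω Ω' _ _ P P' _ _ ξ ζ hξ hζ Φ hΦ
  have hn0 : (0 : ℝ) < n := by exact_mod_cast hn
  have h := GRID.main hK (1 / (n : ℝ)) (by positivity) Ω Ω' P P' ξ ζ hξ hζ m
    (fun y => Φ (fun i : Fin m => y ((i : ℕ) + 1)))
    (hΦ.comp (measurable_pi_lambda _ fun i => measurable_pi_apply _))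
    (by
      intro y y' h
      show Φ (fun i : Fin m => y ((i : ℕ) + 1)) = Φ (fun i : Fin m => y' ((i : ℕ) + 1))
      congr 1
      funext i
      exact h _ (by have := i.2; omega))
  rw [h]
  refine lintegral_congr fun ω => ?_
  rw [GRID.G_eq n m _ hn hm]

end Pool.Agent.R132.CM
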