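import Mathlib
import Pool.Agent.R132.CM.Defs

set_option autoImplicit false

open MeasureTheory ProbabilityTheory Filter Topology Set unitInterval
open scoped ENNReal NNReal
open Pool.Agent.R967.FB

namespace Pool.Agent.R132.CM

namespace GRV

lemma rho_nonneg (c : ℕ) (r : ℝ) : 0 ≤ rho c r := by
  unfold rho
  have : 0 ≤ r ^ (2 * c) := by
    rw [pow_mul]
    positivity
  positivity

lemma measurable_rho (c : ℕ) : Measurable (rho c) := by
  unfold rho
  fun_prop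

/-- grid increments of a path in space -/
noncomputable def zt {Ω' : Type} (V : Ω' → C(ℝ≥0, E3)) (n : ℕ) (l : ℕ) (ω : Ω') : E3 :=
  V ω (((l + 1 : ℕ) : ℝ≥0) / (n : ℝ≥0)) - V ω ((l : ℝ≥0) / (n : ℝ≥0))

lemma zt_iid {Ω' : Type} [MeasurableSpace Ω'] {P' : Measure Ω'} {V : Ω' → C(ℝ≥0, E3)}
    (hV : IsBM3 P' V) (n : ℕ) (hn : 1 ≤ n) : IID3 P' (1 / (n : ℝ)) (zt V n) := by
  have hn0 : (0 : ℝ) < n := by exact_mod_cast hn
  refine ⟨fun i => ?_, ?_, fun i => ?_⟩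
  · exact (hV.meas _).sub (hV.meas _)
  · have h := hV.ind.nat (t := fun l : ℕ => (l : ℝ≥0) / (n : ℝ≥0)) (by
      intro a b hab
      show (a : ℝ≥0) / (n : ℝ≥0) ≤ (b : ℝ≥0) / (n : ℝ≥0)
      gcongr)
    exact h
  · have hle : ((i : ℝ≥0) / (n : ℝ≥0)) ≤ (((i + 1 : ℕ) : ℝ≥0) / (n : ℝ≥0)) := by
      gcongr
      simp
    have h := hV.law _ _ hle
    have e : (((((i + 1 : ℕ) : ℝ≥0) / (n : ℝ≥0) : ℝ≥0) : ℝ) -
        ((((i : ℝ≥0) / (n : ℝ≥0) : ℝ≥0)) : ℝ)) = 1 / (n : ℝ) := by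
      push_cast
      field_simp
      ring
    rw [e] at h
    exact h

lemma S3_zt {Ω' : Type} {V : Ω' → C(ℝ≥0, E3)} (h0 : ∀ ω, V ω 0 = 0) (n i : ℕ) (ω : Ω') :
    S3 (fun l => zt V n l ω) i = V ω ((i : ℝ≥0) / (n : ℝ≥0)) := by
  unfold S3 zt
  rw [Finset.sum_range_sub (fun l : ℕ => V ω ((l : ℝ≥0) / (n : ℝ≥0)))]
  simp [h0]

end GRV

open GRV in
theorem l_grv : StGRID → StINC → StMOM → StGRV := by
  intro hG hI hM W hW Ω' _ P' _ V hV c hc
  refine ⟨?_, ?_⟩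
  · rcases Nat.le_one_iff_eq_zero_or_eq_one.1 hc with rfl | rfl
    · simp [rho]
    · have h1 := hV.law 0 1 (by simp)
      have h2 : (fun ω => V ω 1 - V ω 0) = fun ω => V ω 1 := by
        funext ω
        rw [hV.zero, sub_zero]
      rw [h2] at h1
      have e : (((1 : ℝ≥0) : ℝ) - ((0 : ℝ≥0) : ℝ)) = 1 := by simp
      rw [e] at h1
      have h3 := (hM 1 one_pos).1
      rw [← h1, lintegral_map (by fun_prop) (hV.meas 1)] at h3
      simpa [rho] using h3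
  · intro n hn Φ hΦ
    have hWp : IsProbabilityMeasure W := hW.toIsPreBrownianReal.isGaussianProcess.isProbabilityMeasure
    have hn' : n - 1 < n := by omega
    have hmeas : Measurable (fun y : Fin n → ℝ => ENNReal.ofReal (rho c (y ⟨n - 1, hn'⟩)) * Φ y) := by
      refine Measurable.mul ?_ hΦ
      exact ENNReal.measurable_ofReal.comp ((measurable_rho c).comp (measurable_pi_apply _))
    have h := hG n n hn hn _ _ W P' (fun l w => incr n w l) (zt V n) (hI W hW n hn)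
      (zt_iid hV n hn) _ hmeas
    have hnn : (((n - 1 : ℕ) : ℕ) + 1) = n := by omega
    have hn0 : (n : ℝ≥0) ≠ 0 := by
      have : (0 : ℝ≥0) < n := by exact_mod_cast hn
      exact this.ne'
    have hL : (∫⁻ ω, ENNReal.ofReal (rho c ‖V ω 1‖) *
        Φ (fun i => ‖V ω ((((i : ℕ) + 1 : ℕ) : ℝ≥0) / (n : ℝ≥0))‖) ∂P') =
        ∫⁻ ω, (fun y : Fin n → ℝ => ENNReal.ofReal (rho c (y ⟨n - 1, hn'⟩)) * Φ y)
          (fun i => ‖S3 (fun l => zt V n l ω) (i + 1)‖) ∂P' := by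
      refine lintegral_congr fun ω => ?_
      have e1 : ∀ i : ℕ, S3 (fun l => zt V n l ω) i = V ω ((i : ℝ≥0) / (n : ℝ≥0)) :=
        fun i => S3_zt hV.zero n i ω
      simp only [e1, hnn, div_self hn0]
    rw [hL, h]
    refine lintegral_congr fun w => ?_
    simp only [hnn]
    unfold g
    rw [ENNReal.ofReal_mul' (rho_nonneg _ _)]
    ring

end Pool.Agent.R132.CM
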