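import Pool.Agent.R132.CM.Defs

/-! CM-INC (by helper734): under the Wiener measure the grid increments are i.i.d. -/

set_option autoImplicit false

open MeasureTheory ProbabilityTheory Filter Topology Set unitInterval
open scoped ENNReal NNReal
open Pool.Agent.R967.FB

namespace Pool.Agent.R132.CM

theorem l_inc : StINC := by
  intro W hW n hn
  have hpre := hW.toIsPreBrownianReal
  have hn0 : (0 : ℝ) < n := by exact_mod_cast hn
  refine ⟨?_, ?_, ?_⟩
  · intro l
    exact (measurable_eval _).sub (measurable_eval _)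
  · have hmono : Monotone (fun l : ℕ => ((l : ℝ≥0) / (n : ℝ≥0))) := by
      intro a b hab
      have h1 : (a : ℝ≥0) ≤ b := by exact_mod_cast hab
      exact div_le_div_of_nonneg_right h1 zero_le
    exact hpre.hasIndepIncrements.nat hmono
  · intro l
    have h := hpre.hasLaw_sub (((l + 1 : ℕ) : ℝ≥0) / (n : ℝ≥0)) ((l : ℝ≥0) / (n : ℝ≥0))
    have h2 := h.map_eq
    have hd : nndist (((l + 1 : ℕ) : ℝ≥0) / (n : ℝ≥0)) ((l : ℝ≥0) / (n : ℝ≥0)) =
        (1 / (n : ℝ)).toNNReal := by
      apply NNReal.eq
      rw [coe_nndist, NNReal.dist_eq, Real.coe_toNNReal _ (by positivity)]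
      push_cast
      rw [show ((l : ℝ) + 1) / n - l / n = 1 / n by ring]
      exact abs_of_nonneg (by positivity)
    unfold gam1
    rw [← hd]
    exact h2

end Pool.Agent.R132.CM
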