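import Pool.Agent.R132.CM.Defs

set_option autoImplicit false

open MeasureTheory ProbabilityTheory Filter Topology Set unitInterval
open scoped ENNReal NNReal
open Pool.Agent.R967.FB

namespace Pool.Agent.R132.CM

theorem l_ker : StROT → StPOL → StCHG → StKER := by
  intro h1 h2 h3 v t ht f hf
  rw [h1 v t ht f hf, ← h3 t ‖v‖ ht (norm_nonneg v) f hf]
  refine lintegral_congr fun a => ?_
  exact h2 (fun s => f (Real.sqrt ((‖v‖ + Real.sqrt t * a) ^ 2 + t * s))) (by fun_prop)

end Pool.Agent.R132.CM
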