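import Pool.Agent.R132.CM.Defs

/-!
# Piece LEV of the project on MP_0f8574_pr
-/

set_option autoImplicit false

open MeasureTheory ProbabilityTheory Filter Topology Set unitInterval
open scoped ENNReal NNReal
open Pool.Agent.R967.FB

namespace Pool.Agent.R132.CM

/-- the mixture -/
noncomputable def levMix (W : Measure C(ℝ≥0, ℝ)) {N : ℕ} (t : Fin N → ℝ≥0)
    (p : Fin N → C(ℝ≥0, ℝ) → ℝ≥0∞) : Measure (C(ℝ≥0, ℝ) × ℝ≥0) :=
  (W.withDensity (fun w => 1 - ∑ i, p i w)).map (fun w => (w, 0)) +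
    ∑ i, (W.withDensity (p i)).map (fun w => (w, t i))

theorem lintegral_levMix (W : Measure C(ℝ≥0, ℝ)) {N : ℕ} (t : Fin N → ℝ≥0)
    (p : Fin N → C(ℝ≥0, ℝ) → ℝ≥0∞) (hp : ∀ i, Measurable (p i))
    (Φ : C(ℝ≥0, ℝ) × ℝ≥0 → ℝ≥0∞) (hΦ : ∀ s, Measurable (fun w => Φ (w, s))) :
    ∫⁻ x, Φ x ∂(levMix W t p) = ∫⁻ w, (1 - ∑ i, p i w) * Φ (w, 0) ∂W +
      ∑ i, ∫⁻ w, p i w * Φ (w, t i) ∂W := by
  have hq : Measurable (fun w => 1 - ∑ i, p i w) :=
    measurable_const.sub (Finset.measurable_sum _ (fun i _ => hp i))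
  have hemb : ∀ s : ℝ≥0, MeasurableEmbedding (fun w : C(ℝ≥0, ℝ) => (w, s)) := fun s =>
    MeasurableEmbedding.prodMk_right MeasurableEmbedding.id s
  rw [levMix, lintegral_add_measure, lintegral_finsetSum_measure]
  congr 1
  · rw [(hemb 0).lintegral_map, lintegral_withDensity_eq_lintegral_mul _ hq (hΦ 0)]
    rfl
  · apply Finset.sum_congr rfl
    intro i _
    rw [(hemb (t i)).lintegral_map, lintegral_withDensity_eq_lintegral_mul _ (hp i) (hΦ (t i))]
    rfl

theorem l_lev : StW8 → StLEV := by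
  intro h8 W hW c n hc hn ε hε
  have hWp : IsProbabilityMeasure W := hW.isGaussianProcess.isProbabilityMeasure
  obtain ⟨N, t, p, hp, hsum, hexp, hF⟩ := h8 W hW c n hc hn ε hε
  have hfst : (levMix W t p).map Prod.fst = W := by
    ext A hA
    rw [Measure.map_apply measurable_fst hA,
      ← lintegral_indicator_one (measurable_fst hA), ← lintegral_indicator_one hA]
    have hind : ∀ (w : C(ℝ≥0, ℝ)) (s : ℝ≥0),
        (Prod.fst ⁻¹' A : Set (C(ℝ≥0, ℝ) × ℝ≥0)).indicator
          (1 : C(ℝ≥0, ℝ) × ℝ≥0 → ℝ≥0∞) (w, s) = A.indicator 1 w := by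
      intro w s
      rfl
    have hA1 : Measurable (A.indicator (1 : C(ℝ≥0, ℝ) → ℝ≥0∞)) := measurable_one.indicator hA
    rw [lintegral_levMix W t p hp _ (fun s => by
      simp only [hind]
      exact hA1)]
    simp only [hind]
    have hpm : ∀ i ∈ (Finset.univ : Finset (Fin N)),
        Measurable (fun w => p i w * A.indicator 1 w) := fun i _ => (hp i).mul hA1
    rw [← lintegral_finsetSum _ hpm, ← lintegral_add_right _ (Finset.measurable_sum _ hpm)]
    apply lintegral_congr
    intro w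
    rw [← Finset.sum_mul, ← add_mul, tsub_add_cancel_of_le (hsum w), one_mul]
  refine ⟨levMix W t p, ?_, hfst, ?_, ?_⟩
  · constructor
    have h1 : (levMix W t p).map Prod.fst Set.univ = 1 := by
      rw [hfst]
      exact measure_univ
    rwa [Measure.map_apply measurable_fst MeasurableSet.univ, Set.preimage_univ] at h1
  · rw [lintegral_levMix W t p hp (fun x => (x.2 : ℝ≥0∞))
      (fun s => (measurable_const : Measurable (fun _ : C(ℝ≥0, ℝ) => (s : ℝ≥0∞))))]
    simp only [ENNReal.coe_zero, mul_zero, lintegral_zero, zero_add]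
    refine le_trans (le_of_eq ?_) hexp
    apply Finset.sum_congr rfl
    intro i _
    rw [lintegral_mul_const _ (hp i), mul_comm]
  · intro F hFm hF1
    refine (hF F hFm hF1).trans ?_
    gcongr
    rw [lintegral_levMix W t p hp (fun x => F (gw n x.1 x.2)) (fun s => by
      apply hFm.comp
      refine measurable_pi_lambda _ (fun i => ?_)
      show Measurable (fun w : C(ℝ≥0, ℝ) =>
        w (s + (((i : ℕ) + 1 : ℕ) : ℝ≥0) / (n : ℝ≥0)) - w s)
      exact Measurable.sub (measurable_eval _) (measurable_eval _))]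
    exact le_add_self

end Pool.Agent.R132.CM
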