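import Pool.Agent.R132.CM.Defs

/-! Compactness limit: the law of a window along all dyadic grids. -/

set_option autoImplicit false

open MeasureTheory ProbabilityTheory Filter Topology Set unitInterval
open scoped ENNReal NNReal
open Pool.Agent.R967.FB

namespace Pool.Agent.R132.CM

/-- the index of a point of the coarse grid in the fine grid -/
def limIdx (k n : ℕ) (h : k ≤ n) (i : Fin (2 ^ k)) : Fin (2 ^ n) :=
  ⟨((i : ℕ) + 1) * 2 ^ (n - k) - 1, by
    have h1 : ((i : ℕ) + 1) * 2 ^ (n - k) ≤ 2 ^ k * 2 ^ (n - k) :=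
      Nat.mul_le_mul_right _ i.2
    rw [← pow_add, Nat.add_sub_cancel' h] at h1
    have h2 : 0 < ((i : ℕ) + 1) * 2 ^ (n - k) := by positivity
    omega⟩

lemma limIdx_div (k n : ℕ) (h : k ≤ n) (i : Fin (2 ^ k)) :
    ((((limIdx k n h i : Fin (2 ^ n)) : ℕ) + 1 : ℕ) : ℝ≥0) / ((2 ^ n : ℕ) : ℝ≥0) =
      (((i : ℕ) + 1 : ℕ) : ℝ≥0) / ((2 ^ k : ℕ) : ℝ≥0) := by
  have h2 : 0 < ((i : ℕ) + 1) * 2 ^ (n - k) := by positivity
  have h3 : ((limIdx k n h i : Fin (2 ^ n)) : ℕ) + 1 = ((i : ℕ) + 1) * 2 ^ (n - k) := by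
    show ((i : ℕ) + 1) * 2 ^ (n - k) - 1 + 1 = _
    omega
  rw [h3]
  have h4 : (2 ^ n : ℕ) = 2 ^ k * 2 ^ (n - k) := by rw [← pow_add, Nat.add_sub_cancel' h]
  rw [h4]
  push_cast
  field_simp

lemma continuous_gw (n : ℕ) :
    Continuous (fun p : C(ℝ≥0, ℝ) × ℝ≥0 => gw n p.1 p.2) := by
  unfold gw
  fun_prop

lemma measurable_gw (n : ℕ) :
    Measurable (fun p : C(ℝ≥0, ℝ) × ℝ≥0 => gw n p.1 p.2) :=
  (continuous_gw n).measurable

/-- two probability measures that are ordered on continuous functions with values in `[0, 1]`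
are equal -/
lemma eq_of_le_cont {E : Type} [TopologicalSpace E] [MeasurableSpace E] [BorelSpace E]
    [HasOuterApproxClosed E] (μ ν : Measure E) [IsProbabilityMeasure μ] [IsProbabilityMeasure ν]
    (h : ∀ f : E → ℝ≥0, Continuous f → (∀ x, f x ≤ 1) →
      ∫⁻ x, (f x : ℝ≥0∞) ∂μ ≤ ∫⁻ x, (f x : ℝ≥0∞) ∂ν) : μ = ν := by
  have h1 : ∀ f : E → ℝ≥0, Continuous f → (∀ x, f x ≤ 1) →
      ∫⁻ x, (f x : ℝ≥0∞) ∂μ = ∫⁻ x, (f x : ℝ≥0∞) ∂ν := by
    intro f hf hf1
    apply le_antisymm (h f hf hf1)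
    have h2 := h (fun x => 1 - f x) (by fun_prop) (fun x => tsub_le_self)
    have hsum : ∀ (ρ : Measure E) [IsProbabilityMeasure ρ],
        ∫⁻ x, (f x : ℝ≥0∞) ∂ρ + ∫⁻ x, ((1 - f x : ℝ≥0) : ℝ≥0∞) ∂ρ = 1 := by
      intro ρ _
      rw [← lintegral_add_left (by fun_prop)]
      have : (fun x => (f x : ℝ≥0∞) + ((1 - f x : ℝ≥0) : ℝ≥0∞)) = fun _ => 1 := by
        funext x
        rw [← ENNReal.coe_add, add_tsub_cancel_of_le (hf1 x), ENNReal.coe_one]
      rw [this]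
      simp
    have hμ := hsum μ
    have hν := hsum ν
    have hfin : ∫⁻ x, ((1 - f x : ℝ≥0) : ℝ≥0∞) ∂ν ≠ ⊤ := by
      intro h0
      rw [h0] at hν
      simp at hν
    have h3 : ∫⁻ x, (f x : ℝ≥0∞) ∂ν + ∫⁻ x, ((1 - f x : ℝ≥0) : ℝ≥0∞) ∂ν ≤
        ∫⁻ x, (f x : ℝ≥0∞) ∂μ + ∫⁻ x, ((1 - f x : ℝ≥0) : ℝ≥0∞) ∂ν := by
      rw [hν, ← hμ]
      gcongr
    exact (ENNReal.add_le_add_iff_right hfin).1 h3
  apply ext_of_forall_lintegral_eq_of_IsFiniteMeasure
  intro f
  obtain ⟨K, hK⟩ : ∃ K : ℝ≥0, 0 < K ∧ ∀ x, f x ≤ K := by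
    refine ⟨nndist f 0 + 1, by positivity, fun x => ?_⟩
    have := BoundedContinuousFunction.NNReal.upper_bound f x
    exact this.trans le_self_add
  have h2 := h1 (fun x => f x / K) (by fun_prop) (fun x => by
    rw [div_le_one hK.1]
    exact hK.2 x)
  have h3 : ∀ (ρ : Measure E), ∫⁻ x, (f x : ℝ≥0∞) ∂ρ =
      K * ∫⁻ x, ((f x / K : ℝ≥0) : ℝ≥0∞) ∂ρ := by
    intro ρ
    rw [← lintegral_const_mul _ (by fun_prop)]
    apply lintegral_congr
    intro x
    rw [← ENNReal.coe_mul]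
    congr 1
    rw [mul_div_cancel₀ _ hK.1.ne']
  rw [h3 μ, h3 ν, h2]

theorem l_lim : StLEV → StGRV → StCOMP → StLIM := by
  intro hLEV hGRV hCOMP W hW Ω' _ P' _ V hV c hc
  have hWp : IsProbabilityMeasure W := hW.toIsPreBrownianReal.isGaussianProcess.isProbabilityMeasure
  have h4 : ∀ m : ℕ, 4 ≤ 2 ^ (m + 2) := by
    intro m
    calc 4 = 2 ^ 2 := by norm_num
      _ ≤ 2 ^ (m + 2) := Nat.pow_le_pow_right (by norm_num) (by omega)
  choose π hπp hπW hπE hπF using fun m : ℕ =>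
    hLEV W hW c (2 ^ (m + 2)) hc (h4 m) (1 / ((m : ℝ) + 1)) (by positivity)
  obtain ⟨π', U, hp', hU, hW', hE', hT⟩ := hCOMP W 60000 π hπp hπW (fun m => by
    simpa using hπE m)
  obtain ⟨hmass, hgrv⟩ := hGRV W hW Ω' P' V hV c hc
  refine ⟨π', hp', hW', by simpa using hE', fun k => ?_⟩
  set R : Ω' → (Fin (2 ^ k) → ℝ) := fun ω i =>
    ‖V ω ((((i : ℕ) + 1 : ℕ) : ℝ≥0) / ((2 ^ k : ℕ) : ℝ≥0))‖ with hR
  have hRm : Measurable R := by
    refine measurable_pi_lambda _ fun i => ?_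
    exact (hV.meas _).norm
  set d : Ω' → ℝ≥0∞ := fun ω => ENNReal.ofReal (rho c ‖V ω 1‖) with hd
  have hdm : Measurable d := by
    have h1 : Measurable (fun r : ℝ => rho c r) := by
      unfold rho
      fun_prop
    exact ENNReal.measurable_ofReal.comp (h1.comp (hV.meas 1).norm)
  have hgm := measurable_gw (2 ^ k)
  -- the two laws on the grid
  have hν : IsProbabilityMeasure (π'.map (fun p => gw (2 ^ k) p.1 p.2)) :=
    Measure.isProbabilityMeasure_map hgm.aemeasurable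
  have hμ : IsProbabilityMeasure ((P'.withDensity d).map R) := by
    have : IsProbabilityMeasure (P'.withDensity d) := ⟨by
      rw [withDensity_apply _ MeasurableSet.univ, Measure.restrict_univ]
      exact hmass⟩
    exact Measure.isProbabilityMeasure_map hRm.aemeasurable
  have key : (P'.withDensity d).map R = π'.map (fun p => gw (2 ^ k) p.1 p.2) := by
    apply eq_of_le_cont
    intro f hf hf1
    have hfm : Measurable (fun x => (f x : ℝ≥0∞)) := by
      have := hf.measurable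
      fun_prop
    have hfR : Measurable (fun ω => (f (R ω) : ℝ≥0∞)) := hfm.comp hRm
    rw [lintegral_map hfm hRm, lintegral_map hfm hgm,
      lintegral_withDensity_eq_lintegral_mul _ hdm hfR]
    have hlim := hT (fun p => f (gw (2 ^ k) p.1 p.2)) (hf.comp (continuous_gw _))
      (fun p => hf1 _)
    have hlim2 : Tendsto (fun m : ℕ => ENNReal.ofReal (1 / ((m : ℝ) + 1))) U (𝓝 0) := by
      have h1 : Tendsto (fun m : ℕ => ENNReal.ofReal (1 / ((m : ℝ) + 1))) atTop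
          (𝓝 (ENNReal.ofReal 0)) :=
        (ENNReal.continuous_ofReal.tendsto 0).comp tendsto_one_div_add_atTop_nhds_zero_nat
      rw [ENNReal.ofReal_zero] at h1
      exact h1.mono_left hU
    have hlim3 := hlim.add hlim2
    rw [add_zero] at hlim3
    refine ge_of_tendsto hlim3 ?_
    have hev : ∀ᶠ m : ℕ in (U : Filter ℕ), k ≤ m := hU (eventually_ge_atTop k)
    filter_upwards [hev] with m hm
    have hkn : k ≤ m + 2 := by omega
    set F : (Fin (2 ^ (m + 2)) → ℝ) → ℝ≥0∞ := fun y => (f (fun i => y (limIdx k (m + 2) hkn i)) : ℝ≥0∞)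
      with hF
    have hFm : Measurable F := by
      have h1 : Measurable (fun (y : Fin (2 ^ (m + 2)) → ℝ) (i : Fin (2 ^ k)) =>
          y (limIdx k (m + 2) hkn i)) := by fun_prop
      exact hfm.comp h1
    have hF1 : ∀ y, F y ≤ 1 := by
      intro y
      have := hf1 (fun i => y (limIdx k (m + 2) hkn i))
      show (f (fun i => y (limIdx k (m + 2) hkn i)) : ℝ≥0∞) ≤ 1
      exact_mod_cast this
    have h1 := hπF m F hFm hF1
    rw [← hgrv (2 ^ (m + 2)) Nat.one_le_two_pow F hFm] at h1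
    have h2 : ∀ ω, F (fun i => ‖V ω ((((i : ℕ) + 1 : ℕ) : ℝ≥0) / ((2 ^ (m + 2) : ℕ) : ℝ≥0))‖) =
        (f (R ω) : ℝ≥0∞) := by
      intro ω
      simp only [hF, hR]
      congr 2
      funext i
      rw [limIdx_div k (m + 2) hkn i]
    have h3 : ∀ p : C(ℝ≥0, ℝ) × ℝ≥0, F (gw (2 ^ (m + 2)) p.1 p.2) =
        (f (gw (2 ^ k) p.1 p.2) : ℝ≥0∞) := by
      intro p
      simp only [hF]
      congr 2
      funext i
      unfold gw
      rw [limIdx_div k (m + 2) hkn i]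
    simp only [h2, h3] at h1
    exact h1
  intro Φ hΦ
  have h5 : ∫⁻ x, Φ x ∂((P'.withDensity d).map R) =
      ∫⁻ x, Φ x ∂(π'.map (fun p => gw (2 ^ k) p.1 p.2)) := by rw [key]
  have hΦR : Measurable (fun ω => Φ (R ω)) := hΦ.comp hRm
  rw [lintegral_map hΦ hRm, lintegral_map hΦ hgm,
    lintegral_withDensity_eq_lintegral_mul _ hdm hΦR] at h5
  exact h5.symm

end Pool.Agent.R132.CM
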