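import Pool.Agent.R132.CM.Defs

set_option autoImplicit false

open MeasureTheory ProbabilityTheory Filter Topology Set unitInterval
open scoped ENNReal NNReal
open Pool.Agent.R967.FB

namespace Pool.Agent.R132.CM

theorem win_dy (w : C(ℝ≥0, ℝ)) (t : ℝ≥0) (k : ℕ) (i : Fin (2 ^ k)) :
    win w t (dy k i) = gw (2 ^ k) w t i := by
  unfold win gw
  simp only [ContinuousMap.coe_mk]
  congr 3
  apply NNReal.coe_injective
  simp [dy, unitInterval.toNNReal]
  rfl

theorem rad_dy (v : C(ℝ≥0, E3)) (k : ℕ) (i : Fin (2 ^ k)) :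
    rad v (dy k i) = ‖v ((((i : ℕ) + 1 : ℕ) : ℝ≥0) / ((2 ^ k : ℕ) : ℝ≥0))‖ := by
  unfold rad
  simp only [ContinuousMap.coe_mk]
  congr 2
  apply NNReal.coe_injective
  simp [dy, unitInterval.toNNReal]
  rfl

theorem rho_nonneg (c : ℕ) (r : ℝ) : 0 ≤ rho c r := by
  unfold rho
  rw [pow_mul]
  positivity

theorem wiener_map {Ω : Type} [MeasurableSpace Ω] {P : Measure Ω} {B : Ω → C(ℝ≥0, ℝ)}
    (hB : Measurable B) (h : IsBrownianReal (fun t ω => B ω t) P) : IsWiener (P.map B) := by
  refine ⟨⟨fun J => ?_⟩, ?_⟩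
  · have h1 := h.hasLaw J
    have hm : Measurable (fun w : C(ℝ≥0, ℝ) => J.restrict (fun x => w x)) :=
      measurable_pi_lambda _ fun i => measurable_eval _
    refine ⟨hm.aemeasurable, ?_⟩
    rw [Measure.map_map hm hB]
    exact h1.map_eq
  · exact Eventually.of_forall fun w => w.continuous

theorem measurable_win (hM : StMEAS) : Measurable (fun p : C(ℝ≥0, ℝ) × ℝ≥0 => win p.1 p.2) := by
  have hc : ∀ u : I, Continuous (fun p : C(ℝ≥0, ℝ) × ℝ≥0 => win p.1 p.2 u) := by
    intro u
    unfold win
    simp only [ContinuousMap.coe_mk]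
    fun_prop
  have := hM (C(ℝ≥0, ℝ) × ℝ≥0) (fun p => win p.1 p.2)
  exact this fun u => (hc u).measurable

theorem measurable_rad (hM : StMEAS) {Ω' : Type} [MeasurableSpace Ω'] {V : Ω' → C(ℝ≥0, E3)}
    (hV : ∀ t, Measurable (fun ω => V ω t)) : Measurable (fun ω => rad (V ω)) := by
  refine hM _ _ fun u => ?_
  unfold rad
  simp only [ContinuousMap.coe_mk]
  exact (hV _).norm

theorem l_main : StLIM → StEXT → StMEAS → StREP → ∀ c ≤ 1, Main c := by
  intro hLIM hEXT hMEAS hREP c hc Ω Ω' _ _ P P' _ _ B V hB hBM hV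
  have hW := wiener_map hB hBM
  have hWp : IsProbabilityMeasure (P.map B) := Measure.isProbabilityMeasure_map hB.aemeasurable
  obtain ⟨π, hπ1, hπ2, hπ3, hπ4⟩ := hLIM (P.map B) hW Ω' P' V hV c hc
  obtain ⟨τ, hτ, hτπ⟩ := hREP _ (P.map B) π hπ2
  have hT : Measurable (fun p : Ω × I => (B p.1, p.2)) :=
    (hB.comp measurable_fst).prodMk measurable_snd
  have hprod : (P.prod (volume : Measure I)).map (fun p : Ω × I => (B p.1, p.2)) =
      (P.map B).prod (volume : Measure I) := by
    have h := Measure.map_prod_map P (volume : Measure I) hB measurable_id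
    rw [Measure.map_id] at h
    exact h.symm
  have hpair : Measurable (fun q : C(ℝ≥0, ℝ) × I => (q.1, τ q)) := measurable_fst.prodMk hτ
  have key : ∀ f : C(ℝ≥0, ℝ) × ℝ≥0 → ℝ≥0∞, Measurable f →
      ∫⁻ p, f (B p.1, τ (B p.1, p.2)) ∂(P.prod volume) = ∫⁻ p, f p ∂π := by
    intro f hf
    have h1 : ∫⁻ q, (f ∘ fun q : C(ℝ≥0, ℝ) × I => (q.1, τ q)) q ∂((P.map B).prod (volume : Measure I))
        = ∫⁻ p, f (B p.1, τ (B p.1, p.2)) ∂(P.prod volume) := by
      rw [← hprod, lintegral_map (hf.comp hpair) hT]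
      rfl
    rw [← hτπ, lintegral_map hf hpair, ← h1]
    rfl
  refine ⟨fun p => τ (B p.1, p.2), hτ.comp hT, ?_, ?_⟩
  · rw [key (fun p => (p.2 : ℝ≥0∞)) (by fun_prop)]
    exact lt_of_le_of_lt hπ3 (by norm_num)
  · intro F hF
    have hmw := measurable_win hMEAS
    have hmr := measurable_rad hMEAS hV.meas
    have hdm : Measurable (fun ω => ENNReal.ofReal (rho c ‖V ω 1‖)) := by
      have := (hV.meas 1).norm
      unfold rho
      fun_prop
    obtain ⟨Q, hQ⟩ : ∃ Q : Measure Ω', Q = P'.withDensity (fun ω => ENNReal.ofReal (rho c ‖V ω 1‖)) :=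
      ⟨_, rfl⟩
    have hQi : ∀ f : Ω' → ℝ≥0∞, Measurable f →
        ∫⁻ ω, f ω ∂Q = ∫⁻ ω, ENNReal.ofReal (rho c ‖V ω 1‖) * f ω ∂P' := by
      intro f hf
      rw [hQ, lintegral_withDensity_eq_lintegral_mul _ hdm hf]
      rfl
    have hQp : IsProbabilityMeasure Q := by
      constructor
      have h1 := hπ4 0 (fun _ => 1) measurable_const
      simp only [lintegral_const, measure_univ, mul_one] at h1
      have h2 := hQi (fun _ => 1) measurable_const
      simp only [lintegral_const, one_mul, mul_one] at h2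
      rw [h2, ← h1]
    have hμ1 : IsProbabilityMeasure (π.map (fun p => win p.1 p.2)) :=
      Measure.isProbabilityMeasure_map hmw.aemeasurable
    have hμ2 : IsProbabilityMeasure (Q.map (fun ω => rad (V ω))) :=
      Measure.isProbabilityMeasure_map hmr.aemeasurable
    have hz : MeasurableSet {x : C(I, ℝ) | x 0 = 0} := by
      have : Continuous (fun x : C(I, ℝ) => x 0) := by fun_prop
      exact this.measurable (measurableSet_singleton 0)
    have heq : π.map (fun p => win p.1 p.2) = Q.map (fun ω => rad (V ω)) := by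
      refine hEXT _ _ ?_ ?_ ?_
      · rw [ae_map_iff hmw.aemeasurable hz]
        refine Eventually.of_forall fun p => ?_
        have h0 : (unitInterval.toNNReal (0 : I)) = 0 := by
          simp
        show p.1 (p.2 + unitInterval.toNNReal 0) - p.1 p.2 = 0
        rw [h0, add_zero, sub_self]
      · rw [ae_map_iff hmr.aemeasurable hz]
        refine Eventually.of_forall fun ω => ?_
        have : (unitInterval.toNNReal (0 : I)) = 0 := by
          simp
        simp [rad, hV.zero ω]
      · intro k Φ hΦ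
        have hme : Measurable (fun (x : C(I, ℝ)) (i : Fin (2 ^ k)) => x (dy k i)) := by
          refine measurable_pi_lambda _ fun i => ?_
          have : Continuous (fun x : C(I, ℝ) => x (dy k i)) := by fun_prop
          exact this.measurable
        have e1 := lintegral_map (hΦ.comp hme) hmw (μ := π)
        have e2 := lintegral_map (hΦ.comp hme) hmr (μ := Q)
        have e3 := hQi _ ((hΦ.comp hme).comp hmr)
        simp only [Function.comp_def] at e1 e2 e3
        rw [e1, e2, e3]
        have h := hπ4 k Φ hΦ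
        simp only [win_dy, rad_dy]
        exact h
    have e4 := hQi _ (hF.comp hmr)
    simp only [Function.comp_def] at e4
    rw [key (fun p => F (win p.1 p.2)) (hF.comp hmw), ← lintegral_map hF hmw, heq,
      lintegral_map hF hmr, e4]

end Pool.Agent.R132.CM
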