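import Pool.Agent.R132.CM.Defs

/-! # CM-MEAS: measurability into `C(I, ℝ)` (by helper25) -/

set_option autoImplicit false

open MeasureTheory ProbabilityTheory Filter Topology Set unitInterval
open scoped ENNReal NNReal

namespace Pool.Agent.R132.CM

theorem l_meas : StMEAS := by
  intro α _ f hf
  have hemb : MeasurableEmbedding
      (fun (x : C(I, ℝ)) (n : ℕ) => x (TopologicalSpace.denseSeq I n)) := by
    apply Continuous.measurableEmbedding
    · fun_prop
    · intro x y hxy
      apply DFunLike.coe_injective
      refine Continuous.ext_on (TopologicalSpace.denseRange_denseSeq I) x.continuous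
        y.continuous ?_
      rintro _ ⟨n, rfl⟩
      exact congrFun hxy n
  refine hemb.measurable_comp_iff.mp ?_
  exact measurable_pi_lambda _ fun n => hf (TopologicalSpace.denseSeq I n)

end Pool.Agent.R132.CM
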