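import Pool.Agent.R132.CM.LNEG

/-! Centred moments of the three dimensional Gaussian law. -/

set_option autoImplicit false

open MeasureTheory ProbabilityTheory Filter Topology Set
open scoped ENNReal NNReal

namespace Pool.Agent.R132.CM

theorem gam1_pos {t : ℝ} (ht : 0 < t) : (gam1 t) (Ioi 0) = ENNReal.ofReal (1 / 2) := by
  have hP : IsProbabilityMeasure (gam1 t) := by unfold gam1; infer_instance
  have hv : t.toNNReal ≠ 0 := (Real.toNNReal_pos.2 ht).ne'
  have hno : NullSingletonClass (gam1 t) := by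
    unfold gam1; exact nullSingletonClass_gaussianReal hv
  have hmap : (gam1 t).map (fun x => -x) = gam1 t := by
    unfold gam1; rw [gaussianReal_map_neg]; simp
  have h1 : (gam1 t) (Iio 0) = (gam1 t) (Ioi 0) := by
    conv_rhs => rw [← hmap]
    rw [Measure.map_apply measurable_neg measurableSet_Ioi]
    congr 1; ext x; simp
  have h2 : (gam1 t) (Iio 0) + (gam1 t) (Ioi 0) = 1 := by
    have h3 : (gam1 t) (Iic 0) = (gam1 t) (Iio 0) := (measure_congr Iio_ae_eq_Iic).symm
    rw [← h3, ← measure_union (by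
      rw [Set.disjoint_left]; intro x (hx : x ≤ 0); exact not_lt.2 hx) measurableSet_Ioi,
      Iic_union_Ioi, measure_univ]
  rw [h1] at h2
  have h4 : (2:ℝ≥0∞) * (gam1 t) (Ioi 0) = 1 := by rw [two_mul]; exact h2
  have h5 : ENNReal.ofReal (1 / 2) = 2⁻¹ := by
    rw [one_div, ENNReal.ofReal_inv_of_pos two_pos]; simp
  rw [h5]
  rw [← ENNReal.eq_inv_of_mul_eq_one_left (by rw [mul_comm]; exact h4)]

theorem gam1_four {t : ℝ} (ht : 0 < t) :
    ∫⁻ x, ENNReal.ofReal (if 0 < x then x ^ 4 else 0) ∂(gam1 t) =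
      ENNReal.ofReal (3 * t ^ 2 / 2) := by
  have hv : t.toNNReal ≠ 0 := (Real.toNNReal_pos.2 ht).ne'
  have hb : (0:ℝ) < 1 / (2 * t) := by positivity
  have hint := integral_rpow_mul_exp_neg_mul_rpow (p := 2) (q := 4) (b := 1 / (2 * t))
    (by norm_num) (by norm_num) hb
  have hm : Measurable (fun x : ℝ => ENNReal.ofReal (if 0 < x then x ^ 4 else 0)) := by
    apply ENNReal.measurable_ofReal.comp
    exact Measurable.ite (measurableSet_lt measurable_const measurable_id)
      (measurable_id.pow_const _) measurable_const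
  unfold gam1
  rw [gaussianReal_of_var_ne_zero _ hv,
    lintegral_withDensity_eq_lintegral_mul _ (measurable_gaussianPDF _ _) hm]
  have h1 : ∀ x : ℝ, (gaussianPDF 0 t.toNNReal * fun x : ℝ =>
      ENNReal.ofReal (if 0 < x then x ^ 4 else 0)) x =
      (Ioi (0:ℝ)).indicator (fun x => ENNReal.ofReal ((Real.sqrt (2 * Real.pi * t))⁻¹ *
        (x ^ (4:ℝ) * Real.exp (-(1 / (2 * t)) * x ^ (2:ℝ))))) x := by
    intro x
    simp only [Pi.mul_apply]
    by_cases hx : 0 < x
    · rw [if_pos hx, indicator_of_mem (by exact hx), gaussianPDF, gaussianPDFReal,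
        Real.coe_toNNReal _ ht.le, ← ENNReal.ofReal_mul (by positivity)]
      congr 1
      rw [show (4:ℝ) = ((4:ℕ) : ℝ) by norm_num, Real.rpow_natCast,
        show (2:ℝ) = ((2:ℕ) : ℝ) by norm_num, Real.rpow_natCast]
      have e : -(x - 0) ^ 2 / (((2:ℕ):ℝ) * t) = -(1 / (((2:ℕ):ℝ) * t)) * x ^ 2 := by
        rw [sub_zero]; ring
      rw [e]; ring
    · rw [if_neg hx, indicator_of_notMem (by exact hx)]; simp
  rw [lintegral_congr h1, lintegral_indicator measurableSet_Ioi]
  have hi : IntegrableOn (fun x : ℝ => (Real.sqrt (2 * Real.pi * t))⁻¹ *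
      (x ^ (4:ℝ) * Real.exp (-(1 / (2 * t)) * x ^ (2:ℝ)))) (Ioi 0) := by
    apply Integrable.const_mul
    exact integrableOn_rpow_mul_exp_neg_mul_rpow (by norm_num) (by norm_num) hb
  rw [← ofReal_integral_eq_lintegral_ofReal hi ?_]
  · congr 1
    rw [integral_const_mul, hint]
    have hG : Real.Gamma ((4 + 1) / 2) = 3 / 4 * Real.sqrt Real.pi := by
      have e1 : ((4:ℝ) + 1) / 2 = (3 / 2) + 1 := by norm_num
      have e2 : (3:ℝ) / 2 = 1 / 2 + 1 := by norm_num
      rw [e1, Real.Gamma_add_one (by norm_num), e2, Real.Gamma_add_one (by norm_num),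
        Real.Gamma_one_half_eq]
      ring
    rw [hG]
    have e3 : (1 / (2 * t)) ^ (-((4:ℝ) + 1) / 2) = (2 * t) ^ 2 * Real.sqrt (2 * t) := by
      rw [one_div, Real.inv_rpow (by positivity), ← Real.rpow_neg (by positivity)]
      have e4 : -(-((4:ℝ) + 1) / 2) = 2 + 1 / 2 := by norm_num
      rw [e4, Real.rpow_add (by positivity), ← Real.sqrt_eq_rpow]
      norm_num
    rw [e3]
    have e5 : Real.sqrt (2 * Real.pi * t) = Real.sqrt (2 * t) * Real.sqrt Real.pi := by
      rw [← Real.sqrt_mul (by positivity)]; congr 1; ring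
    rw [e5]
    have h6 : 0 < Real.sqrt (2 * t) := Real.sqrt_pos.2 (by positivity)
    have h7 : 0 < Real.sqrt Real.pi := Real.sqrt_pos.2 Real.pi_pos
    field_simp
    ring
  · filter_upwards [ae_restrict_mem measurableSet_Ioi] with x hx
    have : 0 < x := hx
    positivity

theorem l_mom : StKER → StMOM := by
  intro hK t ht
  have hP : IsProbabilityMeasure (gam1 t) := by unfold gam1; infer_instance
  have hP3 : IsProbabilityMeasure (gam3 t) := by
    unfold gam3
    exact Measure.isProbabilityMeasure_map (by fun_prop)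
  have hK0 : ∀ f : ℝ → ℝ≥0∞, Measurable f → ∫⁻ z, f ‖z‖ ∂(gam3 t) =
      ∫⁻ x, f x * ENNReal.ofReal (k0 t x) ∂(gam1 t) := by
    intro f hf
    have := hK 0 t ht f hf
    simpa using this
  have m2 : Measurable (fun y : ℝ => ENNReal.ofReal (1 / y ^ 2)) :=
    ENNReal.measurable_ofReal.comp (measurable_const.div (measurable_id.pow_const _))
  have a1 : ∫⁻ z, ENNReal.ofReal (1 / ‖z‖ ^ 2) ∂(gam3 t) = ENNReal.ofReal (1 / t) := by
    rw [hK0 (fun y => ENNReal.ofReal (1 / y ^ 2)) m2]
    have h1 : ∀ x : ℝ, ENNReal.ofReal (1 / x ^ 2) * ENNReal.ofReal (k0 t x) =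
        (Ioi (0:ℝ)).indicator (fun _ => ENNReal.ofReal (2 / t)) x := by
      intro x
      by_cases hx : 0 < x
      · rw [indicator_of_mem (by exact hx), k0, if_pos hx, ← ENNReal.ofReal_mul (by positivity)]
        congr 1; field_simp
      · rw [indicator_of_notMem (by exact hx), k0, if_neg hx]; simp
    rw [lintegral_congr h1, lintegral_indicator measurableSet_Ioi, lintegral_const,
      Measure.restrict_apply MeasurableSet.univ, univ_inter, gam1_pos ht,
      ← ENNReal.ofReal_mul (by positivity)]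
    congr 1; field_simp
  have a2 : ∫⁻ z, ENNReal.ofReal (‖z‖ ^ 2) ∂(gam3 t) = ENNReal.ofReal (3 * t) := by
    rw [hK0 (fun y => ENNReal.ofReal (y ^ 2))
      (ENNReal.measurable_ofReal.comp (measurable_id.pow_const _))]
    have h1 : ∀ x : ℝ, ENNReal.ofReal (x ^ 2) * ENNReal.ofReal (k0 t x) =
        ENNReal.ofReal (2 / t) * ENNReal.ofReal (if 0 < x then x ^ 4 else 0) := by
      intro x
      by_cases hx : 0 < x
      · rw [if_pos hx, k0, if_pos hx, ← ENNReal.ofReal_mul (by positivity),
          ← ENNReal.ofReal_mul (by positivity)]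
        congr 1; field_simp
      · rw [if_neg hx, k0, if_neg hx]; simp
    rw [lintegral_congr h1, lintegral_const_mul' _ _ ENNReal.ofReal_ne_top, gam1_four ht,
      ← ENNReal.ofReal_mul (by positivity)]
    congr 1; field_simp
  have hs : 0 < Real.sqrt t := Real.sqrt_pos.2 ht
  have hs2 : Real.sqrt t * Real.sqrt t = t := Real.mul_self_sqrt ht.le
  have p1 : t ^ ((1 / 2) : ℝ) = Real.sqrt t := (Real.sqrt_eq_rpow t).symm
  have p2 : t ^ (-(1 / 2) : ℝ) = (Real.sqrt t)⁻¹ := by rw [Real.rpow_neg ht.le, p1]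
  have mn : Measurable (fun z : E3 => ENNReal.ofReal (1 / ‖z‖ ^ 2)) := m2.comp measurable_norm
  have mn2 : Measurable (fun z : E3 => ENNReal.ofReal (‖z‖ ^ 2)) :=
    ENNReal.measurable_ofReal.comp (measurable_norm.pow_const _)
  -- almost every point is nonzero
  refine ⟨a1, a2, ?_, ?_, ?_, ?_⟩
  · calc ∫⁻ z, ENNReal.ofReal (1 / ‖z‖) ∂(gam3 t)
        ≤ ∫⁻ z, (ENNReal.ofReal ((Real.sqrt t)⁻¹ / 2) +
            ENNReal.ofReal (Real.sqrt t / 2) * ENNReal.ofReal (1 / ‖z‖ ^ 2)) ∂(gam3 t) := by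
          apply lintegral_mono
          intro z
          simp only
          rw [← ENNReal.ofReal_mul (by positivity), ← ENNReal.ofReal_add (by positivity)
            (by positivity)]
          apply ENNReal.ofReal_le_ofReal
          by_cases hz : ‖z‖ = 0
          · rw [hz]; simp only [div_zero, ne_eq, OfNat.ofNat_ne_zero, not_false_eq_true, zero_pow,
              mul_zero, add_zero]; positivity
          · have hz' : 0 < ‖z‖ := lt_of_le_of_ne (norm_nonneg _) (Ne.symm hz)
            have h := sq_nonneg ((Real.sqrt t) / ‖z‖ - 1)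
            have e : (Real.sqrt t)⁻¹ / 2 + Real.sqrt t / 2 * (1 / ‖z‖ ^ 2) - 1 / ‖z‖ =
                (Real.sqrt t)⁻¹ / 2 * ((Real.sqrt t) / ‖z‖ - 1) ^ 2 := by
              field_simp; ring
            have h2 : 0 ≤ (Real.sqrt t)⁻¹ / 2 * ((Real.sqrt t) / ‖z‖ - 1) ^ 2 := by positivity
            linarith
      _ = ENNReal.ofReal (t ^ (-(1 / 2) : ℝ)) := by
          rw [lintegral_add_left measurable_const, lintegral_const, measure_univ, mul_one,
            lintegral_const_mul _ mn, a1, ← ENNReal.ofReal_mul (by positivity),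
            ← ENNReal.ofReal_add (by positivity) (by positivity), p2]
          congr 1
          field_simp
          nlinarith
  · calc ∫⁻ z, ENNReal.ofReal ‖z‖ ∂(gam3 t)
        ≤ ∫⁻ z, (ENNReal.ofReal (Real.sqrt t / 2) +
            ENNReal.ofReal ((Real.sqrt t)⁻¹ / 2) * ENNReal.ofReal (‖z‖ ^ 2)) ∂(gam3 t) := by
          apply lintegral_mono
          intro z
          simp only
          rw [← ENNReal.ofReal_mul (by positivity), ← ENNReal.ofReal_add (by positivity)
            (by positivity)]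
          apply ENNReal.ofReal_le_ofReal
          have e : Real.sqrt t / 2 + (Real.sqrt t)⁻¹ / 2 * ‖z‖ ^ 2 - ‖z‖ =
              (Real.sqrt t)⁻¹ / 2 * (‖z‖ - Real.sqrt t) ^ 2 := by
            field_simp; ring
          have h2 : 0 ≤ (Real.sqrt t)⁻¹ / 2 * (‖z‖ - Real.sqrt t) ^ 2 := by positivity
          linarith
      _ = ENNReal.ofReal (2 * t ^ ((1 / 2) : ℝ)) := by
          rw [lintegral_add_left measurable_const, lintegral_const, measure_univ, mul_one,
            lintegral_const_mul _ mn2, a2, ← ENNReal.ofReal_mul (by positivity),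
            ← ENNReal.ofReal_add (by positivity) (by positivity), p1]
          congr 1
          field_simp
          nlinarith
  · have q1 : t ^ (-(3 / 4) : ℝ) = t ^ ((1 / 4) : ℝ) * (1 / t) := by
      rw [one_div t, ← Real.rpow_neg_one t, ← Real.rpow_add ht]; norm_num
    calc ∫⁻ z, ENNReal.ofReal (‖z‖ ^ (-(3 / 2) : ℝ)) ∂(gam3 t)
        ≤ ∫⁻ z, (ENNReal.ofReal (t ^ (-(3 / 4) : ℝ)) +
            ENNReal.ofReal (t ^ ((1 / 4) : ℝ)) * ENNReal.ofReal (1 / ‖z‖ ^ 2)) ∂(gam3 t) := by
          apply lintegral_mono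
          intro z
          simp only
          rw [← ENNReal.ofReal_mul (by positivity), ← ENNReal.ofReal_add (by positivity)
            (by positivity)]
          apply ENNReal.ofReal_le_ofReal
          by_cases hz : ‖z‖ = 0
          · rw [hz, Real.zero_rpow (by norm_num)]; positivity
          · have hz' : 0 < ‖z‖ := lt_of_le_of_ne (norm_nonneg _) (Ne.symm hz)
            rcases le_total (Real.sqrt t) ‖z‖ with h | h
            · have h3 : ‖z‖ ^ (-(3 / 2) : ℝ) ≤ (Real.sqrt t) ^ (-(3 / 2) : ℝ) :=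
                Real.rpow_le_rpow_of_nonpos hs h (by norm_num)
              have h4 : (Real.sqrt t) ^ (-(3 / 2) : ℝ) = t ^ (-(3 / 4) : ℝ) := by
                rw [Real.sqrt_eq_rpow, ← Real.rpow_mul ht.le]; norm_num
              rw [h4] at h3
              have : 0 ≤ t ^ ((1 / 4) : ℝ) * (1 / ‖z‖ ^ 2) := by positivity
              linarith
            · have h3 : ‖z‖ ^ ((1 / 2) : ℝ) ≤ (Real.sqrt t) ^ ((1 / 2) : ℝ) :=
                Real.rpow_le_rpow hz'.le h (by norm_num)
              have h4 : (Real.sqrt t) ^ ((1 / 2) : ℝ) = t ^ ((1 / 4) : ℝ) := by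
                rw [Real.sqrt_eq_rpow, ← Real.rpow_mul ht.le]; norm_num
              have h5 : ‖z‖ ^ (-(3 / 2) : ℝ) = ‖z‖ ^ ((1 / 2) : ℝ) * (1 / ‖z‖ ^ 2) := by
                rw [one_div (‖z‖ ^ 2), ← Real.rpow_natCast ‖z‖ 2, ← Real.rpow_neg hz'.le,
                  ← Real.rpow_add hz']; norm_num
              rw [h5, ← h4]
              have h6 : ‖z‖ ^ ((1 / 2) : ℝ) * (1 / ‖z‖ ^ 2) ≤
                  (Real.sqrt t) ^ ((1 / 2) : ℝ) * (1 / ‖z‖ ^ 2) :=
                mul_le_mul_of_nonneg_right h3 (by positivity)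
              have h7 : 0 ≤ t ^ (-(3 / 4) : ℝ) := by positivity
              linarith
      _ ≤ ENNReal.ofReal (4 * t ^ (-(3 / 4) : ℝ)) := by
          rw [lintegral_add_left measurable_const, lintegral_const, measure_univ, mul_one,
            lintegral_const_mul _ mn, a1, ← ENNReal.ofReal_mul (by positivity),
            ← ENNReal.ofReal_add (by positivity) (by positivity)]
          apply ENNReal.ofReal_le_ofReal
          rw [← q1]
          have h7 : 0 ≤ t ^ (-(3 / 4) : ℝ) := by positivity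
          linarith
  · rw [hK0 (fun y => ENNReal.ofReal (y ^ (-(5 / 2) : ℝ)))
      (ENNReal.measurable_ofReal.comp (measurable_id.pow_const _))]
    have hb := half_bound ht 0 hs
    simp only [zero_add] at hb
    calc _ ≤ ∫⁻ x, ENNReal.ofReal (2 / t) *
          ENNReal.ofReal (if 0 < x then x ^ (-(1 / 2) : ℝ) else 0) ∂(gam1 t) := by
          apply lintegral_mono
          intro x
          have := five_half ht le_rfl x
          simpa using this
      _ = ENNReal.ofReal (2 / t) * ∫⁻ x,
          ENNReal.ofReal (if 0 < x then x ^ (-(1 / 2) : ℝ) else 0) ∂(gam1 t) := by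
          rw [lintegral_const_mul' _ _ ENNReal.ofReal_ne_top]
      _ ≤ ENNReal.ofReal (2 / t) * ENNReal.ofReal ((Real.sqrt (2 * Real.pi * t))⁻¹ *
            (2 * (Real.sqrt t) ^ ((1 / 2) : ℝ)) + (Real.sqrt t) ^ (-(1 / 2) : ℝ)) :=
          mul_le_mul_right hb _
      _ ≤ _ := by
          rw [← ENNReal.ofReal_mul (by positivity)]
          apply ENNReal.ofReal_le_ofReal
          have h2 := sqrt_two_pi ht
          have q1 : (Real.sqrt t) ^ (-(1 / 2) : ℝ) = t ^ (-(1 / 4) : ℝ) := by
            rw [Real.sqrt_eq_rpow, ← Real.rpow_mul ht.le]; norm_num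
          have q2 : (Real.sqrt t) ^ ((1 / 2) : ℝ) = t ^ ((1 / 4) : ℝ) := by
            rw [Real.sqrt_eq_rpow, ← Real.rpow_mul ht.le]; norm_num
          have q3 : t ^ (-(1 / 2) : ℝ) * t ^ ((1 / 4) : ℝ) = t ^ (-(1 / 4) : ℝ) := by
            rw [← Real.rpow_add ht]; norm_num
          have q4 : t ^ (-(5 / 4) : ℝ) = t ^ (-(1 / 4) : ℝ) * (1 / t) := by
            rw [one_div t, ← Real.rpow_neg_one t, ← Real.rpow_add ht]; norm_num
          rw [q1, q2, q4]
          have h3 : (Real.sqrt (2 * Real.pi * t))⁻¹ * (2 * t ^ ((1 / 4) : ℝ)) ≤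
              t ^ (-(1 / 4) : ℝ) := by
            rw [← q3]
            calc _ = ((Real.sqrt (2 * Real.pi * t))⁻¹ * 2) * t ^ ((1 / 4) : ℝ) := by ring
              _ ≤ _ := mul_le_mul_of_nonneg_right h2 (by positivity)
          calc 2 / t * ((Real.sqrt (2 * Real.pi * t))⁻¹ * (2 * t ^ ((1 / 4) : ℝ)) +
                t ^ (-(1 / 4) : ℝ)) ≤ 2 / t * (t ^ (-(1 / 4) : ℝ) + t ^ (-(1 / 4) : ℝ)) :=
                mul_le_mul_of_nonneg_left (by linarith) (by positivity)
            _ = _ := by ring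

end Pool.Agent.R132.CM
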