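import Pool.Agent.R132.CM.Defs

/-! Negative moments of the three dimensional Gaussian law around any centre. -/

set_option autoImplicit false

open MeasureTheory ProbabilityTheory Filter Topology Set
open scoped ENNReal NNReal

namespace Pool.Agent.R132.CM

theorem K_le {t r s : ℝ} (ht : 0 < t) (hr : 0 ≤ r) :
    (if r = 0 then k0 t s else kk t r s) ≤ if 0 < s then 2 * s ^ 2 / t else 0 := by
  by_cases h1 : r = 0
  · simp only [h1, if_true, k0]; exact le_rfl
  · simp only [h1, if_false, kk]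
    by_cases h2 : 0 < s
    · simp only [h2, if_true]
      have hr' : 0 < r := lt_of_le_of_ne hr (Ne.symm h1)
      have h3 : 1 - Real.exp (-(2 * r * s) / t) ≤ 2 * r * s / t := by
        have h4 := Real.add_one_le_exp (-(2 * r * s) / t)
        have e : -(2 * r * s) / t = -(2 * r * s / t) := by ring
        rw [e] at h4 ⊢
        linarith
      calc s / r * (1 - Real.exp (-(2 * r * s) / t)) ≤ s / r * (2 * r * s / t) :=
            mul_le_mul_of_nonneg_left h3 (by positivity)
        _ = 2 * s ^ 2 / t := by field_simp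
    · simp only [h2, if_false]; exact le_rfl

theorem gam_lint {t : ℝ} (ht : 0 < t) (h : ℝ → ℝ≥0∞) (hh : Measurable h) (r : ℝ) :
    ∫⁻ x, h (r + x) ∂(gam1 t) ≤
      ENNReal.ofReal ((Real.sqrt (2 * Real.pi * t))⁻¹) * ∫⁻ s, h s := by
  unfold gam1
  have hv : t.toNNReal ≠ 0 := by
    have := Real.toNNReal_pos.2 ht
    exact this.ne'
  rw [gaussianReal_of_var_ne_zero _ hv]
  rw [lintegral_withDensity_eq_lintegral_mul _ (measurable_gaussianPDF _ _)
    (show Measurable (fun x => h (r + x)) from hh.comp (measurable_const_add r))]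
  calc _ ≤ ∫⁻ x, ENNReal.ofReal ((Real.sqrt (2 * Real.pi * t))⁻¹) * h (r + x) := by
        apply lintegral_mono; intro x
        simp only [Pi.mul_apply]
        refine mul_le_mul_left ?_ _
        rw [gaussianPDF]
        apply ENNReal.ofReal_le_ofReal
        rw [gaussianPDFReal, Real.coe_toNNReal _ ht.le]
        have h1 : Real.exp (-(x - 0) ^ 2 / (2 * t)) ≤ 1 := by
          apply Real.exp_le_one_iff.2
          have : (0:ℝ) ≤ (x - 0) ^ 2 / (2 * t) := by positivity
          have e : -(x - 0) ^ 2 / (2 * t) = -((x - 0) ^ 2 / (2 * t)) := by ring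
          rw [e]; linarith
        calc (Real.sqrt (2 * Real.pi * t))⁻¹ * Real.exp (-(x - 0) ^ 2 / (2 * t))
            ≤ (Real.sqrt (2 * Real.pi * t))⁻¹ * 1 :=
              mul_le_mul_of_nonneg_left h1 (by positivity)
          _ = _ := mul_one _
    _ = _ := by
        rw [lintegral_const_mul _
          (show Measurable (fun x => h (r + x)) from hh.comp (measurable_const_add r))]
        congr 1
        exact lintegral_add_left_eq_self (fun x => h x) r

theorem int_half {L : ℝ} (hL : 0 < L) :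
    ∫⁻ s, ENNReal.ofReal (if 0 < s ∧ s ≤ L then s ^ (-(1 / 2) : ℝ) else 0) =
      ENNReal.ofReal (2 * L ^ ((1 / 2) : ℝ)) := by
  have h1 : (fun s : ℝ => ENNReal.ofReal (if 0 < s ∧ s ≤ L then s ^ (-(1 / 2) : ℝ) else 0)) =
      (Ioc 0 L).indicator (fun s => ENNReal.ofReal (s ^ (-(1 / 2) : ℝ))) := by
    funext s
    by_cases h : 0 < s ∧ s ≤ L
    · rw [if_pos h, indicator_of_mem (by exact h)]
    · rw [if_neg h, indicator_of_notMem (by exact h)]; simp
  rw [h1, lintegral_indicator measurableSet_Ioc]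
  have h2 : IntervalIntegrable (fun x : ℝ => x ^ (-(1 / 2) : ℝ)) volume 0 L :=
    intervalIntegral.intervalIntegrable_rpow' (by norm_num)
  have h3 : IntegrableOn (fun x : ℝ => x ^ (-(1 / 2) : ℝ)) (Ioc 0 L) :=
    (intervalIntegrable_iff_integrableOn_Ioc_of_le hL.le).1 h2
  rw [← ofReal_integral_eq_lintegral_ofReal h3 ?_]
  · rw [← intervalIntegral.integral_of_le hL.le, integral_rpow (Or.inl (by norm_num))]
    congr 1
    have e : (-(1 / 2) : ℝ) + 1 = 1 / 2 := by norm_num
    rw [e, Real.zero_rpow (by norm_num)]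
    ring
  · filter_upwards [ae_restrict_mem measurableSet_Ioc] with x hx
    exact Real.rpow_nonneg hx.1.le _

theorem meas_half (L : ℝ) :
    Measurable (fun s : ℝ => ENNReal.ofReal (if 0 < s ∧ s ≤ L then s ^ (-(1 / 2) : ℝ) else 0)) := by
  apply ENNReal.measurable_ofReal.comp
  apply Measurable.ite
  · exact (measurableSet_lt measurable_const measurable_id).inter
      (measurableSet_le measurable_id measurable_const)
  · exact measurable_id.pow_const _
  · exact measurable_const

theorem half_bound {t : ℝ} (ht : 0 < t) (r : ℝ) {L : ℝ} (hL : 0 < L) :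
    ∫⁻ x, ENNReal.ofReal (if 0 < r + x then (r + x) ^ (-(1 / 2) : ℝ) else 0) ∂(gam1 t) ≤
      ENNReal.ofReal ((Real.sqrt (2 * Real.pi * t))⁻¹ * (2 * L ^ ((1 / 2) : ℝ)) +
        L ^ (-(1 / 2) : ℝ)) := by
  have : IsProbabilityMeasure (gam1 t) := by unfold gam1; infer_instance
  have h1 : ∀ s : ℝ, ENNReal.ofReal (if 0 < s then s ^ (-(1 / 2) : ℝ) else 0) ≤
      ENNReal.ofReal (if 0 < s ∧ s ≤ L then s ^ (-(1 / 2) : ℝ) else 0) +
        ENNReal.ofReal (L ^ (-(1 / 2) : ℝ)) := by
    intro s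
    by_cases hs : 0 < s
    · by_cases hs2 : s ≤ L
      · rw [if_pos hs, if_pos ⟨hs, hs2⟩]; exact le_self_add
      · rw [if_pos hs, if_neg (by tauto)]
        refine le_trans ?_ le_add_self
        apply ENNReal.ofReal_le_ofReal
        exact Real.rpow_le_rpow_of_nonpos hL (not_le.1 hs2).le (by norm_num)
    · rw [if_neg hs]; simp
  calc _ ≤ ∫⁻ x, (ENNReal.ofReal (if 0 < r + x ∧ r + x ≤ L then (r + x) ^ (-(1 / 2) : ℝ) else 0) +
        ENNReal.ofReal (L ^ (-(1 / 2) : ℝ))) ∂(gam1 t) := lintegral_mono (fun x => h1 (r + x))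
    _ = ∫⁻ x, ENNReal.ofReal (if 0 < r + x ∧ r + x ≤ L then (r + x) ^ (-(1 / 2) : ℝ) else 0)
          ∂(gam1 t) + ENNReal.ofReal (L ^ (-(1 / 2) : ℝ)) := by
        rw [lintegral_add_right _ measurable_const, lintegral_const, measure_univ, mul_one]
    _ ≤ ENNReal.ofReal ((Real.sqrt (2 * Real.pi * t))⁻¹) * ENNReal.ofReal (2 * L ^ ((1 / 2) : ℝ)) +
          ENNReal.ofReal (L ^ (-(1 / 2) : ℝ)) := by
        refine add_le_add_left ?_ _
        have := gam_lint ht _ (meas_half L) r
        rw [int_half hL] at this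
        exact this
    _ = _ := by
        rw [← ENNReal.ofReal_mul (by positivity), ← ENNReal.ofReal_add (by positivity)
          (by positivity)]

theorem sqrt_two_pi {t : ℝ} (ht : 0 < t) :
    (Real.sqrt (2 * Real.pi * t))⁻¹ * 2 ≤ t ^ (-(1 / 2) : ℝ) := by
  have h1 : t ^ (-(1 / 2) : ℝ) = (Real.sqrt t)⁻¹ := by
    rw [Real.rpow_neg ht.le, Real.sqrt_eq_rpow]
  have h2 : Real.sqrt (2 * Real.pi * t) = Real.sqrt (2 * Real.pi) * Real.sqrt t := by
    rw [Real.sqrt_mul (by positivity)]
  have h3 : (2:ℝ) ≤ Real.sqrt (2 * Real.pi) := by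
    apply Real.le_sqrt_of_sq_le
    nlinarith [Real.pi_gt_three]
  have h4 : 0 < Real.sqrt t := Real.sqrt_pos.2 ht
  rw [h1, h2, mul_inv]
  have h5 : (Real.sqrt (2 * Real.pi))⁻¹ * 2 ≤ 1 := by
    rw [inv_mul_le_iff₀ (by positivity)]; linarith
  calc (Real.sqrt (2 * Real.pi))⁻¹ * (Real.sqrt t)⁻¹ * 2
      = ((Real.sqrt (2 * Real.pi))⁻¹ * 2) * (Real.sqrt t)⁻¹ := by ring
    _ ≤ 1 * (Real.sqrt t)⁻¹ := mul_le_mul_of_nonneg_right h5 (by positivity)
    _ = _ := one_mul _

theorem five_half {t r : ℝ} (ht : 0 < t) (hr : 0 ≤ r) (s : ℝ) :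
    ENNReal.ofReal (s ^ (-(5 / 2) : ℝ)) *
      ENNReal.ofReal (if r = 0 then k0 t s else kk t r s) ≤
    ENNReal.ofReal (2 / t) * ENNReal.ofReal (if 0 < s then s ^ (-(1 / 2) : ℝ) else 0) := by
  have h := K_le (s := s) ht hr
  by_cases hs : 0 < s
  · rw [if_pos hs] at h
    rw [if_pos hs, ← ENNReal.ofReal_mul (Real.rpow_nonneg hs.le _),
      ← ENNReal.ofReal_mul (by positivity)]
    apply ENNReal.ofReal_le_ofReal
    calc s ^ (-(5 / 2) : ℝ) * (if r = 0 then k0 t s else kk t r s)
        ≤ s ^ (-(5 / 2) : ℝ) * (2 * s ^ 2 / t) :=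
          mul_le_mul_of_nonneg_left h (Real.rpow_nonneg hs.le _)
      _ = 2 / t * (s ^ (-(5 / 2) : ℝ) * s ^ (2 : ℝ)) := by
          rw [show (2:ℝ) = ((2:ℕ) : ℝ) by norm_num, Real.rpow_natCast]; ring
      _ = 2 / t * s ^ (-(1 / 2) : ℝ) := by
          rw [← Real.rpow_add hs]; norm_num
  · rw [if_neg hs] at h
    rw [ENNReal.ofReal_of_nonpos h, mul_zero]
    exact zero_le

theorem l_neg : StKER → StNEG := by
  intro hK v t ht
  have : IsProbabilityMeasure (gam1 t) := by unfold gam1; infer_instance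
  constructor
  · have hm : Measurable (fun y : ℝ => ENNReal.ofReal (y ^ (-(5 / 2) : ℝ))) :=
      ENNReal.measurable_ofReal.comp (measurable_id.pow_const _)
    rw [hK v t ht (fun y => ENNReal.ofReal (y ^ (-(5 / 2) : ℝ))) hm]
    calc _ ≤ ∫⁻ x, ENNReal.ofReal (2 / t) *
          ENNReal.ofReal (if 0 < ‖v‖ + x then (‖v‖ + x) ^ (-(1 / 2) : ℝ) else 0) ∂(gam1 t) :=
          lintegral_mono (fun x => five_half ht (norm_nonneg v) (‖v‖ + x))
      _ = ENNReal.ofReal (2 / t) * ∫⁻ x,
          ENNReal.ofReal (if 0 < ‖v‖ + x then (‖v‖ + x) ^ (-(1 / 2) : ℝ) else 0) ∂(gam1 t) := by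
          rw [lintegral_const_mul' _ _ ENNReal.ofReal_ne_top]
      _ ≤ ENNReal.ofReal (2 / t) * ENNReal.ofReal ((Real.sqrt (2 * Real.pi * t))⁻¹ *
            (2 * (1:ℝ) ^ ((1 / 2) : ℝ)) + (1:ℝ) ^ (-(1 / 2) : ℝ)) :=
          mul_le_mul_right (half_bound ht _ one_pos) _
      _ ≤ _ := by
          rw [← ENNReal.ofReal_mul (by positivity)]
          apply ENNReal.ofReal_le_ofReal
          rw [Real.one_rpow, Real.one_rpow, mul_one]
          have := sqrt_two_pi ht
          exact mul_le_mul_of_nonneg_left (by linarith) (by positivity)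
  · have hm : Measurable (fun y : ℝ => ENNReal.ofReal (1 / y ^ 2)) := by
      apply ENNReal.measurable_ofReal.comp
      exact measurable_const.div (measurable_id.pow_const _)
    rw [hK v t ht (fun y => ENNReal.ofReal (1 / y ^ 2)) hm]
    calc _ ≤ ∫⁻ _x, ENNReal.ofReal (2 / t) ∂(gam1 t) := by
          apply lintegral_mono
          intro x
          have h := K_le (s := ‖v‖ + x) ht (norm_nonneg v)
          by_cases hs : 0 < ‖v‖ + x
          · rw [if_pos hs] at h
            simp only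
            rw [← ENNReal.ofReal_mul (by positivity)]
            apply ENNReal.ofReal_le_ofReal
            calc 1 / (‖v‖ + x) ^ 2 * (if ‖v‖ = 0 then k0 t (‖v‖ + x) else kk t ‖v‖ (‖v‖ + x))
                ≤ 1 / (‖v‖ + x) ^ 2 * (2 * (‖v‖ + x) ^ 2 / t) :=
                  mul_le_mul_of_nonneg_left h (by positivity)
              _ = 2 / t := by field_simp
          · rw [if_neg hs] at h
            simp only
            rw [ENNReal.ofReal_of_nonpos h, mul_zero]
            exact zero_le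
      _ = _ := by rw [lintegral_const, measure_univ, mul_one]

end Pool.Agent.R132.CM
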