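import Pool.Agent.R132.CM.Defs

/-!
Correlation of two windows at distance `k/n` for the Bessel(3) density (CM-OFF0).
-/

set_option autoImplicit false

open MeasureTheory ProbabilityTheory Filter Topology Set unitInterval
open scoped ENNReal NNReal
open Pool.Agent.R967.FB

namespace Pool.Agent.R132.CM

namespace OFF0x

theorem measS (i : ℕ) : Measurable (fun x : ℕ → ℝ => S x i) := by
  unfold S
  fun_prop

theorem measG (n m : ℕ) : Measurable (G n m) := by
  classical
  unfold G
  refine Measurable.ite ?_ ?_ measurable_const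
  · have : {x : ℕ → ℝ | ∀ i, 1 ≤ i → i ≤ m → 0 < S x i} =
        ⋂ i, ⋂ (_ : 1 ≤ i), ⋂ (_ : i ≤ m), {x : ℕ → ℝ | 0 < S x i} := by
      ext x
      simp only [mem_iInter]
      rfl
    rw [this]
    refine MeasurableSet.iInter fun i => MeasurableSet.iInter fun _ => MeasurableSet.iInter fun _ => ?_
    exact measurableSet_lt measurable_const (measS i)
  · have h1 := measS 1
    have h2 := measS m
    refine ((measurable_const.mul h1).mul h2).mul ?_
    refine Finset.measurable_prod _ fun i _ => ?_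
    refine measurable_const.sub (Real.measurable_exp.comp ?_)
    exact ((measurable_const.mul (measS i)).mul (measS (i + 1))).neg

theorem S_congr {x x' : ℕ → ℝ} {m : ℕ} (h : ∀ i < m, x i = x' i) {i : ℕ} (hi : i ≤ m) :
    S x i = S x' i := by
  unfold S
  refine Finset.sum_congr rfl fun l hl => h l ?_
  rw [Finset.mem_range] at hl
  omega

theorem G_congr {x x' : ℕ → ℝ} {n m : ℕ} (hm : 1 ≤ m) (h : ∀ i < m, x i = x' i) :
    G n m x = G n m x' := by
  unfold G
  have h1 : (∀ i, 1 ≤ i → i ≤ m → 0 < S x i) ↔ (∀ i, 1 ≤ i → i ≤ m → 0 < S x' i) := by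
    constructor
    · intro hh i h1 h2
      rw [← S_congr h h2]; exact hh i h1 h2
    · intro hh i h1 h2
      rw [S_congr h h2]; exact hh i h1 h2
  have h2 : ∏ i ∈ Finset.Ico 1 m, (1 - Real.exp (-(2 * n * S x i * S x (i + 1)))) =
      ∏ i ∈ Finset.Ico 1 m, (1 - Real.exp (-(2 * n * S x' i * S x' (i + 1)))) := by
    refine Finset.prod_congr rfl fun i hi => ?_
    rw [Finset.mem_Ico] at hi
    rw [S_congr h (by omega : i ≤ m), S_congr h (by omega : i + 1 ≤ m)]
  by_cases hx : ∀ i, 1 ≤ i → i ≤ m → 0 < S x i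
  · rw [if_pos hx, if_pos (h1.1 hx), h2, S_congr h hm, S_congr h (le_refl m)]
  · rw [if_neg hx, if_neg (fun hh => hx (h1.2 hh))]

theorem fac_mem {n : ℕ} {a b : ℝ} (ha : 0 < a) (hb : 0 < b) :
    0 ≤ 1 - Real.exp (-(2 * n * a * b)) ∧ 1 - Real.exp (-(2 * n * a * b)) ≤ 1 := by
  have h1 : Real.exp (-(2 * n * a * b)) ≤ 1 := by
    apply Real.exp_le_one_iff.2
    have : (0 : ℝ) ≤ 2 * n * a * b := by positivity
    linarith
  have h2 := Real.exp_pos (-(2 * n * a * b))
  constructor <;> linarith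

theorem G_nonneg (n m : ℕ) (hm : 1 ≤ m) (x : ℕ → ℝ) : 0 ≤ G n m x := by
  unfold G
  split_ifs with h
  · have h1 := h 1 le_rfl hm
    have h2 := h m hm le_rfl
    refine mul_nonneg (by positivity) ?_
    refine Finset.prod_nonneg fun i hi => ?_
    rw [Finset.mem_Ico] at hi
    exact (fac_mem (h i hi.1 (by omega)) (h (i + 1) (by omega) (by omega))).1
  · exact le_rfl

/-- the pointwise inequality -/
theorem G_le {n k : ℕ} (hk : 1 ≤ k) (hkn : k < n) {x : ℕ → ℝ}
    (h : ∀ i, 1 ≤ i → i ≤ n → 0 < S x i) : G n n x ≤ G n k x * (S x n / S x k) := by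
  have hk' : ∀ i, 1 ≤ i → i ≤ k → 0 < S x i := fun i h1 h2 => h i h1 (by omega)
  unfold G
  rw [if_pos h, if_pos hk']
  have h1 := h 1 le_rfl (by omega)
  have hn0 := h n (by omega) le_rfl
  have hk0 := h k hk hkn.le
  have e1 : 2 * (n : ℝ) * S x 1 * S x k *
      (∏ i ∈ Finset.Ico 1 k, (1 - Real.exp (-(2 * n * S x i * S x (i + 1))))) *
        (S x n / S x k) = 2 * (n : ℝ) * S x 1 * S x n *
      (∏ i ∈ Finset.Ico 1 k, (1 - Real.exp (-(2 * n * S x i * S x (i + 1))))) := by
    field_simp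
  rw [e1]
  refine mul_le_mul_of_nonneg_left ?_ (by positivity)
  rw [← Finset.prod_Ico_consecutive _ hk hkn.le]
  have hp1 : 0 ≤ ∏ i ∈ Finset.Ico 1 k, (1 - Real.exp (-(2 * n * S x i * S x (i + 1)))) := by
    refine Finset.prod_nonneg fun i hi => ?_
    rw [Finset.mem_Ico] at hi
    exact (fac_mem (h i hi.1 (by omega)) (h (i + 1) (by omega) (by omega))).1
  have hp2 : ∏ i ∈ Finset.Ico k n, (1 - Real.exp (-(2 * n * S x i * S x (i + 1)))) ≤ 1 := by
    refine Finset.prod_le_one (fun i hi => ?_) (fun i hi => ?_)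
    · rw [Finset.mem_Ico] at hi
      exact (fac_mem (h i (by omega) (by omega)) (h (i + 1) (by omega) (by omega))).1
    · rw [Finset.mem_Ico] at hi
      exact (fac_mem (h i (by omega) (by omega)) (h (i + 1) (by omega) (by omega))).2
  exact mul_le_of_le_one_right hp1 hp2

theorem S_sh (x : ℕ → ℝ) (k i : ℕ) : S x (k + i) = S x k + S (sh k x) i := by
  unfold S sh
  rw [Finset.sum_range_add]

theorem point {n k : ℕ} (hk : 1 ≤ k) (hkn : k < n) (x : ℕ → ℝ) :
    ENNReal.ofReal (G n n x) * ENNReal.ofReal (G n n (sh k x)) ≤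
      ENNReal.ofReal (G n k x) * ENNReal.ofReal (G n n (sh k x)) +
      (ENNReal.ofReal (1 / S x k) * ENNReal.ofReal (G n k x)) *
        (ENNReal.ofReal (S (sh k x) (n - k)) * ENNReal.ofReal (G n n (sh k x))) := by
  by_cases hx : ∀ i, 1 ≤ i → i ≤ n → 0 < S x i
  · by_cases hz : ∀ i, 1 ≤ i → i ≤ n → 0 < S (sh k x) i
    · have hz0 := hz (n - k) (by omega) (by omega)
      have hk0 := hx k hk hkn.le
      have h1 := G_le hk hkn hx
      have h2 : S x n = S x k + S (sh k x) (n - k) := by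
        rw [← S_sh]; congr 1; omega
      have h3 : G n n x ≤ G n k x + (1 / S x k * G n k x) * S (sh k x) (n - k) := by
        refine h1.trans (le_of_eq ?_)
        rw [h2]
        field_simp
      have hGk := G_nonneg n k hk x
      have hGz := G_nonneg n n (by omega) (sh k x)
      have h4 : ENNReal.ofReal (G n n x) ≤ ENNReal.ofReal (G n k x) +
          ENNReal.ofReal (1 / S x k) * ENNReal.ofReal (G n k x) *
            ENNReal.ofReal (S (sh k x) (n - k)) := by
        rw [← ENNReal.ofReal_mul (by positivity), ← ENNReal.ofReal_mul (by positivity),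
          ← ENNReal.ofReal_add hGk (by positivity)]
        exact ENNReal.ofReal_le_ofReal h3
      calc ENNReal.ofReal (G n n x) * ENNReal.ofReal (G n n (sh k x)) ≤
          (ENNReal.ofReal (G n k x) +
          ENNReal.ofReal (1 / S x k) * ENNReal.ofReal (G n k x) *
            ENNReal.ofReal (S (sh k x) (n - k))) * ENNReal.ofReal (G n n (sh k x)) :=
            mul_le_mul_left h4 _
        _ = _ := by ring
    · have : G n n (sh k x) = 0 := by
        unfold G
        rw [if_neg hz]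
      rw [this]
      simp
  · have : G n n x = 0 := by
      unfold G
      rw [if_neg hx]
    rw [this]
    simp

theorem split {n k : ℕ} {Ω : Type} [MeasurableSpace Ω] {P : Measure Ω} {v : ℝ} {ξ : ℕ → Ω → ℝ}
    (hξ : IIDG P v ξ) {φ ψ : (ℕ → ℝ) → ℝ≥0∞} (hφ : Measurable φ) (hψ : Measurable ψ)
    (hφd : ∀ x x' : ℕ → ℝ, (∀ i < k, x i = x' i) → φ x = φ x')
    (hψd : ∀ x x' : ℕ → ℝ, (∀ i < n, x i = x' i) → ψ x = ψ x') :
    ∫⁻ ω, φ (fun l => ξ l ω) * ψ (sh k (fun l => ξ l ω)) ∂P =
      (∫⁻ ω, φ (fun l => ξ l ω) ∂P) * ∫⁻ ω, ψ (sh k (fun l => ξ l ω)) ∂P := by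
  classical
  have hdisj : Disjoint (Finset.range k) (Finset.Ico k (k + n)) := by
    rw [Finset.disjoint_left]
    intro i h1 h2
    rw [Finset.mem_range] at h1
    rw [Finset.mem_Ico] at h2
    omega
  have hind := hξ.ind.indepFun_finset (Finset.range k) (Finset.Ico k (k + n)) hdisj hξ.meas
  let e1 : ((Finset.range k) → ℝ) → ℕ → ℝ := fun u i => if h : i ∈ Finset.range k then u ⟨i, h⟩ else 0
  let e2 : ((Finset.Ico k (k + n)) → ℝ) → ℕ → ℝ := fun u l =>
    if h : k + l ∈ Finset.Ico k (k + n) then u ⟨k + l, h⟩ else 0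
  have he1 : Measurable e1 := by
    refine measurable_pi_lambda _ fun i => ?_
    by_cases h : i ∈ Finset.range k
    · simp only [e1, dif_pos h]
      exact measurable_pi_apply _
    · simp only [e1, dif_neg h]
      exact measurable_const
  have he2 : Measurable e2 := by
    refine measurable_pi_lambda _ fun l => ?_
    by_cases h : k + l ∈ Finset.Ico k (k + n)
    · simp only [e2, dif_pos h]
      exact measurable_pi_apply _
    · simp only [e2, dif_neg h]
      exact measurable_const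
  have h2 := hind.comp (hφ.comp he1) (hψ.comp he2)
  have f1 : (φ ∘ e1) ∘ (fun (a : Ω) (i : Finset.range k) => ξ i a) = fun ω => φ (fun l => ξ l ω) := by
    funext ω
    apply hφd
    intro i hi
    simp only [e1]
    rw [dif_pos (Finset.mem_range.2 hi)]
  have f2 : (ψ ∘ e2) ∘ (fun (a : Ω) (i : Finset.Ico k (k + n)) => ξ i a) =
      fun ω => ψ (sh k (fun l => ξ l ω)) := by
    funext ω
    apply hψd
    intro i hi
    simp only [e2]
    rw [dif_pos (by rw [Finset.mem_Ico]; omega)]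
    rfl
  rw [f1, f2] at h2
  have hm : Measurable fun ω => fun l => ξ l ω := measurable_pi_lambda _ hξ.meas
  have hsh : Measurable (sh k) := measurable_pi_lambda _ fun l => measurable_pi_apply _
  have := lintegral_mul_eq_lintegral_mul_lintegral_of_indepFun (hφ.comp hm)
    (hψ.comp (hsh.comp hm)) h2
  exact this

theorem shift {Ω : Type} [MeasurableSpace Ω] {P : Measure Ω} {v : ℝ} {ξ : ℕ → Ω → ℝ}
    (hξ : IIDG P v ξ) (k : ℕ) : IIDG P v (fun l ω => ξ (k + l) ω) where
  meas := fun _ => hξ.meas _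
  ind := hξ.ind.precomp (g := fun l => k + l) (fun _ _ h => Nat.add_left_cancel h)
  law := fun _ => hξ.law _

theorem gam3_prob (v : ℝ) : IsProbabilityMeasure (gam3 v) := by
  unfold gam3
  exact Measure.isProbabilityMeasure_map (by fun_prop)

end OFF0x

open OFF0x in
theorem l_off0 : StONE → StMOM → StMEAN → StOFF 0 := by
  intro hO hM _ n k hk hkn Ω _ P _ ξ hξ
  have hn : 1 ≤ n := by omega
  have hg : ∀ x : ℕ → ℝ, g 0 n x = G n n x := by
    intro x
    unfold g rho
    simp
  simp only [hg]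
  have hn0 : (0 : ℝ) < n := by exact_mod_cast hn
  have hk0 : (0 : ℝ) < k := by exact_mod_cast hk
  have hkn' : (k : ℝ) < n := by exact_mod_cast hkn
  have hsξ := shift hξ k
  have hm : Measurable fun ω => fun l => ξ l ω := measurable_pi_lambda _ hξ.meas
  have hsh : Measurable (sh k) := measurable_pi_lambda _ fun l => measurable_pi_apply _
  have mG : ∀ m, Measurable fun x : ℕ → ℝ => ENNReal.ofReal (G n m x) := fun m =>
    ENNReal.measurable_ofReal.comp (measG n m)
  -- the four values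
  have v1 : ∫⁻ ω, ENNReal.ofReal (G n k (fun l => ξ l ω)) ∂P = 1 := by
    have := hO n k k hn hk le_rfl Ω P ξ hξ (fun _ => 1) measurable_const
    have hp := gam3_prob ((k : ℝ) / n)
    simpa using this
  have v2 : ∫⁻ ω, ENNReal.ofReal (G n n (sh k (fun l => ξ l ω))) ∂P = 1 := by
    have := hO n n n hn hn le_rfl Ω P _ hsξ (fun _ => 1) measurable_const
    have hp := gam3_prob ((n : ℝ) / n)
    have h2 : ∫⁻ ω, 1 * ENNReal.ofReal (G n n (fun l => ξ (k + l) ω)) ∂P = 1 := by
      rw [this]; simp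
    simp only [one_mul] at h2
    exact h2
  have v3 : ∫⁻ ω, ENNReal.ofReal (1 / S (fun l => ξ l ω) k) *
      ENNReal.ofReal (G n k (fun l => ξ l ω)) ∂P ≤ ENNReal.ofReal (((k : ℝ) / n) ^ (-(1 / 2) : ℝ)) := by
    have := hO n k k hn hk le_rfl Ω P ξ hξ (fun s => ENNReal.ofReal (1 / s)) (by fun_prop)
    rw [this]
    exact (hM ((k : ℝ) / n) (by positivity)).2.2.1
  have v4 : ∫⁻ ω, ENNReal.ofReal (S (sh k (fun l => ξ l ω)) (n - k)) *
      ENNReal.ofReal (G n n (sh k (fun l => ξ l ω))) ∂P ≤ ENNReal.ofReal 2 := by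
    have := hO n n (n - k) hn (by omega) (by omega) Ω P _ hsξ (fun s => ENNReal.ofReal s)
      ENNReal.measurable_ofReal
    have e : ∫⁻ ω, ENNReal.ofReal (S (sh k (fun l => ξ l ω)) (n - k)) *
      ENNReal.ofReal (G n n (sh k (fun l => ξ l ω))) ∂P =
        ∫⁻ z, ENNReal.ofReal ‖z‖ ∂(gam3 (((n - k : ℕ) : ℝ) / n)) := this
    rw [e]
    have hnk : (0 : ℝ) < ((n - k : ℕ) : ℝ) := by exact_mod_cast (by omega : 0 < n - k)
    refine (hM (((n - k : ℕ) : ℝ) / n) (by positivity)).2.2.2.1.trans ?_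
    apply ENNReal.ofReal_le_ofReal
    have h1 : (((n - k : ℕ) : ℝ) / n) ≤ 1 := by
      rw [div_le_one hn0]
      exact_mod_cast Nat.sub_le n k
    have h2 : (((n - k : ℕ) : ℝ) / n) ^ ((1 / 2) : ℝ) ≤ 1 :=
      Real.rpow_le_one (by positivity) h1 (by norm_num)
    linarith
  -- independence
  have s1 := split (n := n) (k := k) hξ (mG k) (mG n)
    (fun x x' h => by rw [G_congr hk h]) (fun x x' h => by rw [G_congr hn h])
  have s2 := split (n := n) (k := k) hξ
    (φ := fun x => ENNReal.ofReal (1 / S x k) * ENNReal.ofReal (G n k x))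
    (ψ := fun x => ENNReal.ofReal (S x (n - k)) * ENNReal.ofReal (G n n x))
    ((ENNReal.measurable_ofReal.comp (measurable_const.div (measS k))).mul (mG k))
    ((ENNReal.measurable_ofReal.comp (measS (n - k))).mul (mG n))
    (fun x x' h => by rw [G_congr hk h, S_congr h le_rfl])
    (fun x x' h => by rw [G_congr hn h, S_congr h (Nat.sub_le n k)])
  have hmeas1 : Measurable fun ω => ENNReal.ofReal (G n k (fun l => ξ l ω)) *
      ENNReal.ofReal (G n n (sh k (fun l => ξ l ω))) :=
    ((mG k).comp hm).mul ((mG n).comp (hsh.comp hm))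
  have hq : 1 ≤ (n : ℝ) / k := by rw [le_div_iff₀ hk0]; linarith
  have hq1 : 1 ≤ ((n : ℝ) / k) ^ ((3 / 4) : ℝ) := Real.one_le_rpow hq (by norm_num)
  have hq2 : ((k : ℝ) / n) ^ (-(1 / 2) : ℝ) ≤ ((n : ℝ) / k) ^ ((3 / 4) : ℝ) := by
    have : ((k : ℝ) / n) ^ (-(1 / 2) : ℝ) = ((n : ℝ) / k) ^ ((1 / 2) : ℝ) := by
      rw [Real.rpow_neg (by positivity), ← Real.inv_rpow (by positivity), inv_div]
    rw [this]
    exact Real.rpow_le_rpow_of_exponent_le hq (by norm_num)
  calc ∫⁻ ω, ENNReal.ofReal (G n n (fun l => ξ l ω)) *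
        ENNReal.ofReal (G n n (sh k (fun l => ξ l ω))) ∂P
      ≤ ∫⁻ ω, (ENNReal.ofReal (G n k (fun l => ξ l ω)) *
          ENNReal.ofReal (G n n (sh k (fun l => ξ l ω))) +
        (ENNReal.ofReal (1 / S (fun l => ξ l ω) k) * ENNReal.ofReal (G n k (fun l => ξ l ω))) *
        (ENNReal.ofReal (S (sh k (fun l => ξ l ω)) (n - k)) *
          ENNReal.ofReal (G n n (sh k (fun l => ξ l ω))))) ∂P :=
        lintegral_mono fun ω => point hk hkn _
    _ = (∫⁻ ω, ENNReal.ofReal (G n k (fun l => ξ l ω)) *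
          ENNReal.ofReal (G n n (sh k (fun l => ξ l ω))) ∂P) +
        ∫⁻ ω, (ENNReal.ofReal (1 / S (fun l => ξ l ω) k) * ENNReal.ofReal (G n k (fun l => ξ l ω))) *
        (ENNReal.ofReal (S (sh k (fun l => ξ l ω)) (n - k)) *
          ENNReal.ofReal (G n n (sh k (fun l => ξ l ω)))) ∂P := lintegral_add_left hmeas1 _
    _ ≤ 1 * 1 + ENNReal.ofReal (((k : ℝ) / n) ^ (-(1 / 2) : ℝ)) * ENNReal.ofReal 2 := by
        refine add_le_add ?_ ?_
        · refine le_of_eq (s1.trans ?_)
          rw [v1, v2]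
        · refine (le_of_eq s2).trans ?_
          exact mul_le_mul' v3 v4
    _ ≤ ENNReal.ofReal (100 * ((n : ℝ) / k) ^ ((3 / 4) : ℝ)) := by
        rw [mul_one, ← ENNReal.ofReal_mul (by positivity), ← ENNReal.ofReal_one,
          ← ENNReal.ofReal_add zero_le_one (by positivity)]
        apply ENNReal.ofReal_le_ofReal
        nlinarith

end Pool.Agent.R132.CM
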