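import Pool.Agent.R132.CM.Defs
import Pool.Agent.R132.CM.LOFF0

/-!
Correlation of two windows at distance `k/n` for the co-meander density (CM-OFF1).
-/

set_option autoImplicit false

open MeasureTheory ProbabilityTheory Filter Topology Set unitInterval
open scoped ENNReal NNReal
open Pool.Agent.R967.FB

namespace Pool.Agent.R132.CM

namespace OFF1x

open OFF0x

theorem g_eq (n : ℕ) (x : ℕ → ℝ) : g 1 n x = G n n x * (1 / S x n ^ 2) := by
  unfold g rho
  simp

theorem g_congr {x x' : ℕ → ℝ} {n : ℕ} (hn : 1 ≤ n) (h : ∀ i < n, x i = x' i) :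
    g 1 n x = g 1 n x' := by
  rw [g_eq, g_eq, G_congr hn h, S_congr h le_rfl]

theorem meas_g (n : ℕ) : Measurable (fun x : ℕ → ℝ => g 1 n x) := by
  have h : (fun x : ℕ → ℝ => g 1 n x) = fun x => G n n x * (1 / S x n ^ 2) := by
    funext x; exact g_eq n x
  rw [h]
  exact (measG n n).mul (measurable_const.div ((measS n).pow_const 2))

theorem g_nonneg {n : ℕ} (hn : 1 ≤ n) (x : ℕ → ℝ) : 0 ≤ g 1 n x := by
  rw [g_eq]
  exact mul_nonneg (G_nonneg n n hn x) (by positivity)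

/-- on the event where both windows stay positive -/
theorem g_le {n k : ℕ} (hk : 1 ≤ k) (hkn : k < n) {x : ℕ → ℝ}
    (h : ∀ i, 1 ≤ i → i ≤ n → 0 < S x i) : g 1 n x ≤ G n k x * (1 / (S x k * S x n)) := by
  have h1 := G_le hk hkn h
  have hk0 := h k hk hkn.le
  have hn0 := h n (by omega) le_rfl
  rw [g_eq]
  calc G n n x * (1 / S x n ^ 2) ≤ (G n k x * (S x n / S x k)) * (1 / S x n ^ 2) := by gcongr
    _ = G n k x * (1 / (S x k * S x n)) := by field_simp

theorem g_zero {n : ℕ} {x : ℕ → ℝ} (h : ¬ ∀ i, 1 ≤ i → i ≤ n → 0 < S x i) : g 1 n x = 0 := by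
  rw [g_eq]
  unfold G
  rw [if_neg h, zero_mul]

theorem point_far {n k : ℕ} (hk : 1 ≤ k) (hkn : k < n) (x : ℕ → ℝ) :
    ENNReal.ofReal (g 1 n x) * ENNReal.ofReal (g 1 n (sh k x)) ≤
      (ENNReal.ofReal (1 / S x k ^ 2) * ENNReal.ofReal (G n k x)) *
        ENNReal.ofReal (g 1 n (sh k x)) := by
  by_cases hx : ∀ i, 1 ≤ i → i ≤ n → 0 < S x i
  · by_cases hz : ∀ i, 1 ≤ i → i ≤ n → 0 < S (sh k x) i
    · have hz0 := hz (n - k) (by omega) (by omega)
      have hk0 := hx k hk hkn.le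
      have h1 := g_le hk hkn hx
      have h2 : S x n = S x k + S (sh k x) (n - k) := by
        rw [← S_sh]; congr 1; omega
      have hGk := G_nonneg n k hk x
      have h3 : g 1 n x ≤ (1 / S x k ^ 2) * G n k x := by
        refine h1.trans ?_
        rw [mul_comm]
        refine mul_le_mul_of_nonneg_right ?_ hGk
        rw [pow_two]
        apply one_div_le_one_div_of_le (by positivity)
        apply mul_le_mul_of_nonneg_left _ hk0.le
        rw [h2]; linarith
      refine mul_le_mul_left ?_ _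
      rw [← ENNReal.ofReal_mul (by positivity)]
      exact ENNReal.ofReal_le_ofReal h3
    · rw [g_zero hz]
      simp
  · rw [g_zero hx]
    simp

theorem aux_ineq {a b : ℝ} (ha : 0 < a) (hb : 0 < b) :
    a ^ (-(1 / 2) : ℝ) * (1 / b ^ 2) ≤ a ^ (-(5 / 2) : ℝ) + b ^ (-(5 / 2) : ℝ) := by
  have e1 : ∀ c : ℝ, 0 < c → c ^ (-(5 / 2) : ℝ) = c ^ (-(1 / 2) : ℝ) * (1 / c ^ 2) := by
    intro c hc
    have : (-(5 / 2) : ℝ) = -(1 / 2) + (-2 : ℝ) := by norm_num
    rw [this, Real.rpow_add hc, Real.rpow_neg hc.le 2, Real.rpow_ofNat, one_div (c ^ 2)]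
  rcases le_total a b with h | h
  · have : a ^ (-(1 / 2) : ℝ) * (1 / b ^ 2) ≤ a ^ (-(5 / 2) : ℝ) := by
      rw [e1 a ha]
      apply mul_le_mul_of_nonneg_left _ (by positivity)
      apply one_div_le_one_div_of_le (by positivity)
      gcongr
    have h2 : 0 ≤ b ^ (-(5 / 2) : ℝ) := by positivity
    linarith
  · have : a ^ (-(1 / 2) : ℝ) * (1 / b ^ 2) ≤ b ^ (-(5 / 2) : ℝ) := by
      rw [e1 b hb]
      apply mul_le_mul_of_nonneg_right _ (by positivity)
      exact Real.rpow_le_rpow_of_nonpos hb h (by norm_num)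
    have h2 : 0 ≤ a ^ (-(5 / 2) : ℝ) := by positivity
    linarith

theorem aux_ineq2 {a b : ℝ} (ha : 0 < a) (hb : 0 < b) :
    1 / (a * (a + b)) ≤ a ^ (-(3 / 2) : ℝ) * b ^ (-(1 / 2) : ℝ) := by
  have h1 : a ^ ((1 / 2) : ℝ) * b ^ ((1 / 2) : ℝ) ≤ a + b := by
    rw [← Real.sqrt_eq_rpow, ← Real.sqrt_eq_rpow]
    nlinarith [Real.sq_sqrt ha.le, Real.sq_sqrt hb.le, sq_nonneg (Real.sqrt a - Real.sqrt b),
      Real.sqrt_nonneg a, Real.sqrt_nonneg b]
  have h2 : a ^ ((3 / 2) : ℝ) = a * a ^ ((1 / 2) : ℝ) := by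
    have : ((3 / 2) : ℝ) = 1 + 1 / 2 := by norm_num
    rw [this, Real.rpow_add ha, Real.rpow_one]
  rw [Real.rpow_neg ha.le, Real.rpow_neg hb.le, ← mul_inv, one_div]
  apply inv_anti₀ (by positivity)
  rw [h2, mul_assoc]
  exact mul_le_mul_of_nonneg_left h1 ha.le

theorem point_near {n k : ℕ} (hk : 1 ≤ k) (hkn : k < n) (x : ℕ → ℝ) :
    ENNReal.ofReal (g 1 n x) * ENNReal.ofReal (g 1 n (sh k x)) ≤
      (ENNReal.ofReal (S x k ^ (-(3 / 2) : ℝ)) * ENNReal.ofReal (G n k x)) *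
        (ENNReal.ofReal (S (sh k x) (n - k) ^ (-(5 / 2) : ℝ)) * ENNReal.ofReal (G n n (sh k x)) +
          ENNReal.ofReal (S (sh k x) n ^ (-(5 / 2) : ℝ)) * ENNReal.ofReal (G n n (sh k x))) := by
  by_cases hx : ∀ i, 1 ≤ i → i ≤ n → 0 < S x i
  · by_cases hz : ∀ i, 1 ≤ i → i ≤ n → 0 < S (sh k x) i
    · have hz0 := hz (n - k) (by omega) (by omega)
      have hzn := hz n (by omega) le_rfl
      have hk0 := hx k hk hkn.le
      have h1 := g_le hk hkn hx
      have h2 : S x n = S x k + S (sh k x) (n - k) := by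
        rw [← S_sh]; congr 1; omega
      have hGk := G_nonneg n k hk x
      have hGz := G_nonneg n n (by omega) (sh k x)
      obtain ⟨z, hzz⟩ : ∃ z, z = sh k x := ⟨_, rfl⟩
      rw [← hzz] at hz0 hzn h2 hGz ⊢
      have h3 : g 1 n x ≤ (S x k ^ (-(3 / 2) : ℝ) * S z (n - k) ^ (-(1 / 2) : ℝ)) * G n k x := by
        refine h1.trans ?_
        rw [mul_comm]
        refine mul_le_mul_of_nonneg_right ?_ hGk
        rw [h2]
        exact aux_ineq2 hk0 hz0
      have h4 : g 1 n x * g 1 n z ≤ (S x k ^ (-(3 / 2) : ℝ) * G n k x) *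
          (S z (n - k) ^ (-(5 / 2) : ℝ) * G n n z + S z n ^ (-(5 / 2) : ℝ) * G n n z) := by
        have hgz : g 1 n z = G n n z * (1 / S z n ^ 2) := g_eq n z
        have h5 := aux_ineq hz0 hzn
        calc g 1 n x * g 1 n z ≤
            ((S x k ^ (-(3 / 2) : ℝ) * S z (n - k) ^ (-(1 / 2) : ℝ)) * G n k x) * g 1 n z :=
              mul_le_mul_of_nonneg_right h3 (g_nonneg (by omega) z)
          _ = (S x k ^ (-(3 / 2) : ℝ) * G n k x) *
                ((S z (n - k) ^ (-(1 / 2) : ℝ) * (1 / S z n ^ 2)) * G n n z) := by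
              rw [hgz]; ring
          _ ≤ (S x k ^ (-(3 / 2) : ℝ) * G n k x) *
                ((S z (n - k) ^ (-(5 / 2) : ℝ) + S z n ^ (-(5 / 2) : ℝ)) * G n n z) := by
              apply mul_le_mul_of_nonneg_left _ (by positivity)
              exact mul_le_mul_of_nonneg_right h5 hGz
          _ = _ := by ring
      have hgx := g_nonneg (by omega : 1 ≤ n) x
      rw [← ENNReal.ofReal_mul hgx, ← ENNReal.ofReal_mul (by positivity),
        ← ENNReal.ofReal_mul (by positivity), ← ENNReal.ofReal_mul (by positivity),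
        ← ENNReal.ofReal_add (by positivity) (by positivity),
        ← ENNReal.ofReal_mul (by positivity)]
      exact ENNReal.ofReal_le_ofReal h4
    · rw [g_zero hz]
      simp
  · rw [g_zero hx]
    simp

end OFF1x

open OFF0x OFF1x in
theorem l_off1 : StONE → StMOM → StMEAN → StOFF 1 := by
  intro hO hM hE n k hk hkn Ω _ P _ ξ hξ
  have hn : 1 ≤ n := by omega
  have hn0 : (0 : ℝ) < n := by exact_mod_cast hn
  have hk0 : (0 : ℝ) < k := by exact_mod_cast hk
  have hkn' : (k : ℝ) < n := by exact_mod_cast hkn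
  have hsξ := shift hξ k
  have hm : Measurable fun ω => fun l => ξ l ω := measurable_pi_lambda _ hξ.meas
  have hsh : Measurable (sh k) := measurable_pi_lambda _ fun l => measurable_pi_apply _
  have mG : ∀ m, Measurable fun x : ℕ → ℝ => ENNReal.ofReal (G n m x) := fun m =>
    ENNReal.measurable_ofReal.comp (measG n m)
  have mg : Measurable fun x : ℕ → ℝ => ENNReal.ofReal (g 1 n x) :=
    ENNReal.measurable_ofReal.comp (meas_g n)
  have hq : 1 ≤ (n : ℝ) / k := by rw [le_div_iff₀ hk0]; linarith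
  have hq1 : 1 ≤ ((n : ℝ) / k) ^ ((3 / 4) : ℝ) := Real.one_le_rpow hq (by norm_num)
  have mpow : ∀ (i : ℕ) (r : ℝ), Measurable fun x : ℕ → ℝ => ENNReal.ofReal (S x i ^ r) := by
    intro i r
    have h := measS i
    exact ENNReal.measurable_ofReal.comp (h.pow_const r)
  rcases le_total n (2 * k) with h2k | h2k
  · -- far
    have v1 : ∫⁻ ω, ENNReal.ofReal (1 / S (fun l => ξ l ω) k ^ 2) *
        ENNReal.ofReal (G n k (fun l => ξ l ω)) ∂P = ENNReal.ofReal (1 / ((k : ℝ) / n)) := by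
      have := hO n k k hn hk le_rfl Ω P ξ hξ (fun s => ENNReal.ofReal (1 / s ^ 2)) (by fun_prop)
      rw [this]
      exact (hM ((k : ℝ) / n) (by positivity)).1
    have v2 : ∫⁻ ω, ENNReal.ofReal (g 1 n (sh k (fun l => ξ l ω))) ∂P = 1 :=
      hE 1 n le_rfl hn Ω P _ hsξ
    have hk2 : Measurable (fun x : ℕ → ℝ => 1 / S x k ^ 2) :=
      measurable_const.div ((measS k).pow_const 2)
    have s := split (n := n) (k := k) hξ
      (φ := fun x => ENNReal.ofReal (1 / S x k ^ 2) * ENNReal.ofReal (G n k x))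
      (ψ := fun x => ENNReal.ofReal (g 1 n x))
      ((ENNReal.measurable_ofReal.comp hk2).mul (mG k))
      mg (fun x x' h => by rw [G_congr hk h, S_congr h le_rfl])
      (fun x x' h => by rw [g_congr hn h])
    calc ∫⁻ ω, ENNReal.ofReal (g 1 n (fun l => ξ l ω)) *
          ENNReal.ofReal (g 1 n (sh k (fun l => ξ l ω))) ∂P
        ≤ ∫⁻ ω, (ENNReal.ofReal (1 / S (fun l => ξ l ω) k ^ 2) *
            ENNReal.ofReal (G n k (fun l => ξ l ω))) *
            ENNReal.ofReal (g 1 n (sh k (fun l => ξ l ω))) ∂P :=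
          lintegral_mono fun ω => point_far hk hkn _
      _ = ENNReal.ofReal (1 / ((k : ℝ) / n)) * 1 := by
          refine s.trans ?_
          rw [v1, v2]
      _ ≤ ENNReal.ofReal (100 * ((n : ℝ) / k) ^ ((3 / 4) : ℝ)) := by
          rw [mul_one]
          apply ENNReal.ofReal_le_ofReal
          have h3 : 1 / ((k : ℝ) / n) ≤ 2 := by
            rw [one_div_div, div_le_iff₀ hk0]
            exact_mod_cast h2k
          linarith
  · -- near
    have v1 : ∫⁻ ω, ENNReal.ofReal (S (fun l => ξ l ω) k ^ (-(3 / 2) : ℝ)) *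
        ENNReal.ofReal (G n k (fun l => ξ l ω)) ∂P ≤
          ENNReal.ofReal (4 * ((k : ℝ) / n) ^ (-(3 / 4) : ℝ)) := by
      have := hO n k k hn hk le_rfl Ω P ξ hξ (fun s => ENNReal.ofReal (s ^ (-(3 / 2) : ℝ)))
        (by fun_prop)
      rw [this]
      exact (hM ((k : ℝ) / n) (by positivity)).2.2.2.2.1
    have v2 : ∫⁻ ω, ENNReal.ofReal (S (sh k (fun l => ξ l ω)) (n - k) ^ (-(5 / 2) : ℝ)) *
        ENNReal.ofReal (G n n (sh k (fun l => ξ l ω))) ∂P ≤ ENNReal.ofReal 16 := by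
      have := hO n n (n - k) hn (by omega) (by omega) Ω P _ hsξ
        (fun s => ENNReal.ofReal (s ^ (-(5 / 2) : ℝ))) (by fun_prop)
      have e : ∫⁻ ω, ENNReal.ofReal (S (sh k (fun l => ξ l ω)) (n - k) ^ (-(5 / 2) : ℝ)) *
        ENNReal.ofReal (G n n (sh k (fun l => ξ l ω))) ∂P =
          ∫⁻ z, ENNReal.ofReal (‖z‖ ^ (-(5 / 2) : ℝ)) ∂(gam3 (((n - k : ℕ) : ℝ) / n)) := this
      rw [e]
      have hnk : (0 : ℝ) < ((n - k : ℕ) : ℝ) := by exact_mod_cast (by omega : 0 < n - k)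
      refine (hM (((n - k : ℕ) : ℝ) / n) (by positivity)).2.2.2.2.2.trans ?_
      apply ENNReal.ofReal_le_ofReal
      have h1 : 1 / 2 ≤ (((n - k : ℕ) : ℝ) / n) := by
        rw [le_div_iff₀ hn0, Nat.cast_sub hkn.le]
        have : (2 * k : ℝ) ≤ n := by exact_mod_cast h2k
        linarith
      have h2 : (((n - k : ℕ) : ℝ) / n) ^ (-(5 / 4) : ℝ) ≤ (1 / 2 : ℝ) ^ (-(5 / 4) : ℝ) :=
        Real.rpow_le_rpow_of_nonpos (by norm_num) h1 (by norm_num)
      have h3 : (1 / 2 : ℝ) ^ (-(5 / 4) : ℝ) ≤ 4 := by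
        have : (1 / 2 : ℝ) ^ (-(5 / 4) : ℝ) ≤ (1 / 2 : ℝ) ^ (-2 : ℝ) :=
          Real.rpow_le_rpow_of_exponent_ge (by norm_num) (by norm_num) (by norm_num)
        refine this.trans (le_of_eq ?_)
        rw [Real.rpow_neg (by norm_num), Real.rpow_ofNat]
        norm_num
      linarith
    have v3 : ∫⁻ ω, ENNReal.ofReal (S (sh k (fun l => ξ l ω)) n ^ (-(5 / 2) : ℝ)) *
        ENNReal.ofReal (G n n (sh k (fun l => ξ l ω))) ∂P ≤ ENNReal.ofReal 4 := by
      have := hO n n n hn hn le_rfl Ω P _ hsξ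
        (fun s => ENNReal.ofReal (s ^ (-(5 / 2) : ℝ))) (by fun_prop)
      have e : ∫⁻ ω, ENNReal.ofReal (S (sh k (fun l => ξ l ω)) n ^ (-(5 / 2) : ℝ)) *
        ENNReal.ofReal (G n n (sh k (fun l => ξ l ω))) ∂P =
          ∫⁻ z, ENNReal.ofReal (‖z‖ ^ (-(5 / 2) : ℝ)) ∂(gam3 ((n : ℝ) / n)) := this
      rw [e]
      refine (hM ((n : ℝ) / n) (by positivity)).2.2.2.2.2.trans ?_
      rw [div_self hn0.ne', Real.one_rpow, mul_one]
    have mz1 : Measurable fun ω => ENNReal.ofReal (S (sh k (fun l => ξ l ω)) (n - k) ^ (-(5 / 2) : ℝ)) *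
        ENNReal.ofReal (G n n (sh k (fun l => ξ l ω))) :=
      ((mpow (n - k) _).comp (hsh.comp hm)).mul ((mG n).comp (hsh.comp hm))
    have v4 : ∫⁻ ω, (ENNReal.ofReal (S (sh k (fun l => ξ l ω)) (n - k) ^ (-(5 / 2) : ℝ)) *
        ENNReal.ofReal (G n n (sh k (fun l => ξ l ω))) +
        ENNReal.ofReal (S (sh k (fun l => ξ l ω)) n ^ (-(5 / 2) : ℝ)) *
        ENNReal.ofReal (G n n (sh k (fun l => ξ l ω)))) ∂P ≤ ENNReal.ofReal 20 := by
      rw [lintegral_add_left mz1]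
      refine (add_le_add v2 v3).trans ?_
      rw [← ENNReal.ofReal_add (by norm_num) (by norm_num)]
      apply ENNReal.ofReal_le_ofReal
      norm_num
    have s := split (n := n) (k := k) hξ
      (φ := fun x => ENNReal.ofReal (S x k ^ (-(3 / 2) : ℝ)) * ENNReal.ofReal (G n k x))
      (ψ := fun x => ENNReal.ofReal (S x (n - k) ^ (-(5 / 2) : ℝ)) * ENNReal.ofReal (G n n x) +
        ENNReal.ofReal (S x n ^ (-(5 / 2) : ℝ)) * ENNReal.ofReal (G n n x))
      ((mpow k _).mul (mG k))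
      (((mpow (n - k) _).mul (mG n)).add ((mpow n _).mul (mG n)))
      (fun x x' h => by rw [G_congr hk h, S_congr h le_rfl])
      (fun x x' h => by rw [G_congr hn h, S_congr h (Nat.sub_le n k), S_congr h le_rfl])
    calc ∫⁻ ω, ENNReal.ofReal (g 1 n (fun l => ξ l ω)) *
          ENNReal.ofReal (g 1 n (sh k (fun l => ξ l ω))) ∂P
        ≤ ∫⁻ ω, (ENNReal.ofReal (S (fun l => ξ l ω) k ^ (-(3 / 2) : ℝ)) *
            ENNReal.ofReal (G n k (fun l => ξ l ω))) *
            (ENNReal.ofReal (S (sh k (fun l => ξ l ω)) (n - k) ^ (-(5 / 2) : ℝ)) *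
              ENNReal.ofReal (G n n (sh k (fun l => ξ l ω))) +
            ENNReal.ofReal (S (sh k (fun l => ξ l ω)) n ^ (-(5 / 2) : ℝ)) *
              ENNReal.ofReal (G n n (sh k (fun l => ξ l ω)))) ∂P :=
          lintegral_mono fun ω => point_near hk hkn _
      _ ≤ ENNReal.ofReal (4 * ((k : ℝ) / n) ^ (-(3 / 4) : ℝ)) * ENNReal.ofReal 20 :=
          (le_of_eq s).trans (mul_le_mul' v1 v4)
      _ ≤ ENNReal.ofReal (100 * ((n : ℝ) / k) ^ ((3 / 4) : ℝ)) := by
          rw [← ENNReal.ofReal_mul (by positivity)]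
          apply ENNReal.ofReal_le_ofReal
          have : ((k : ℝ) / n) ^ (-(3 / 4) : ℝ) = ((n : ℝ) / k) ^ ((3 / 4) : ℝ) := by
            rw [Real.rpow_neg (by positivity), ← Real.inv_rpow (by positivity), inv_div]
          rw [this]
          linarith

end Pool.Agent.R132.CM
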