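import Pool.Agent.R132.CM.Defs

set_option autoImplicit false

open MeasureTheory ProbabilityTheory Filter Topology Set unitInterval
open scoped ENNReal NNReal

namespace Pool.Agent.R132.CM

theorem LONE_one (hG : StGRID) (hS : StSUM3) : StONE := by
  intro n m j hn hj hjm Ω _ P _ ξ hξ f hf
  obtain ⟨P', ζ, hP', hζ⟩ := hS.1 (1 / (n : ℝ))
  obtain ⟨j', rfl⟩ : ∃ j', j = j' + 1 := ⟨j - 1, by omega⟩
  have hm : 1 ≤ m := by omega
  have hj' : j' < m := by omega
  have hΦ : Measurable (fun y : Fin m → ℝ => f (y ⟨j', hj'⟩)) :=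
    hf.comp (measurable_pi_apply _)
  have h1 := hG n m hn hm Ω (ℕ → E3) P P' ξ ζ hξ hζ (fun y : Fin m → ℝ => f (y ⟨j', hj'⟩)) hΦ
  have h2 := hS.2 n hn (ℕ → E3) P' ζ hζ (Finset.range (j' + 1))
  rw [Finset.card_range] at h2
  have hmeas : Measurable (fun ω => ∑ l ∈ Finset.range (j' + 1), ζ l ω) :=
    Finset.measurable_sum _ (fun l _ => hζ.meas l)
  have hfn : Measurable (fun z : E3 => f ‖z‖) := hf.comp measurable_norm
  rw [← h2, lintegral_map hfn hmeas]
  exact h1.symm

theorem l_one : StGRID → StSUM3 → StMOM → StONE ∧ StMEAN := by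
  intro hG hS hM
  have hone := LONE_one hG hS
  refine ⟨hone, ?_⟩
  intro c n hc hn Ω _ P _ ξ hξ
  have hf : Measurable (fun y : ℝ => ENNReal.ofReal (rho c y)) := by
    unfold rho
    fun_prop
  have h1 := hone n n n hn hn (le_refl n) Ω P ξ hξ (fun y => ENNReal.ofReal (rho c y)) hf
  have hrho : ∀ y : ℝ, 0 ≤ rho c y := by
    intro y
    unfold rho
    rw [pow_mul]
    positivity
  have h2 : ∀ ω, ENNReal.ofReal (g c n (fun l => ξ l ω)) =
      ENNReal.ofReal (rho c (S (fun l => ξ l ω) n)) *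
        ENNReal.ofReal (G n n (fun l => ξ l ω)) := by
    intro ω
    unfold g
    rw [ENNReal.ofReal_mul' (hrho _), mul_comm]
  rw [lintegral_congr h2, h1]
  have hn0 : (n : ℝ) ≠ 0 := by
    have : 0 < n := hn
    positivity
  rw [div_self hn0]
  interval_cases c
  · have hprob : IsProbabilityMeasure (gam3 1) := by
      obtain ⟨P', ζ, hP', hζ⟩ := hS.1 (1 / ((1 : ℕ) : ℝ))
      have h3 := hS.2 1 (le_refl 1) (ℕ → E3) P' ζ hζ (Finset.range 1)
      have hmeas : Measurable (fun ω => ∑ l ∈ Finset.range 1, ζ l ω) :=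
        Finset.measurable_sum _ (fun l _ => hζ.meas l)
      have h4 : gam3 1 = P'.map (fun ω => ∑ l ∈ Finset.range 1, ζ l ω) := by
        rw [h3]
        norm_num
      rw [h4]
      exact Measure.isProbabilityMeasure_map hmeas.aemeasurable
    simp [rho]
  · have h5 := (hM 1 one_pos).1
    simpa [rho] using h5

end Pool.Agent.R132.CM
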