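import Mathlib
import Pool.Agent.R132.CM.Defs

/-!
# CM-P1: probability that a given label minimises `u/w` (subtask 5102, helper55)
-/

set_option autoImplicit false

open MeasureTheory ProbabilityTheory Filter Topology Set unitInterval
open scoped ENNReal NNReal

namespace Pool.Agent.R132.CM.LP1

lemma ex_def : ex = (volume : Measure ℝ).withDensity (exponentialPDF 1) := rfl

lemma meas_pdf : Measurable (exponentialPDF 1) :=
  (measurable_exponentialPDFReal 1).ennreal_ofReal

lemma pdf_nonneg {u : ℝ} (hu : 0 ≤ u) :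
    exponentialPDF 1 u = ENNReal.ofReal (Real.exp (-u)) := by
  rw [exponentialPDF_of_nonneg hu]
  simp

lemma lint_ex (f : ℝ → ℝ≥0∞) (hf : Measurable f) :
    ∫⁻ u, f u ∂ex = ∫⁻ u in Ioi (0 : ℝ), ENNReal.ofReal (Real.exp (-u)) * f u := by
  rw [ex_def, lintegral_withDensity_eq_lintegral_mul _ meas_pdf hf]
  rw [setLIntegral_congr Ioi_ae_eq_Ici, ← lintegral_indicator measurableSet_Ici]
  refine lintegral_congr fun u => ?_
  by_cases hu : 0 ≤ u
  · rw [indicator_of_mem (by exact hu), Pi.mul_apply, pdf_nonneg hu]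
  · rw [indicator_of_notMem (by exact hu), Pi.mul_apply, exponentialPDF_of_neg (not_le.1 hu),
      zero_mul]

lemma lint_exp (c : ℝ) (hc : 0 < c) (a : ℝ) :
    ∫⁻ u in Ioi a, ENNReal.ofReal (Real.exp (-(c * u))) =
      ENNReal.ofReal (Real.exp (-(c * a)) / c) := by
  have h1 := integral_exp_mul_Ioi (a := -c) (by linarith) a
  have h2 := integrableOn_exp_mul_Ioi (a := -c) (by linarith) a
  have h3 : ∀ u : ℝ, Real.exp (-(c * u)) = Real.exp (-c * u) := fun u => by
    congr 1; ring
  simp_rw [h3]
  rw [← ofReal_integral_eq_lintegral_ofReal h2 (Eventually.of_forall fun u => (Real.exp_pos _).le),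
    h1]
  congr 1
  rw [neg_div, div_neg, neg_neg]

lemma ex_Ioi (a : ℝ) (ha : 0 ≤ a) : ex (Ioi a) = ENNReal.ofReal (Real.exp (-a)) := by
  rw [ex_def, withDensity_apply _ measurableSet_Ioi]
  have h := lint_exp 1 one_pos a
  simp only [one_mul, div_one] at h
  rw [← h]
  refine setLIntegral_congr_fun measurableSet_Ioi fun u hu => ?_
  exact pdf_nonneg (ha.trans (le_of_lt hu))

end Pool.Agent.R132.CM.LP1

namespace Pool.Agent.R132.CM

open LP1

/-- CM-P1 -/
theorem l_p1 : StP1 := by
  intro M w hw l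
  obtain ⟨m, rfl⟩ : ∃ m, M = m + 1 := ⟨M - 1, by have := l.2; omega⟩
  have : IsProbabilityMeasure ex := isProbabilityMeasure_expMeasure one_pos
  have mp := measurePreserving_piFinSuccAbove (fun _ : Fin (m + 1) => ex) l
  set T : Set (ℝ × (Fin m → ℝ)) := {p | ∀ j, p.1 * w (l.succAbove j) < p.2 j * w l} with hTdef
  have hT : MeasurableSet T := by
    have : T = ⋂ j : Fin m, {p : ℝ × (Fin m → ℝ) | p.1 * w (l.succAbove j) < p.2 j * w l} := by
      ext p; simp [hTdef]
    rw [this]
    refine MeasurableSet.iInter fun j => ?_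
    exact measurableSet_lt (measurable_fst.mul_const _)
      (((measurable_pi_apply j).comp measurable_snd).mul_const _)
  have hpre : AA w l = (MeasurableEquiv.piFinSuccAbove (fun _ => ℝ) l) ⁻¹' T := by
    ext u
    constructor
    · intro h j
      exact h _ (Fin.succAbove_ne l j)
    · intro h j hj
      obtain ⟨i, rfl⟩ := Fin.exists_succAbove_eq hj
      exact h i
  rw [hpre, mp.measure_preimage hT.nullMeasurableSet, Measure.prod_apply hT]
  rw [lint_ex _ (measurable_measure_prodMk_left hT)]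
  have hwl : 0 < w l := hw l
  set c : ℝ := 1 + ∑ j : Fin m, w (l.succAbove j) / w l with hc
  have hc0 : 0 < c := by
    have : 0 ≤ ∑ j : Fin m, w (l.succAbove j) / w l :=
      Finset.sum_nonneg fun j _ => (div_pos (hw _) hwl).le
    linarith
  have key : ∫⁻ u in Ioi (0 : ℝ), ENNReal.ofReal (Real.exp (-u)) *
      (Measure.pi fun j : Fin m => ex) (Prod.mk u ⁻¹' T) =
      ∫⁻ u in Ioi (0 : ℝ), ENNReal.ofReal (Real.exp (-(c * u))) := by
    refine setLIntegral_congr_fun measurableSet_Ioi fun u hu => ?_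
    have hu0 : 0 < u := hu
    have hset : Prod.mk u ⁻¹' T = Set.pi univ fun j : Fin m => Ioi (u * w (l.succAbove j) / w l) := by
      ext v
      simp only [hTdef, mem_preimage, mem_ofPred_eq, Set.mem_pi, mem_univ, forall_true_left, mem_Ioi]
      refine forall_congr' fun j => ?_
      rw [div_lt_iff₀ hwl]
    rw [hset, Measure.pi_pi]
    have h2 : ∀ j : Fin m, ex (Ioi (u * w (l.succAbove j) / w l)) =
        ENNReal.ofReal (Real.exp (-(u * w (l.succAbove j) / w l))) := fun j =>
      ex_Ioi _ (div_nonneg (mul_nonneg hu0.le (hw _).le) hwl.le)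
    simp_rw [h2]
    rw [← ENNReal.ofReal_prod_of_nonneg (fun j _ => (Real.exp_pos _).le),
      ← ENNReal.ofReal_mul (Real.exp_pos _).le, ← Real.exp_sum, ← Real.exp_add]
    congr 2
    rw [hc, Finset.sum_neg_distrib, add_mul, Finset.sum_mul]
    have : ∀ j : Fin m, u * w (l.succAbove j) / w l = w (l.succAbove j) / w l * u := fun j => by
      ring
    simp_rw [this]
    ring
  refine key.trans ?_
  rw [lint_exp c hc0 0]
  congr 1
  rw [Fin.sum_univ_succAbove _ l, hc, ← Finset.sum_div]
  field_simp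
  simp

end Pool.Agent.R132.CM
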