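import Pool.Agent.R132.CM.Defs

/-! Project CM, piece P2 (helper208). -/

set_option autoImplicit false

open MeasureTheory ProbabilityTheory Filter Topology Set
open scoped ENNReal NNReal

namespace Pool.Agent.R132.CM

namespace P2x

theorem exprob : IsProbabilityMeasure ex := isProbabilityMeasure_expMeasure one_pos

theorem ex_Iic (t : ℝ) (ht : 0 ≤ t) : ex (Iic t) = ENNReal.ofReal (1 - Real.exp (-t)) := by
  have := exprob
  rw [← ofReal_cdf ex t]
  unfold ex
  rw [cdf_expMeasure_eq one_pos, if_pos ht, one_mul]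

theorem ex_Ioi (t : ℝ) (ht : 0 ≤ t) : ex (Ioi t) = ENNReal.ofReal (Real.exp (-t)) := by
  have := exprob
  have h : ex (Ioi t) = 1 - ex (Iic t) := by
    rw [← compl_Iic, prob_compl_eq_one_sub measurableSet_Iic]
  have h1 : Real.exp (-t) ≤ 1 := Real.exp_le_one_iff.mpr (by linarith)
  rw [h, ex_Iic t ht, ← ENNReal.ofReal_one, ← ENNReal.ofReal_sub _ (by linarith)]
  congr 1
  ring

theorem ex_Iio (t : ℝ) (ht : 0 ≤ t) : ex (Iio t) ≤ ENNReal.ofReal t := by
  refine (measure_mono Iio_subset_Iic_self).trans ?_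
  rw [ex_Iic t ht]
  refine ENNReal.ofReal_le_ofReal ?_
  have := Real.add_one_le_exp (-t)
  linarith

theorem ex_nonneg : ∀ᵐ s ∂ex, 0 ≤ s := by
  have h : ex (Iio 0) = 0 := by
    refine le_antisymm ((ex_Iio 0 le_rfl).trans ?_) bot_le
    simp
  rw [ae_iff]
  convert h using 2
  ext s
  simp

theorem int_ex (c : ℝ) (hc : 0 ≤ c) :
    ∫⁻ s, ENNReal.ofReal s * ENNReal.ofReal (Real.exp (-(s * c))) ∂ex =
      ENNReal.ofReal ((1 / (1 + c)) ^ 2) := by
  have hm : Measurable fun s : ℝ => ENNReal.ofReal s * ENNReal.ofReal (Real.exp (-(s * c))) := by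
    fun_prop
  have hg : Measurable (gammaPDF 1 1) := (measurable_gammaPDFReal 1 1).ennreal_ofReal
  unfold ex expMeasure gammaMeasure
  rw [lintegral_withDensity_eq_lintegral_mul _ hg hm]
  have hpt : ∀ s : ℝ, (gammaPDF 1 1 * fun s : ℝ => ENNReal.ofReal s *
      ENNReal.ofReal (Real.exp (-(s * c)))) s =
      ENNReal.ofReal ((1 / (1 + c)) ^ 2) * gammaPDF 2 (1 + c) s := by
    intro s
    rw [Pi.mul_apply]
    rcases lt_or_ge s 0 with hs | hs
    · rw [gammaPDF_of_neg hs, gammaPDF_of_neg hs, zero_mul, mul_zero]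
    · rw [gammaPDF_of_nonneg hs, gammaPDF_of_nonneg hs, ← ENNReal.ofReal_mul hs,
        ← ENNReal.ofReal_mul (by positivity), ← ENNReal.ofReal_mul (by positivity)]
      congr 1
      have h2 : Real.Gamma 2 = 1 := Real.Gamma_two
      have h3 : (2 : ℝ) - 1 = 1 := by norm_num
      rw [h2, h3, Real.Gamma_one, sub_self, Real.rpow_zero, Real.rpow_one, Real.rpow_one]
      have h4 : ((1 : ℝ) + c) ^ (2 : ℝ) = (1 + c) ^ 2 := by
        rw [← Real.rpow_natCast]; norm_num
      have h5 : Real.exp (-((1 + c) * s)) = Real.exp (-(1 * s)) * Real.exp (-(s * c)) := by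
        rw [← Real.exp_add]; congr 1; ring
      rw [h4, h5]
      have h6 : (1 + c) ≠ 0 := by positivity
      field_simp
  simp_rw [hpt]
  have hg2 : Measurable (gammaPDF 2 (1 + c)) := (measurable_gammaPDFReal 2 (1 + c)).ennreal_ofReal
  rw [lintegral_const_mul _ hg2, lintegral_gammaPDF_eq_one (by norm_num) (by positivity), mul_one]

end P2x

open P2x in
theorem l_p2 : StP2 := by
  have := exprob
  intro M w hw l j hjl
  obtain _ | N := M
  · exact l.elim0
  obtain ⟨j', rfl⟩ := Fin.exists_succAbove_eq hjl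
  set e := MeasurableEquiv.piFinSuccAbove (fun _ : Fin (N + 1) => ℝ) l with he
  have hmp := measurePreserving_piFinSuccAbove (fun _ : Fin (N + 1) => ex) l
  have hwl := hw l
  set A : ℝ → Fin N → Set ℝ := fun s i =>
    if i = j' then Iio s else Ioi (s * (w (l.succAbove i) / w l)) with hA
  set T : Set (ℝ × (Fin N → ℝ)) := {p | ∀ i, p.2 i ∈ A p.1 i} with hT
  have hTm : MeasurableSet T := by
    have : T = ⋂ i, {p : ℝ × (Fin N → ℝ) | p.2 i ∈ A p.1 i} := by
      ext p; simp [hT]
    rw [this]
    refine MeasurableSet.iInter fun i => ?_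
    simp only [hA]
    split_ifs with h
    · simp only [mem_Iio]
      exact measurableSet_lt (by fun_prop) (by fun_prop)
    · simp only [mem_Ioi]
      exact measurableSet_lt (by fun_prop) (by fun_prop)
  have hsub : AA w l ∩ {u | u (l.succAbove j') < u l} ⊆ e ⁻¹' T := by
    rintro u ⟨hu1, hu2⟩
    show ∀ i, (e u).2 i ∈ A (e u).1 i
    intro i
    have e1 : (e u).1 = u l := rfl
    have e2 : (e u).2 i = u (l.succAbove i) := rfl
    rw [e1, e2]
    simp only [hA]
    split_ifs with h
    · subst h; exact hu2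
    · have h1 := hu1 (l.succAbove i) (Fin.succAbove_ne l i)
      rw [mem_Ioi, ← mul_div_assoc, div_lt_iff₀ hwl]
      exact h1
  set c : ℝ := ∑ i ∈ Finset.univ.erase j', w (l.succAbove i) / w l with hc
  have hc0 : 0 ≤ c := Finset.sum_nonneg fun i _ => (div_pos (hw _) hwl).le
  calc (Measure.pi (fun _ : Fin (N + 1) => ex)) (AA w l ∩ {u | u (l.succAbove j') < u l})
      ≤ (Measure.pi (fun _ : Fin (N + 1) => ex)) (e ⁻¹' T) := measure_mono hsub
    _ = (ex.prod (Measure.pi fun _ : Fin N => ex)) T :=
        hmp.measure_preimage hTm.nullMeasurableSet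
    _ = ∫⁻ s, (Measure.pi fun _ : Fin N => ex) (Prod.mk s ⁻¹' T) ∂ex := Measure.prod_apply hTm
    _ = ∫⁻ s, ∏ i, ex (A s i) ∂ex := by
        refine lintegral_congr fun s => ?_
        have : Prod.mk s ⁻¹' T = Set.univ.pi (A s) := by
          ext v; simp [hT]
        rw [this, Measure.pi_pi]
    _ ≤ ∫⁻ s, ENNReal.ofReal s * ENNReal.ofReal (Real.exp (-(s * c))) ∂ex := by
        refine lintegral_mono_ae ?_
        filter_upwards [ex_nonneg] with s hs
        rw [← Finset.mul_prod_erase Finset.univ (fun i => ex (A s i)) (Finset.mem_univ j')]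
        refine mul_le_mul' ?_ (le_of_eq ?_)
        · simp only [hA, if_true]
          exact ex_Iio s hs
        · have h1 : ∀ i ∈ Finset.univ.erase j', ex (A s i) =
              ENNReal.ofReal (Real.exp (-(s * (w (l.succAbove i) / w l)))) := by
            intro i hi
            have hne : i ≠ j' := Finset.ne_of_mem_erase hi
            simp only [hA, if_neg hne]
            exact ex_Ioi _ (mul_nonneg hs (div_pos (hw _) hwl).le)
          rw [Finset.prod_congr rfl h1, ← ENNReal.ofReal_prod_of_nonneg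
            (fun i _ => (Real.exp_pos _).le), ← Real.exp_sum, hc, Finset.mul_sum,
            Finset.sum_neg_distrib]
    _ = ENNReal.ofReal ((1 / (1 + c)) ^ 2) := int_ex c hc0
    _ = ENNReal.ofReal ((w l / ∑ i ∈ Finset.univ.erase (l.succAbove j'), w i) ^ 2) := by
        congr 2
        have h1 : ∑ i ∈ Finset.univ.erase (l.succAbove j'), w i =
            w l + ∑ i ∈ Finset.univ.erase j', w (l.succAbove i) := by
          have h2 := Finset.add_sum_erase Finset.univ w (Finset.mem_univ (l.succAbove j'))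
          have h3 := Finset.add_sum_erase Finset.univ (fun i => w (l.succAbove i))
            (Finset.mem_univ j')
          have h4 := Fin.sum_univ_succAbove w l
          linarith
        have h5 : 1 + c = (w l + ∑ i ∈ Finset.univ.erase j', w (l.succAbove i)) / w l := by
          rw [hc, ← Finset.sum_div, add_div, div_self hwl.ne']
        rw [h1, h5, one_div_div]

end Pool.Agent.R132.CM
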