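import Mathlib
import Pool.Agent.R132.CM.Defs

/-!
CM-P4 (MP_0f8574_pr): an estimate for the selection lemma.
-/

set_option autoImplicit false

open MeasureTheory ProbabilityTheory Filter Topology Set
open scoped ENNReal NNReal

namespace Pool.Agent.R132.CM

namespace P4x

/-- the estimate for one pair -/
theorem one {E : Type} [MeasurableSpace E] (μ : Measure E) [IsProbabilityMeasure μ]
    (w : E → ℝ) (C δ : ℝ) (hC : 1 ≤ C) (hδ : 0 < δ) (hw : Measurable w) (hwδ : ∀ x, δ ≤ w x)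
    (h1 : ∫⁻ x, ENNReal.ofReal (w x) ∂μ = 1)
    (h2 : ∫⁻ x, ENNReal.ofReal (w x) ^ 2 ∂μ ≤ ENNReal.ofReal C) (M : ℕ) (hM : 4 ≤ M)
    (l j : Fin M) (hjl : j ≠ l) :
    ∫⁻ β, ENNReal.ofReal ((w (β l) / ∑ i ∈ Finset.univ.erase j, w (β i)) ^ 2)
      ∂(Measure.pi (fun _ : Fin M => μ)) ≤
      ENNReal.ofReal (C * (4 / ((M : ℝ) - 2) ^ 2 +
        4 * C / ((M : ℝ) - 2) * (1 / (((M : ℝ) - 2) * δ) ^ 2))) := by
  have hn2 : (2 : ℝ) ≤ (M : ℝ) - 2 := by
    have : (4 : ℝ) ≤ M := by exact_mod_cast hM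
    linarith
  set n : ℝ := (M : ℝ) - 2 with hn
  have hwpos : ∀ x, 0 < w x := fun x => hδ.trans_le (hwδ x)
  have hw2 : Integrable (fun x => w x ^ 2) μ := by
    refine ⟨(hw.pow_const 2).aestronglyMeasurable, ?_⟩
    rw [hasFiniteIntegral_iff_ofReal (Eventually.of_forall fun x => sq_nonneg _)]
    refine lt_of_le_of_lt ?_ (lt_of_le_of_lt h2 ENNReal.ofReal_lt_top)
    refine le_of_eq (lintegral_congr fun x => ?_)
    rw [ENNReal.ofReal_pow (hwpos x).le]
  have hmem : MemLp w 2 μ := (memLp_two_iff_integrable_sq hw.aestronglyMeasurable).2 hw2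
  have hint1 : ∫ x, w x ∂μ = 1 := by
    rw [integral_eq_lintegral_of_nonneg_ae (Eventually.of_forall fun x => (hwpos x).le)
      hw.aestronglyMeasurable, h1, ENNReal.toReal_one]
  have hint2 : ∫ x, w x ^ 2 ∂μ ≤ C := by
    rw [integral_eq_lintegral_of_nonneg_ae (Eventually.of_forall fun x => sq_nonneg _)
      (hw.pow_const 2).aestronglyMeasurable]
    refine ENNReal.toReal_le_of_le_ofReal (by linarith) ?_
    refine le_trans (le_of_eq (lintegral_congr fun x => ?_)) h2
    rw [ENNReal.ofReal_pow (hwpos x).le]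
  set P := Measure.pi (fun _ : Fin M => μ) with hP
  set X : Fin M → (Fin M → E) → ℝ := fun i β => w (β i) with hX
  have hXm : ∀ i, Measurable (X i) := fun i => hw.comp (measurable_pi_apply i)
  have hmp : ∀ i, MeasurePreserving (fun β : Fin M → E => β i) P μ :=
    fun i => measurePreserving_eval (fun _ : Fin M => μ) i
  have hind : iIndepFun X P := iIndepFun_pi (X := fun _ : Fin M => w) (fun _ => hw.aemeasurable)
  have hXmem : ∀ i, MemLp (X i) 2 P := fun i => hmem.comp_measurePreserving (hmp i)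
  have hXE : ∀ i, ∫ β, X i β ∂P = 1 := by
    intro i
    have h3 := integral_map (hmp i).measurable.aemeasurable (f := w)
      (by rw [(hmp i).map_eq]; exact hw.aestronglyMeasurable)
    rw [(hmp i).map_eq, hint1] at h3
    exact h3.symm
  have hXV : ∀ i, variance (X i) P ≤ C := by
    intro i
    refine (variance_le_expectation_sq (hXm i).aestronglyMeasurable).trans ?_
    have h3 := integral_map (hmp i).measurable.aemeasurable (f := fun x => w x ^ 2)
      (by rw [(hmp i).map_eq]; exact (hw.pow_const 2).aestronglyMeasurable)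
    rw [(hmp i).map_eq] at h3
    have h4 : ∫ β, (X i ^ 2) β ∂P = ∫ x, w x ^ 2 ∂μ := h3.symm
    rw [h4]
    exact hint2
  set s : Finset (Fin M) := (Finset.univ.erase j).erase l with hs
  have hscard : (s.card : ℝ) = n := by
    have h3 : l ∈ (Finset.univ : Finset (Fin M)).erase j :=
      Finset.mem_erase.2 ⟨hjl.symm, Finset.mem_univ _⟩
    rw [hs, Finset.card_erase_of_mem h3, Finset.card_erase_of_mem (Finset.mem_univ _),
      Finset.card_univ, Fintype.card_fin, hn]
    rw [Nat.sub_sub, Nat.cast_sub (by omega)]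
    norm_num
  have hls : l ∉ s := Finset.notMem_erase _ _
  set T : (Fin M → E) → ℝ := ∑ i ∈ s, X i with hT
  have hTapp : ∀ β, T β = ∑ i ∈ s, w (β i) := by
    intro β
    rw [hT, Finset.sum_apply]
  have hTm : Measurable T := by
    have e : T = fun β => ∑ i ∈ s, X i β := funext fun β => hTapp β
    rw [e]
    exact Finset.measurable_sum _ fun i _ => hXm i
  have hTmem : MemLp T 2 P := memLp_finsetSum' _ fun i _ => hXmem i
  have hTE : ∫ β, T β ∂P = n := by
    simp only [hTapp]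
    rw [integral_finsetSum _ fun i _ => (hXmem i).integrable one_le_two]
    have : ∀ i ∈ s, ∫ β, X i β ∂P = 1 := fun i _ => hXE i
    rw [Finset.sum_congr rfl this, Finset.sum_const, nsmul_eq_mul, mul_one, hscard]
  have hTV : variance T P ≤ n * C := by
    rw [hT, IndepFun.variance_sum (fun i _ => hXmem i)
      (fun a _ b _ hab => hind.indepFun hab)]
    refine (Finset.sum_le_sum fun i _ => hXV i).trans ?_
    rw [Finset.sum_const, nsmul_eq_mul, hscard]
  have hTlow : ∀ β, n * δ ≤ T β := by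
    intro β
    rw [hTapp]
    calc n * δ = ∑ _i ∈ s, δ := by rw [Finset.sum_const, nsmul_eq_mul, hscard]
      _ ≤ ∑ i ∈ s, w (β i) := Finset.sum_le_sum fun i _ => hwδ _
  have hnδ : 0 < n * δ := by positivity
  have hTpos : ∀ β, 0 < T β := fun β => hnδ.trans_le (hTlow β)
  -- the bad event
  set Bd : Set (Fin M → E) := {β | n / 2 ≤ |T β - ∫ β, T β ∂P|} with hBd
  have hBdm : MeasurableSet Bd :=
    measurableSet_le measurable_const ((hTm.sub measurable_const).abs)
  have hBdP : P Bd ≤ ENNReal.ofReal (4 * C / n) := by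
    refine (meas_ge_le_variance_div_sq hTmem (show 0 < n / 2 by positivity)).trans ?_
    refine ENNReal.ofReal_le_ofReal ?_
    calc variance T P / (n / 2) ^ 2 ≤ n * C / (n / 2) ^ 2 := by gcongr
      _ = 4 * C / n := by
          field_simp
          ring
  have hTinv : ∫⁻ β, ENNReal.ofReal (1 / T β ^ 2) ∂P ≤
      ENNReal.ofReal (4 / n ^ 2 + 4 * C / n * (1 / (n * δ) ^ 2)) := by
    have h3 : ∀ β, ENNReal.ofReal (1 / T β ^ 2) ≤ ENNReal.ofReal (4 / n ^ 2) +
        Bd.indicator (fun _ => ENNReal.ofReal (1 / (n * δ) ^ 2)) β := by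
      intro β
      by_cases hβ : β ∈ Bd
      · rw [Set.indicator_of_mem hβ]
        refine le_trans (ENNReal.ofReal_le_ofReal ?_) le_add_self
        have := hTlow β
        gcongr
      · rw [Set.indicator_of_notMem hβ, add_zero]
        refine ENNReal.ofReal_le_ofReal ?_
        rw [hBd, Set.mem_ofPred_eq, not_le, hTE, abs_lt] at hβ
        have h4 : n / 2 ≤ T β := by linarith [hβ.1]
        calc 1 / T β ^ 2 ≤ 1 / (n / 2) ^ 2 := by gcongr
          _ = 4 / n ^ 2 := by
              field_simp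
              norm_num
    refine (lintegral_mono h3).trans ?_
    rw [lintegral_add_left measurable_const, lintegral_const, measure_univ, mul_one,
      lintegral_indicator_const hBdm, ENNReal.ofReal_add (by positivity) (by positivity)]
    refine add_le_add le_rfl ?_
    rw [mul_comm (4 * C / n), ENNReal.ofReal_mul (by positivity)]
    exact mul_le_mul_right hBdP _
  -- independence
  have hindT : IndepFun (X l) T P :=
    (hind.indepFun_finsetSum_of_notMem hXm hls).symm
  have hprod : ∫⁻ β, ENNReal.ofReal (X l β ^ 2) * ENNReal.ofReal (1 / T β ^ 2) ∂P =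
      (∫⁻ β, ENNReal.ofReal (X l β ^ 2) ∂P) * ∫⁻ β, ENNReal.ofReal (1 / T β ^ 2) ∂P := by
    have hf : Measurable (fun x : ℝ => ENNReal.ofReal (x ^ 2)) :=
      (measurable_id.pow_const 2).ennreal_ofReal
    have hg : Measurable (fun x : ℝ => ENNReal.ofReal (1 / x ^ 2)) :=
      (measurable_const.div (measurable_id.pow_const 2)).ennreal_ofReal
    exact lintegral_mul_eq_lintegral_mul_lintegral_of_indepFun''
      (hf.comp (hXm l)).aemeasurable (hg.comp hTm).aemeasurable (hindT.comp hf hg)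
  have hXl : ∫⁻ β, ENNReal.ofReal (X l β ^ 2) ∂P ≤ ENNReal.ofReal C := by
    have hf : Measurable (fun x : E => ENNReal.ofReal (w x ^ 2)) :=
      (hw.pow_const 2).ennreal_ofReal
    have h3 := (hmp l).lintegral_comp hf
    have h4 : ∫⁻ β, ENNReal.ofReal (X l β ^ 2) ∂P = ∫⁻ x, ENNReal.ofReal (w x ^ 2) ∂μ := h3
    rw [h4]
    refine le_trans (le_of_eq (lintegral_congr fun x => ?_)) h2
    rw [ENNReal.ofReal_pow (hwpos x).le]
  calc ∫⁻ β, ENNReal.ofReal ((w (β l) / ∑ i ∈ Finset.univ.erase j, w (β i)) ^ 2) ∂P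
      ≤ ∫⁻ β, ENNReal.ofReal (X l β ^ 2) * ENNReal.ofReal (1 / T β ^ 2) ∂P := by
        refine lintegral_mono fun β => ?_
        show ENNReal.ofReal ((w (β l) / ∑ i ∈ Finset.univ.erase j, w (β i)) ^ 2) ≤ _
        rw [← ENNReal.ofReal_mul (sq_nonneg _)]
        refine ENNReal.ofReal_le_ofReal ?_
        have h3 : T β ≤ ∑ i ∈ Finset.univ.erase j, w (β i) := by
          rw [hTapp]
          exact Finset.sum_le_sum_of_subset_of_nonneg (Finset.erase_subset _ _)
            (fun i _ _ => (hwpos _).le)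
        have h4 := hTpos β
        show (w (β l) / ∑ i ∈ Finset.univ.erase j, w (β i)) ^ 2 ≤ w (β l) ^ 2 * (1 / T β ^ 2)
        rw [div_pow, div_eq_mul_one_div]
        gcongr
    _ = (∫⁻ β, ENNReal.ofReal (X l β ^ 2) ∂P) * ∫⁻ β, ENNReal.ofReal (1 / T β ^ 2) ∂P := hprod
    _ ≤ ENNReal.ofReal C * ENNReal.ofReal (4 / n ^ 2 + 4 * C / n * (1 / (n * δ) ^ 2)) :=
        mul_le_mul' hXl hTinv
    _ = ENNReal.ofReal (C * (4 / n ^ 2 + 4 * C / n * (1 / (n * δ) ^ 2))) :=
        (ENNReal.ofReal_mul (by linarith)).symm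

end P4x

open P4x in
theorem l_p4 : StP4 := by
  intro E _ μ _ w C δ hC hδ hw hwδ h1 h2
  filter_upwards [eventually_ge_atTop 4, eventually_ge_atTop (⌈8 * C / δ ^ 2⌉₊ + 2)]
    with M hM4 hM8
  have hn2 : (2 : ℝ) ≤ (M : ℝ) - 2 := by
    have : (4 : ℝ) ≤ M := by exact_mod_cast hM4
    linarith
  have hn8 : 8 * C / δ ^ 2 ≤ (M : ℝ) - 2 := by
    have h3 : ((⌈8 * C / δ ^ 2⌉₊ + 2 : ℕ) : ℝ) ≤ M := by exact_mod_cast hM8
    push_cast at h3
    have h4 := Nat.le_ceil (8 * C / δ ^ 2)
    linarith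
  set b : ℝ := C * (4 / ((M : ℝ) - 2) ^ 2 +
        4 * C / ((M : ℝ) - 2) * (1 / (((M : ℝ) - 2) * δ) ^ 2)) with hb
  have hbpos : 0 ≤ b := by positivity
  have hsum : ∑ l : Fin M, ∑ j ∈ Finset.univ.erase l,
      ∫⁻ β, ENNReal.ofReal ((w (β l) / ∑ i ∈ Finset.univ.erase j, w (β i)) ^ 2)
      ∂(Measure.pi (fun _ : Fin M => μ)) ≤ ∑ l : Fin M, ∑ j ∈ Finset.univ.erase l,
        ENNReal.ofReal b := by
    refine Finset.sum_le_sum fun l _ => Finset.sum_le_sum fun j hj => ?_
    exact one μ w C δ hC hδ hw hwδ h1 h2 M hM4 l j (Finset.ne_of_mem_erase hj)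
  refine hsum.trans ?_
  have hcard : ∀ l : Fin M, ∑ j ∈ Finset.univ.erase l, ENNReal.ofReal b =
      ((M - 1 : ℕ) : ℝ≥0∞) * ENNReal.ofReal b := by
    intro l
    rw [Finset.sum_const, Finset.card_erase_of_mem (Finset.mem_univ _), Finset.card_univ,
      Fintype.card_fin, nsmul_eq_mul]
  simp only [hcard]
  rw [Finset.sum_const, Finset.card_univ, Fintype.card_fin, nsmul_eq_mul,
    ← ENNReal.ofReal_natCast (M - 1), ← ENNReal.ofReal_natCast M, ← ENNReal.ofReal_mul (by positivity),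
    ← ENNReal.ofReal_mul (by positivity)]
  refine ENNReal.ofReal_le_ofReal ?_
  rw [Nat.cast_sub (by omega), Nat.cast_one]
  set n : ℝ := (M : ℝ) - 2 with hn
  have hM : (M : ℝ) = n + 2 := by rw [hn]; ring
  have hM1 : (M : ℝ) - 1 = n + 1 := by rw [hn]; ring
  rw [hM1, hM]
  have hnpos : 0 < n := by linarith
  have h3 : (n + 2) * (n + 1) ≤ 4 * n ^ 2 := by nlinarith
  have h4 : b = C / n ^ 2 * (4 + 4 * C / (n * δ ^ 2)) := by
    rw [hb]
    field_simp
  have h5 : 4 * C / (n * δ ^ 2) ≤ 1 / 2 := by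
    rw [div_le_iff₀ (by positivity)]
    rw [div_le_iff₀ (by positivity)] at hn8
    linarith
  have hC0 : 0 < C := by linarith
  calc (n + 2) * ((n + 1) * b) = ((n + 2) * (n + 1)) * (C / n ^ 2 * (4 + 4 * C / (n * δ ^ 2))) := by
        rw [h4]
        ring
    _ ≤ (4 * n ^ 2) * (C / n ^ 2 * (4 + 1 / 2)) := by gcongr
    _ = 18 * C := by
        field_simp
        ring

end Pool.Agent.R132.CM
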