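import Pool.Agent.R132.CM.Defs

/-! Piece P5. -/

set_option autoImplicit false

open MeasureTheory ProbabilityTheory Filter Topology Set
open scoped ENNReal NNReal

namespace Pool.Agent.R132.CM

namespace LP5

theorem abs_mean_le {Ω : Type} [MeasurableSpace Ω] (P : Measure Ω) [IsProbabilityMeasure P]
    (Z : Ω → ℝ) (hZ : MemLp Z 2 P) : ∫ ω, |Z ω| ∂P ≤ Real.sqrt (∫ ω, Z ω ^ 2 ∂P) := by
  have h1 : MemLp (fun ω => |Z ω|) 2 P := hZ.abs
  have h2 := variance_nonneg (fun ω => |Z ω|) P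
  rw [variance_eq_sub h1] at h2
  apply Real.le_sqrt_of_sq_le
  have h3 : ∫ ω, ((fun ω => |Z ω|) ^ 2) ω ∂P = ∫ ω, Z ω ^ 2 ∂P := by
    congr 1
    ext ω
    simp [sq_abs]
  rw [h3] at h2
  linarith

theorem integral_ev {E : Type} [MeasurableSpace E] (μ : Measure E) [IsProbabilityMeasure μ]
    (M : ℕ) (l : Fin M) (f : E → ℝ) (hf : Measurable f) :
    ∫ β, f (β l) ∂(Measure.pi (fun _ : Fin M => μ)) = ∫ x, f x ∂μ := by
  have hmp := measurePreserving_eval (fun _ : Fin M => μ) l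
  have h := integral_map (μ := Measure.pi (fun _ : Fin M => μ)) (φ := Function.eval l)
    hmp.measurable.aemeasurable (f := f) hf.aestronglyMeasurable
  rw [hmp.map_eq] at h
  exact h.symm

theorem dev {E : Type} [MeasurableSpace E] (μ : Measure E) [IsProbabilityMeasure μ] (w : E → ℝ)
    (hw : Measurable w) (C : ℝ) (hL : MemLp w 2 μ) (h1 : ∫ x, w x ∂μ = 1)
    (h2 : ∫ x, w x ^ 2 ∂μ ≤ C) (M : ℕ) (hM : 1 ≤ M) :
    Integrable (fun β : Fin M → E => |(1 / (M : ℝ)) * ∑ l : Fin M, w (β l) - 1|)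
      (Measure.pi (fun _ : Fin M => μ)) ∧
    ∫ β, |(1 / (M : ℝ)) * ∑ l : Fin M, w (β l) - 1| ∂(Measure.pi (fun _ : Fin M => μ)) ≤
      Real.sqrt (C / M) := by
  have hM0 : (0 : ℝ) < M := by exact_mod_cast hM
  set π := Measure.pi (fun _ : Fin M => μ) with hπ
  set X : Fin M → (Fin M → E) → ℝ := fun l β => w (β l) with hX
  have hXL : ∀ l, MemLp (X l) 2 π := fun l =>
    hL.comp_measurePreserving (measurePreserving_eval _ l)
  have hind : iIndepFun X π := iIndepFun_pi (fun _ => hw.aemeasurable)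
  have hvar : ∀ l, Var[X l; π] ≤ C := by
    intro l
    rw [variance_eq_sub (hXL l)]
    have e1 : ∫ β, (X l ^ 2) β ∂π = ∫ x, w x ^ 2 ∂μ :=
      integral_ev μ M l (fun x => w x ^ 2) (hw.pow_const 2)
    rw [e1]
    nlinarith [sq_nonneg (∫ β, X l β ∂π)]
  have hsum : Var[∑ l, X l; π] = ∑ l, Var[X l; π] :=
    IndepFun.variance_sum (fun i _ => hXL i) (fun i _ j _ hij => hind.indepFun hij)
  have hsumle : Var[∑ l, X l; π] ≤ M * C := by
    rw [hsum]
    calc ∑ l, Var[X l; π] ≤ ∑ _l : Fin M, C := Finset.sum_le_sum (fun l _ => hvar l)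
      _ = M * C := by simp
  set Z : (Fin M → E) → ℝ := fun β => (1 / (M : ℝ)) * ∑ l : Fin M, w (β l) with hZ
  have hZeq : Z = fun β => (1 / (M : ℝ)) * (∑ l, X l) β := by
    ext β
    simp [hZ, hX, Finset.sum_apply]
  have hZvar : Var[Z; π] ≤ C / M := by
    rw [hZeq, variance_const_mul]
    calc (1 / (M : ℝ)) ^ 2 * Var[∑ l, X l; π] ≤ (1 / (M : ℝ)) ^ 2 * (M * C) :=
          mul_le_mul_of_nonneg_left hsumle (by positivity)
      _ = C / M := by field_simp
  have hZL : MemLp Z 2 π := by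
    rw [hZeq]
    exact (memLp_finsetSum' _ (fun i _ => hXL i)).const_mul _
  have hZmean : ∫ β, Z β ∂π = 1 := by
    have e1 : ∫ β, Z β ∂π = (1 / (M : ℝ)) * ∑ l : Fin M, ∫ β, w (β l) ∂π := by
      rw [← integral_finsetSum _ (fun l _ => (hXL l).integrable one_le_two),
        ← integral_const_mul]
    rw [e1]
    have e2 : ∀ l : Fin M, ∫ β, w (β l) ∂π = 1 := fun l => (integral_ev μ M l w hw).trans h1
    rw [Finset.sum_congr rfl (fun l _ => e2 l)]
    simp
    field_simp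
  have hZ1L : MemLp (fun β => Z β - 1) 2 π := hZL.sub (memLp_const 1)
  refine ⟨(hZ1L.integrable one_le_two).abs, (abs_mean_le π _ hZ1L).trans ?_⟩
  apply Real.sqrt_le_sqrt
  rw [variance_eq_integral hZL.aestronglyMeasurable.aemeasurable, hZmean] at hZvar
  exact hZvar

theorem pointwise (M : ℕ) (hM : 1 ≤ M) (w : Fin M → ℝ) (hw : ∀ l, 0 < w l) (F : Fin M → ℝ≥0∞)
    (hF : ∀ l, F l ≤ 1) :
    ∑ l, ENNReal.ofReal (1 / (M : ℝ)) * (ENNReal.ofReal (w l) * F l) ≤
      ∑ l, ENNReal.ofReal (w l / ∑ j, w j) * F l +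
        ENNReal.ofReal |(1 / (M : ℝ)) * ∑ l, w l - 1| := by
  have hM0 : (0 : ℝ) < M := by exact_mod_cast hM
  set f : Fin M → ℝ := fun l => (F l).toReal with hf
  have hFf : ∀ l, F l = ENNReal.ofReal (f l) := fun l =>
    (ENNReal.ofReal_toReal ((hF l).trans_lt ENNReal.one_lt_top).ne).symm
  have hf0 : ∀ l, 0 ≤ f l := fun l => ENNReal.toReal_nonneg
  have hf1 : ∀ l, f l ≤ 1 := fun l => by
    have := ENNReal.toReal_mono ENNReal.one_ne_top (hF l)
    simpa using this
  have hne : Nonempty (Fin M) := ⟨⟨0, hM⟩⟩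
  set s : ℝ := ∑ j, w j with hs
  have hs0 : 0 < s := Finset.sum_pos (fun l _ => hw l) Finset.univ_nonempty
  set a : ℝ := ∑ l, w l * f l with ha
  have ha0 : 0 ≤ a := Finset.sum_nonneg (fun l _ => mul_nonneg (hw l).le (hf0 l))
  have has : a ≤ s := Finset.sum_le_sum (fun l _ => by
    calc w l * f l ≤ w l * 1 := mul_le_mul_of_nonneg_left (hf1 l) (hw l).le
      _ = w l := mul_one _)
  have e1 : ∑ l, ENNReal.ofReal (1 / (M : ℝ)) * (ENNReal.ofReal (w l) * F l) =
      ENNReal.ofReal ((1 / (M : ℝ)) * a) := by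
    rw [ha, Finset.mul_sum, ENNReal.ofReal_sum_of_nonneg
      (fun l _ => mul_nonneg (by positivity) (mul_nonneg (hw l).le (hf0 l)))]
    refine Finset.sum_congr rfl (fun l _ => ?_)
    rw [hFf l, ← ENNReal.ofReal_mul (hw l).le, ← ENNReal.ofReal_mul (by positivity)]
  have e2 : ∑ l, ENNReal.ofReal (w l / s) * F l = ENNReal.ofReal (a / s) := by
    rw [ha, Finset.sum_div, ENNReal.ofReal_sum_of_nonneg
      (fun l _ => div_nonneg (mul_nonneg (hw l).le (hf0 l)) hs0.le)]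
    refine Finset.sum_congr rfl (fun l _ => ?_)
    rw [hFf l, ← ENNReal.ofReal_mul (div_nonneg (hw l).le hs0.le)]
    congr 1
    ring
  rw [e1, e2, ← ENNReal.ofReal_add (div_nonneg ha0 hs0.le) (abs_nonneg _)]
  apply ENNReal.ofReal_le_ofReal
  have h1 : (1 / (M : ℝ)) * a - a / s = (a / s) * ((1 / (M : ℝ)) * s - 1) := by
    field_simp
  have h2 : 0 ≤ a / s := div_nonneg ha0 hs0.le
  have h3 : a / s ≤ 1 := (div_le_one hs0).2 has
  have h4 : (a / s) * ((1 / (M : ℝ)) * s - 1) ≤ |(1 / (M : ℝ)) * s - 1| := by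
    calc (a / s) * ((1 / (M : ℝ)) * s - 1) ≤ (a / s) * |(1 / (M : ℝ)) * s - 1| :=
          mul_le_mul_of_nonneg_left (le_abs_self _) h2
      _ ≤ 1 * |(1 / (M : ℝ)) * s - 1| := mul_le_mul_of_nonneg_right h3 (abs_nonneg _)
      _ = _ := one_mul _
  linarith

end LP5

open LP5 in
theorem l_p5 : StP5 := by
  intro E _ μ _ w C hC hw hw0 h1 h2 M hM F hF hF1
  have hM0 : (0 : ℝ) < M := by exact_mod_cast hM
  have hofsq : ∀ x, ENNReal.ofReal (w x ^ 2) = ENNReal.ofReal (w x) ^ 2 :=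
    fun x => ENNReal.ofReal_pow (hw0 x).le 2
  have hsqi : Integrable (fun x => w x ^ 2) μ := by
    refine ⟨(hw.pow_const 2).aestronglyMeasurable, ?_⟩
    rw [hasFiniteIntegral_iff_ofReal (Filter.Eventually.of_forall (fun x => sq_nonneg _))]
    simp_rw [hofsq]
    exact h2.trans_lt ENNReal.ofReal_lt_top
  have hL : MemLp w 2 μ := (memLp_two_iff_integrable_sq hw.aestronglyMeasurable).2 hsqi
  have hmean : ∫ x, w x ∂μ = 1 := by
    rw [integral_eq_lintegral_of_nonneg_ae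
      (Filter.Eventually.of_forall (fun x => (hw0 x).le)) hw.aestronglyMeasurable, h1]
    simp
  have hsq : ∫ x, w x ^ 2 ∂μ ≤ C := by
    rw [integral_eq_lintegral_of_nonneg_ae (Filter.Eventually.of_forall (fun x => sq_nonneg _))
      (hw.pow_const 2).aestronglyMeasurable]
    simp_rw [hofsq]
    exact ENNReal.toReal_le_of_le_ofReal (by linarith) h2
  obtain ⟨hdi, hdv⟩ := dev μ w hw C hL hmean hsq M hM
  set π := Measure.pi (fun _ : Fin M => μ) with hπ
  have hm1 : Measurable (fun x => ENNReal.ofReal (w x) * F x) := hw.ennreal_ofReal.mul hF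
  have hm2 : ∀ l : Fin M, Measurable
      (fun β : Fin M → E => ENNReal.ofReal (w (β l)) * F (β l)) := by
    intro l
    have h : Measurable (fun β : Fin M → E => β l) := measurable_pi_apply l
    exact hm1.comp h
  have hl : ∫⁻ β : Fin M → E, ∑ l : Fin M, ENNReal.ofReal (1 / (M : ℝ)) *
      (ENNReal.ofReal (w (β l)) * F (β l)) ∂π = ∫⁻ x, ENNReal.ofReal (w x) * F x ∂μ := by
    rw [lintegral_finsetSum]
    · have e1 : ∀ l : Fin M, ∫⁻ β : Fin M → E, ENNReal.ofReal (1 / (M : ℝ)) *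
          (ENNReal.ofReal (w (β l)) * F (β l)) ∂π =
          ENNReal.ofReal (1 / (M : ℝ)) * ∫⁻ x, ENNReal.ofReal (w x) * F x ∂μ := by
        intro l
        rw [lintegral_const_mul _ (hm2 l)]
        congr 1
        exact (measurePreserving_eval (fun _ : Fin M => μ) l).lintegral_comp hm1
      rw [Finset.sum_congr rfl (fun l _ => e1 l), Finset.sum_const, Finset.card_univ,
        Fintype.card_fin, nsmul_eq_mul, ← mul_assoc]
      have e2 : (M : ℝ≥0∞) * ENNReal.ofReal (1 / (M : ℝ)) = 1 := by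
        rw [← ENNReal.ofReal_natCast, ← ENNReal.ofReal_mul (Nat.cast_nonneg M)]
        rw [mul_one_div_cancel hM0.ne', ENNReal.ofReal_one]
      rw [e2, one_mul]
    · intro l _
      exact (hm2 l).const_mul _
  rw [← hl]
  have hpt : ∀ β : Fin M → E, ∑ l : Fin M, ENNReal.ofReal (1 / (M : ℝ)) *
      (ENNReal.ofReal (w (β l)) * F (β l)) ≤
      ∑ l : Fin M, ENNReal.ofReal (w (β l) / ∑ j, w (β j)) * F (β l) +
        ENNReal.ofReal |(1 / (M : ℝ)) * ∑ l : Fin M, w (β l) - 1| :=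
    fun β => pointwise M hM (fun l => w (β l)) (fun l => hw0 _) (fun l => F (β l)) (fun l => hF1 _)
  refine (lintegral_mono hpt).trans ?_
  rw [lintegral_add_right']
  · refine add_le_add le_rfl ?_
    rw [← ofReal_integral_eq_lintegral_ofReal hdi
      (Filter.Eventually.of_forall (fun β => abs_nonneg _))]
    exact ENNReal.ofReal_le_ofReal hdv
  · exact hdi.aestronglyMeasurable.aemeasurable.ennreal_ofReal

end Pool.Agent.R132.CM
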