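import Pool.Agent.R132.CM.Defs

set_option autoImplicit false

open MeasureTheory ProbabilityTheory Filter Topology Set
open scoped ENNReal NNReal

namespace Pool.Agent.R132.CM

namespace LPERM

instance : IsProbabilityMeasure ex := isProbabilityMeasure_expMeasure zero_lt_one

theorem ex_singleton (x : ℝ) : ex {x} = 0 := by
  have h : ex ≪ volume := by
    unfold ex expMeasure gammaMeasure
    exact withDensity_absolutelyContinuous _ _
  exact h (by simp)

theorem no_tie {M : ℕ} {i j : Fin M} (hij : i ≠ j) :
    ∀ᵐ u ∂(Measure.pi (fun _ : Fin M => ex)), u i ≠ u j := by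
  have hind : iIndepFun (fun (i : Fin M) (u : Fin M → ℝ) => u i)
      (Measure.pi (fun _ : Fin M => ex)) :=
    iIndepFun_pi (X := fun _ => id) (fun _ => aemeasurable_id)
  have h2 := (hind.indepFun hij)
  have h3 := (indepFun_iff_map_prod_eq_prod_map_map (measurable_pi_apply i).aemeasurable
    (measurable_pi_apply j).aemeasurable).1 h2
  have hi : (Measure.pi (fun _ : Fin M => ex)).map (fun u => u i) = ex :=
    (measurePreserving_eval (fun _ : Fin M => ex) i).map_eq
  have hj : (Measure.pi (fun _ : Fin M => ex)).map (fun u => u j) = ex :=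
    (measurePreserving_eval (fun _ : Fin M => ex) j).map_eq
  rw [hi, hj] at h3
  have hm : MeasurableSet {p : ℝ × ℝ | p.1 = p.2} :=
    measurableSet_eq_fun measurable_fst measurable_snd
  have h0 : (ex.prod ex) {p : ℝ × ℝ | p.1 = p.2} = 0 := by
    rw [Measure.measure_prod_null hm]
    refine Eventually.of_forall fun x => ?_
    have : Prod.mk x ⁻¹' {p : ℝ × ℝ | p.1 = p.2} = {x} := by
      ext y
      simp [eq_comm]
    show ex (Prod.mk x ⁻¹' {p : ℝ × ℝ | p.1 = p.2}) = 0
    rw [this]
    exact ex_singleton x
  rw [← h3, Measure.map_apply (by fun_prop) hm] at h0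
  rw [ae_iff]
  convert h0 using 2
  ext u
  simp

theorem rk_injective {M : ℕ} {u : Fin M → ℝ} (hu : Function.Injective u) :
    Function.Injective (rk u) := by
  classical
  have key : ∀ i j : Fin M, u i < u j → (rk u i : ℕ) < rk u j := by
    intro i j hij
    unfold rk
    simp only
    apply Finset.card_lt_card
    rw [Finset.ssubset_iff_of_subset]
    · exact ⟨i, by simpa using hij, by simp⟩
    · intro k hk
      simp only [Finset.mem_filter, Finset.mem_univ, true_and] at hk ⊢
      exact hk.trans hij
  intro i j hij
  by_contra hne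
  rcases lt_trichotomy (u i) (u j) with h | h | h
  · have := key i j h
    rw [hij] at this
    exact lt_irrefl _ this
  · exact hne (hu h)
  · have := key j i h
    rw [hij] at this
    exact lt_irrefl _ this

end LPERM

open LPERM in
theorem l_perm : StPERM := by
  intro E _ μ _ M Ψ hΨ
  apply lintegral_congr_ae
  have hinj : ∀ᵐ u ∂(Measure.pi (fun _ : Fin M => ex)), Function.Injective u := by
    have : ∀ᵐ u ∂(Measure.pi (fun _ : Fin M => ex)), ∀ i j : Fin M, i ≠ j → u i ≠ u j := by
      rw [ae_all_iff]
      intro i
      rw [ae_all_iff]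
      intro j
      by_cases hij : i = j
      · exact Eventually.of_forall fun u h => absurd hij h
      · filter_upwards [no_tie hij] with u hu _ using hu
    filter_upwards [this] with u hu i j h
    by_contra hne
    exact hu i j hne h
  filter_upwards [hinj] with u hu
  have hb : Function.Bijective (rk u) := (Finite.injective_iff_bijective).1 (rk_injective hu)
  let e : Fin M ≃ Fin M := (Equiv.ofBijective (rk u) hb).symm
  have hmp := measurePreserving_piCongrLeft (fun _ : Fin M => μ) e
  have h1 := hmp.lintegral_comp_emb (MeasurableEquiv.measurableEmbedding _) (fun β => Ψ (β, u))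
  rw [← h1]
  refine lintegral_congr fun β => ?_
  congr 2
  funext l
  have h2 : l = e (rk u l) := by
    simp [e]
  conv_rhs => rw [h2]
  rw [MeasurableEquiv.piCongrLeft_apply_apply]

end Pool.Agent.R132.CM
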