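import Pool.Agent.R132.CM.Defs

set_option autoImplicit false

open MeasureTheory ProbabilityTheory Filter Topology Set unitInterval
open scoped ENNReal NNReal

namespace Pool.Agent.R132.CM

namespace LPOLx

/-- integration against the standard Gaussian law -/
lemma lint_gauss (f : ℝ → ℝ≥0∞) (hf : Measurable f) :
    ∫⁻ x, f x ∂(gaussianReal 0 1) =
      ∫⁻ x, ENNReal.ofReal ((Real.sqrt (2 * Real.pi))⁻¹ * Real.exp (-x ^ 2 / 2)) * f x := by
  rw [gaussianReal_of_var_ne_zero 0 (one_ne_zero),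
    lintegral_withDensity_eq_lintegral_mul _ (measurable_gaussianPDF 0 1) hf]
  refine lintegral_congr fun x => ?_
  simp only [Pi.mul_apply, gaussianPDF, gaussianPDFReal, NNReal.coe_one, mul_one, sub_zero]

/-- the radial function -/
noncomputable def rr (h : ℝ → ℝ≥0∞) (s : ℝ) : ℝ≥0∞ :=
  ENNReal.ofReal ((2 * Real.pi)⁻¹ * Real.exp (-s / 2)) * h s

lemma rr_meas {h : ℝ → ℝ≥0∞} (hh : Measurable h) : Measurable (rr h) := by
  unfold rr
  fun_prop

lemma step1 (h : ℝ → ℝ≥0∞) (hh : Measurable h) :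
    ∫⁻ b, ∫⁻ c, h (b ^ 2 + c ^ 2) ∂(gaussianReal 0 1) ∂(gaussianReal 0 1) =
      ∫⁻ p : ℝ × ℝ, rr h (p.1 ^ 2 + p.2 ^ 2) := by
  have h1 : ∀ b : ℝ, ∫⁻ c, h (b ^ 2 + c ^ 2) ∂(gaussianReal 0 1) =
      ∫⁻ c, ENNReal.ofReal ((Real.sqrt (2 * Real.pi))⁻¹ * Real.exp (-c ^ 2 / 2)) *
        h (b ^ 2 + c ^ 2) := fun b => lint_gauss _ (by fun_prop)
  simp_rw [h1]
  rw [lint_gauss]
  · rw [Measure.volume_eq_prod, lintegral_prod]
    · refine lintegral_congr fun b => ?_
      rw [← lintegral_const_mul']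
      · refine lintegral_congr fun c => ?_
        simp only [rr]
        rw [← mul_assoc, ← ENNReal.ofReal_mul (by positivity)]
        congr 2
        have h2 : (Real.sqrt (2 * Real.pi))⁻¹ * (Real.sqrt (2 * Real.pi))⁻¹ =
            (2 * Real.pi)⁻¹ := by
          rw [← mul_inv, Real.mul_self_sqrt (by positivity)]
        have h3 : Real.exp (-(b ^ 2 + c ^ 2) / 2) =
            Real.exp (-b ^ 2 / 2) * Real.exp (-c ^ 2 / 2) := by
          rw [← Real.exp_add]; congr 1; ring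
        rw [h3, ← h2]
        ring
      · exact ENNReal.ofReal_ne_top
    · exact ((rr_meas hh).comp (by fun_prop)).aemeasurable
  · apply Measurable.lintegral_prod_right'
      (f := fun p : ℝ × ℝ => ENNReal.ofReal ((Real.sqrt (2 * Real.pi))⁻¹ *
        Real.exp (-p.2 ^ 2 / 2)) * h (p.1 ^ 2 + p.2 ^ 2))
    fun_prop

lemma step2 (F : ℝ → ℝ≥0∞) (hF : Measurable F) :
    ∫⁻ p : ℝ × ℝ, F (p.1 ^ 2 + p.2 ^ 2) =
      ∫⁻ r in Ioi (0 : ℝ), ENNReal.ofReal (2 * Real.pi * r) * F (r ^ 2) := by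
  rw [← lintegral_comp_polarCoord_symm]
  have h1 : ∀ p : ℝ × ℝ, ENNReal.ofReal p.1 • F ((polarCoord.symm p).1 ^ 2 +
      (polarCoord.symm p).2 ^ 2) = ENNReal.ofReal p.1 * F (p.1 ^ 2) := by
    intro p
    have h2 : (polarCoord.symm p).1 ^ 2 + (polarCoord.symm p).2 ^ 2 = p.1 ^ 2 := by
      have h3 : polarCoord.symm p = (p.1 * Real.cos p.2, p.1 * Real.sin p.2) := rfl
      rw [h3]
      have := Real.cos_sq_add_sin_sq p.2
      simp only
      linear_combination p.1 ^ 2 * this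
    rw [h2, smul_eq_mul]
  simp_rw [h1]
  have h4 : polarCoord.target = Ioi (0 : ℝ) ×ˢ Ioo (-Real.pi) Real.pi := rfl
  rw [h4, Measure.volume_eq_prod, ← Measure.prod_restrict, lintegral_prod]
  · refine lintegral_congr_ae ?_
    filter_upwards [ae_restrict_mem measurableSet_Ioi] with r hr
    rw [lintegral_const, Measure.restrict_apply MeasurableSet.univ, univ_inter, Real.volume_Ioo]
    have hr' : (0 : ℝ) < r := hr
    rw [mul_right_comm, ← ENNReal.ofReal_mul hr'.le]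
    congr 2
    ring
  · exact (by fun_prop : Measurable fun p : ℝ × ℝ => ENNReal.ofReal p.1 * F (p.1 ^ 2)).aemeasurable

lemma step3 (g : ℝ → ℝ≥0∞) :
    ∫⁻ s in Ioi (0 : ℝ), g s = ∫⁻ r in Ioi (0 : ℝ), ENNReal.ofReal (2 * r) * g (r ^ 2) := by
  have himg : (fun r : ℝ => r ^ 2) '' Ioi (0 : ℝ) = Ioi 0 := by
    ext s
    constructor
    · rintro ⟨r, hr, rfl⟩
      exact pow_pos (mem_Ioi.1 hr) 2
    · intro hs
      exact ⟨Real.sqrt s, Real.sqrt_pos.2 hs, Real.sq_sqrt (le_of_lt hs)⟩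
  have hinj : InjOn (fun r : ℝ => r ^ 2) (Ioi (0 : ℝ)) := by
    intro a ha b hb hab
    have ha' : (0 : ℝ) < a := ha
    have hb' : (0 : ℝ) < b := hb
    exact (pow_left_inj₀ ha'.le hb'.le (by norm_num)).1 hab
  have h := lintegral_image_eq_lintegral_abs_deriv_mul (s := Ioi (0 : ℝ))
    (f := fun r : ℝ => r ^ 2) (f' := fun r => 2 * r) measurableSet_Ioi
    (fun x _ => by
      have := (hasDerivAt_pow 2 x).hasDerivWithinAt (s := Ioi (0 : ℝ))
      simpa using this) hinj g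
  rw [himg] at h
  rw [h]
  refine lintegral_congr_ae ?_
  filter_upwards [ae_restrict_mem measurableSet_Ioi] with r hr
  have hr' : (0 : ℝ) < r := hr
  rw [abs_of_pos (by positivity)]

end LPOLx

open LPOLx in
theorem l_pol : StPOL := by
  intro h hh
  rw [step1 h hh, step2 _ (rr_meas hh),
    step3 (fun s => h s * ENNReal.ofReal (Real.exp (-s / 2) / 2))]
  refine lintegral_congr_ae ?_
  filter_upwards [ae_restrict_mem measurableSet_Ioi] with r hr
  have hr' : (0 : ℝ) < r := hr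
  simp only [rr]
  rw [← mul_assoc, ← ENNReal.ofReal_mul (by positivity), mul_comm (h (r ^ 2)),
    ← mul_assoc (ENNReal.ofReal (2 * r)), ← ENNReal.ofReal_mul (by positivity)]
  congr 2
  have hpi : Real.pi ≠ 0 := Real.pi_ne_zero
  field_simp

end Pool.Agent.R132.CM
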