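import Pool.Agent.R132.CM.Defs

/-! Representation of a coupling by a function of an independent uniform variable (helper524). -/

set_option autoImplicit false

open MeasureTheory ProbabilityTheory Filter Topology Set unitInterval
open scoped ENNReal NNReal

namespace Pool.Agent.R132.CM

theorem l_rep : StREP := by
  intro X _ W _ π _ hπ
  have hfst : π.fst = W := hπ
  obtain ⟨f, hf, hfκ⟩ := Kernel.exists_measurable_map_eq_unitInterval π.condKernel
  refine ⟨fun z => f z.1 z.2, hf, ?_⟩
  have hmm : Measurable (fun z : X × I => (z.1, f z.1 z.2)) := measurable_fst.prodMk hf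
  have h1 := π.disintegrate π.condKernel
  conv_rhs => rw [← h1, hfst]
  ext B hB
  rw [Measure.map_apply hmm hB, Measure.prod_apply (hmm hB), Measure.compProd_apply hB]
  refine lintegral_congr fun x => ?_
  have hfx : Measurable (f x) := hf.of_uncurry_left
  rw [← hfκ x, Measure.map_apply hfx (measurable_prodMk_left hB)]
  rfl

end Pool.Agent.R132.CM
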