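import Pool.Agent.R132.CM.Defs

/-!
The piece ROT: reduction of a radial integral of a three dimensional Gaussian variable to an
iterated integral.
-/

set_option autoImplicit false

open MeasureTheory ProbabilityTheory Filter Topology Set unitInterval
open scoped ENNReal NNReal

namespace Pool.Agent.R132.CM

namespace LROT

lemma pi3 (γ : Measure ℝ) [SigmaFinite γ] (G : (Fin 3 → ℝ) → ℝ≥0∞) (hG : Measurable G) :
    ∫⁻ x, G x ∂(Measure.pi (fun _ : Fin 3 => γ)) =
      ∫⁻ a, ∫⁻ b, ∫⁻ c, G ![a, b, c] ∂γ ∂γ ∂γ := by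
  have h1 := (measurePreserving_piFinSuccAbove (fun _ : Fin 3 => γ) 0).symm
    (MeasurableEquiv.piFinSuccAbove (fun _ : Fin 3 => ℝ) 0)
  have h2 := h1.lintegral_comp hG
  rw [← h2]
  have hm : Measurable fun p => G ((MeasurableEquiv.piFinSuccAbove (fun _ : Fin 3 => ℝ) 0).symm p) :=
    hG.comp (MeasurableEquiv.measurable _)
  rw [lintegral_prod _ hm.aemeasurable]
  refine lintegral_congr fun a => ?_
  have hm2 : Measurable fun y : Fin 2 → ℝ =>
      G ((MeasurableEquiv.piFinSuccAbove (fun _ : Fin 3 => ℝ) 0).symm (a, y)) :=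
    hm.comp (measurable_const.prodMk measurable_id)
  have h3 := (measurePreserving_finTwoArrow γ).symm (MeasurableEquiv.finTwoArrow (α := ℝ))
  have h4 := h3.lintegral_comp hm2
  refine Eq.trans h4.symm ?_
  have hm3 : Measurable fun p : ℝ × ℝ => G ((MeasurableEquiv.piFinSuccAbove
      (fun _ : Fin 3 => ℝ) 0).symm (a, (MeasurableEquiv.finTwoArrow (α := ℝ)).symm p)) :=
    hm2.comp (MeasurableEquiv.measurable _)
  rw [lintegral_prod _ hm3.aemeasurable]
  refine lintegral_congr fun b => lintegral_congr fun c => ?_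
  congr 1
  ext i
  fin_cases i <;> rfl

end LROT

open LROT in
theorem l_rot : StROT := by
  intro v t ht f hf
  set w : E3 := ‖v‖ • EuclideanSpace.single (0 : Fin 3) (1 : ℝ) with hw
  have hvw : ‖v‖ = ‖w‖ := by
    rw [hw, norm_smul, EuclideanSpace.norm_single]
    simp
  have hL := Submodule.reflection_sub hvw
  set L : E3 ≃ₗᵢ[ℝ] E3 := Submodule.reflection (Submodule.span ℝ {v - w})ᗮ with hLdef
  have hst : (stdGaussian E3).map L = stdGaussian E3 := stdGaussian_map L
  have hLm : Measurable L := L.continuous.measurable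
  unfold gam3
  have hm0 : Measurable fun z : E3 => f ‖v + z‖ := by fun_prop
  rw [lintegral_map hm0 (by fun_prop)]
  have e1 : ∫⁻ y, f ‖v + √t • y‖ ∂(stdGaussian E3) = ∫⁻ y, f ‖w + √t • y‖ ∂(stdGaussian E3) := by
    have hm1 : Measurable fun y : E3 => f ‖w + √t • y‖ := by fun_prop
    conv_rhs => rw [← hst]
    rw [lintegral_map hm1 hLm]
    refine lintegral_congr fun y => ?_
    congr 1
    rw [← hL, ← map_smul, ← map_add, LinearIsometryEquiv.norm_map]
  rw [e1, ← map_pi_eq_stdGaussian, lintegral_map (by fun_prop) (by fun_prop)]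
  have e2 : ∀ x : Fin 3 → ℝ, ‖w + √t • (WithLp.toLp 2 x : E3)‖ =
      √((‖v‖ + √t * x 0) ^ 2 + t * (x 1 ^ 2 + x 2 ^ 2)) := by
    intro x
    rw [EuclideanSpace.norm_eq, Fin.sum_univ_three]
    congr 1
    have h1 : (w + √t • (WithLp.toLp 2 x : E3)) 0 = ‖v‖ + √t * x 0 := by
      simp [hw]
    have h2 : (w + √t • (WithLp.toLp 2 x : E3)) 1 = √t * x 1 := by
      simp [hw]
    have h3 : (w + √t • (WithLp.toLp 2 x : E3)) 2 = √t * x 2 := by
      simp [hw]
    rw [h1, h2, h3]
    simp only [Real.norm_eq_abs, sq_abs]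
    rw [mul_pow, mul_pow, Real.sq_sqrt ht.le]
    ring
  simp only [e2]
  rw [pi3 (gaussianReal 0 1) (fun x => f (√((‖v‖ + √t * x 0) ^ 2 + t * (x 1 ^ 2 + x 2 ^ 2))))
    (by fun_prop)]
  rfl

end Pool.Agent.R132.CM
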