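import Pool.Agent.R132.CM.Defs

/-! Project CM (helper132), piece SEL by helper780: the selection lemma. -/

set_option autoImplicit false

open MeasureTheory ProbabilityTheory Filter Topology Set
open scoped ENNReal NNReal

namespace Pool.Agent.R132.CM

namespace SELx

lemma prob_ex : IsProbabilityMeasure ex := isProbabilityMeasure_expMeasure one_pos

lemma rk_val {M : ℕ} (u : Fin M → ℝ) (l : Fin M) :
    ((rk u l : Fin M) : ℕ) = ∑ j, if u j < u l then 1 else 0 := by
  unfold rk
  simp only [Finset.card_filter]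

lemma measurable_cnt {M : ℕ} (l : Fin M) :
    Measurable (fun u : Fin M → ℝ => ∑ j, if u j < u l then 1 else 0) :=
  Finset.measurable_sum _ fun j _ => Measurable.ite
    (measurableSet_lt (measurable_pi_apply j) (measurable_pi_apply l)) measurable_const
    measurable_const

lemma measurable_rk {M : ℕ} (l : Fin M) : Measurable (fun u : Fin M → ℝ => rk u l) := by
  refine measurable_to_countable' ?_
  intro k
  have h : (fun u : Fin M → ℝ => rk u l) ⁻¹' {k} =
      (fun u : Fin M → ℝ => ∑ j, if u j < u l then 1 else 0) ⁻¹' {(k : ℕ)} := by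
    ext u
    simp only [mem_preimage, mem_singleton_iff, Fin.ext_iff, rk_val]
  rw [h]
  exact measurable_cnt l (measurableSet_singleton _)

section
variable {E : Type} [MeasurableSpace E] {M : ℕ}

/-- reordering -/
noncomputable def reo (p : (Fin M → E) × (Fin M → ℝ)) : (Fin M → E) × (Fin M → ℝ) :=
  (fun l => p.1 (rk p.2 l), p.2)

lemma measurable_reo : Measurable (reo : (Fin M → E) × (Fin M → ℝ) → _) := by
  refine Measurable.prodMk ?_ measurable_snd
  rw [measurable_pi_iff]
  intro l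
  have h1 : Measurable (fun q : (Fin M → E) × Fin M => q.1 q.2) :=
    measurable_from_prod_countable_left (fun k => measurable_pi_apply k)
  exact h1.comp (measurable_fst.prodMk ((measurable_rk l).comp measurable_snd))

/-- the indicator of the event that `l` is chosen -/
noncomputable def ind (w : E → ℝ) (p : (Fin M → E) × (Fin M → ℝ)) (l : Fin M) : ℝ≥0∞ :=
  (AA (fun j => w (p.1 j)) l).indicator 1 p.2

lemma measurable_ind {w : E → ℝ} (hw : Measurable w) (l : Fin M) :
    Measurable (fun p : (Fin M → E) × (Fin M → ℝ) => ind w p l) := by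
  have hset : MeasurableSet {p : (Fin M → E) × (Fin M → ℝ) |
      ∀ j, j ≠ l → p.2 l * w (p.1 j) < p.2 j * w (p.1 l)} := by
    simp only [ofPred_forall]
    refine MeasurableSet.iInter fun j => MeasurableSet.iInter fun _ => measurableSet_lt ?_ ?_
    · exact ((measurable_pi_apply l).comp measurable_snd).mul
        (hw.comp ((measurable_pi_apply j).comp measurable_fst))
    · exact ((measurable_pi_apply j).comp measurable_snd).mul
        (hw.comp ((measurable_pi_apply l).comp measurable_fst))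
  have h : (fun p : (Fin M → E) × (Fin M → ℝ) => ind w p l) =
      ({p : (Fin M → E) × (Fin M → ℝ) |
        ∀ j, j ≠ l → p.2 l * w (p.1 j) < p.2 j * w (p.1 l)}).indicator 1 := by
    funext p
    unfold ind
    by_cases hp : p.2 ∈ AA (fun j => w (p.1 j)) l
    · have h1 : (AA (fun j => w (p.1 j)) l).indicator (1 : (Fin M → ℝ) → ℝ≥0∞) p.2 = 1 :=
        indicator_of_mem hp _
      have h2 : ({p : (Fin M → E) × (Fin M → ℝ) |
          ∀ j, j ≠ l → p.2 l * w (p.1 j) < p.2 j * w (p.1 l)}).indicator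
          (1 : (Fin M → E) × (Fin M → ℝ) → ℝ≥0∞) p = 1 :=
        indicator_of_mem (s := {p : (Fin M → E) × (Fin M → ℝ) |
          ∀ j, j ≠ l → p.2 l * w (p.1 j) < p.2 j * w (p.1 l)}) (a := p) hp _
      rw [h1, h2]
    · have h1 : (AA (fun j => w (p.1 j)) l).indicator (1 : (Fin M → ℝ) → ℝ≥0∞) p.2 = 0 :=
        indicator_of_notMem hp _
      have h2 : ({p : (Fin M → E) × (Fin M → ℝ) |
          ∀ j, j ≠ l → p.2 l * w (p.1 j) < p.2 j * w (p.1 l)}).indicator
          (1 : (Fin M → E) × (Fin M → ℝ) → ℝ≥0∞) p = 0 :=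
        indicator_of_notMem (s := {p : (Fin M → E) × (Fin M → ℝ) |
          ∀ j, j ≠ l → p.2 l * w (p.1 j) < p.2 j * w (p.1 l)}) (a := p) hp _
      rw [h1, h2]
  rw [h]
  exact measurable_one.indicator hset

lemma measurableSet_AA (w : Fin M → ℝ) (l : Fin M) : MeasurableSet (AA w l) := by
  unfold AA
  simp only [ofPred_forall]
  exact MeasurableSet.iInter fun j => MeasurableSet.iInter fun _ => measurableSet_lt
    ((measurable_pi_apply l).mul_const _) ((measurable_pi_apply j).mul_const _)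

lemma AA_disj (w : Fin M → ℝ) (l l' : Fin M) (h : l ≠ l') (u : Fin M → ℝ) (h1 : u ∈ AA w l)
    (h2 : u ∈ AA w l') : False := by
  have a1 := h1 l' h.symm
  have a2 := h2 l h
  exact lt_asymm a1 a2

omit [MeasurableSpace E] in
lemma ind_sum_le (w : E → ℝ) (p : (Fin M → E) × (Fin M → ℝ)) : ∑ l, ind w p l ≤ 1 := by
  by_cases h : ∃ l, p.2 ∈ AA (fun j => w (p.1 j)) l
  · obtain ⟨l0, hl0⟩ := h
    rw [Finset.sum_eq_single l0]
    · unfold ind
      rw [indicator_of_mem hl0]
      simp
    · intro l _ hl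
      unfold ind
      rw [indicator_of_notMem]
      intro h2
      exact AA_disj _ _ _ hl _ h2 hl0
    · intro h2
      exact absurd (Finset.mem_univ l0) h2
  · push Not at h
    rw [Finset.sum_eq_zero]
    · exact bot_le
    · intro l _
      unfold ind
      rw [indicator_of_notMem (h l)]

/-- the event that the block `i` is chosen -/
noncomputable def TT (w : E → ℝ) (i : Fin M) (p : (Fin M → E) × (Fin M → ℝ)) : ℝ≥0∞ :=
  ∑ l, (if rk p.2 l = i then ind w (reo p) l else 0)

/-- the probability that the block `i` is chosen -/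
noncomputable def qq (w : E → ℝ) (i : Fin M) (β : Fin M → E) : ℝ≥0∞ :=
  ∫⁻ u, TT w i (β, u) ∂(Measure.pi (fun _ : Fin M => ex))

lemma measurable_TT {w : E → ℝ} (hw : Measurable w) (i : Fin M) :
    Measurable (TT w i : (Fin M → E) × (Fin M → ℝ) → ℝ≥0∞) := by
  unfold TT
  exact Finset.measurable_sum _ fun l _ => Measurable.ite
    (((measurable_rk l).comp measurable_snd) (measurableSet_singleton i))
    ((measurable_ind hw l).comp measurable_reo) measurable_const

lemma measurable_TTu {w : E → ℝ} (hw : Measurable w) (i : Fin M) (β : Fin M → E) :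
    Measurable (fun u : Fin M → ℝ => TT w i (β, u)) :=
  (measurable_TT hw i).comp measurable_prodMk_left

lemma measurable_qq {w : E → ℝ} (hw : Measurable w) (i : Fin M) : Measurable (qq w i) := by
  have := prob_ex
  exact (measurable_TT hw i).lintegral_prod_right'

lemma sum_fib (r : Fin M → Fin M) (a h : Fin M → ℝ≥0∞) :
    ∑ i, (∑ l, if r l = i then a l else 0) * h i = ∑ l, a l * h (r l) := by
  simp only [Finset.sum_mul, ite_mul, zero_mul]
  rw [Finset.sum_comm]
  refine Finset.sum_congr rfl fun l _ => ?_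
  rw [Finset.sum_ite_eq, if_pos (Finset.mem_univ _)]

omit [MeasurableSpace E] in
lemma sum_TT_mul (w : E → ℝ) (p : (Fin M → E) × (Fin M → ℝ)) (h : Fin M → ℝ≥0∞) :
    ∑ i, TT w i p * h i = ∑ l, ind w (reo p) l * h (rk p.2 l) :=
  sum_fib (fun l => rk p.2 l) (fun l => ind w (reo p) l) h

omit [MeasurableSpace E] in
lemma sum_TT_le (w : E → ℝ) (p : (Fin M → E) × (Fin M → ℝ)) : ∑ i, TT w i p ≤ 1 := by
  have h1 := sum_TT_mul w p (fun _ => 1)
  simp only [mul_one] at h1
  rw [h1]
  exact ind_sum_le w _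

lemma sum_qq_le {w : E → ℝ} (hw : Measurable w) (β : Fin M → E) : ∑ i, qq w i β ≤ 1 := by
  have := prob_ex
  have h2 : ∑ i, qq w i β = ∫⁻ u, ∑ i, TT w i (β, u) ∂(Measure.pi (fun _ : Fin M => ex)) :=
    (lintegral_finsetSum _ fun i _ => measurable_TTu hw i β).symm
  rw [h2]
  refine (lintegral_mono fun u => sum_TT_le w (β, u)).trans ?_
  rw [lintegral_one, measure_univ]

/-- the reordered integrand -/
noncomputable def PS (w : E → ℝ) (H : Fin M → E → ℝ≥0∞) (p : (Fin M → E) × (Fin M → ℝ)) : ℝ≥0∞ :=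
  ∑ l, ind w p l * H (rk p.2 l) (p.1 l)

lemma measurable_term {w : E → ℝ} (hw : Measurable w) {H : Fin M → E → ℝ≥0∞}
    (hH : ∀ i, Measurable (H i)) (l : Fin M) :
    Measurable (fun p : (Fin M → E) × (Fin M → ℝ) => ind w p l * H (rk p.2 l) (p.1 l)) := by
  have hHm : Measurable (fun q : E × Fin M => H q.2 q.1) :=
    measurable_from_prod_countable_left (fun k => hH k)
  have h2 : Measurable (fun p : (Fin M → E) × (Fin M → ℝ) => ((p.1 l, rk p.2 l) : E × Fin M)) :=
    ((measurable_pi_apply l).comp measurable_fst).prodMk ((measurable_rk l).comp measurable_snd)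
  have h3 : Measurable (fun p : (Fin M → E) × (Fin M → ℝ) => H (rk p.2 l) (p.1 l)) := hHm.comp h2
  exact (measurable_ind hw l).mul h3

lemma measurable_PS {w : E → ℝ} (hw : Measurable w) {H : Fin M → E → ℝ≥0∞}
    (hH : ∀ i, Measurable (H i)) : Measurable (PS w H) := by
  unfold PS
  exact Finset.measurable_sum _ fun l _ => measurable_term hw hH l

lemma measurable_TH {w : E → ℝ} (hw : Measurable w) {H : Fin M → E → ℝ≥0∞}
    (hH : ∀ i, Measurable (H i)) (i : Fin M) :
    Measurable (fun p : (Fin M → E) × (Fin M → ℝ) => TT w i p * H i (p.1 i)) :=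
  (measurable_TT hw i).mul ((hH i).comp ((measurable_pi_apply i).comp measurable_fst))

lemma key1 (μ : Measure E) [IsProbabilityMeasure μ] {w : E → ℝ}
    (hw : Measurable w) (H : Fin M → E → ℝ≥0∞) (hH : ∀ i, Measurable (H i)) :
    ∑ i, ∫⁻ β, qq w i β * H i (β i) ∂(Measure.pi (fun _ : Fin M => μ)) =
      ∫⁻ β, ∫⁻ u, PS w H (reo (β, u)) ∂(Measure.pi (fun _ : Fin M => ex))
        ∂(Measure.pi (fun _ : Fin M => μ)) := by
  have := prob_ex
  have e1 : ∀ i : Fin M, ∀ β : Fin M → E, qq w i β * H i (β i) =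
      ∫⁻ u, TT w i (β, u) * H i (β i) ∂(Measure.pi (fun _ : Fin M => ex)) := by
    intro i β
    unfold qq
    rw [lintegral_mul_const _ (measurable_TTu hw i β)]
  have e2 : ∀ β : Fin M → E, ∑ i, ∫⁻ u, TT w i (β, u) * H i (β i)
      ∂(Measure.pi (fun _ : Fin M => ex)) =
      ∫⁻ u, PS w H (reo (β, u)) ∂(Measure.pi (fun _ : Fin M => ex)) := by
    intro β
    rw [← lintegral_finsetSum _ fun i _ => (measurable_TTu hw i β).mul_const _]
    refine lintegral_congr fun u => ?_
    exact sum_TT_mul w (β, u) (fun i => H i (β i))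
  have e3 : ∀ i : Fin M, Measurable (fun β : Fin M → E =>
      ∫⁻ u, TT w i (β, u) * H i (β i) ∂(Measure.pi (fun _ : Fin M => ex))) := fun i =>
    (measurable_TH hw hH i).lintegral_prod_right'
  simp only [e1]
  rw [← lintegral_finsetSum _ fun i _ => e3 i]
  exact lintegral_congr e2

lemma key (hPERM : StPERM) (μ : Measure E) [IsProbabilityMeasure μ] {w : E → ℝ}
    (hw : Measurable w) (H : Fin M → E → ℝ≥0∞) (hH : ∀ i, Measurable (H i)) :
    ∑ i, ∫⁻ β, qq w i β * H i (β i) ∂(Measure.pi (fun _ : Fin M => μ)) =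
      ∫⁻ β, ∑ l, ∫⁻ u, ind w (β, u) l * H (rk u l) (β l) ∂(Measure.pi (fun _ : Fin M => ex))
        ∂(Measure.pi (fun _ : Fin M => μ)) := by
  have := prob_ex
  have hPS := measurable_PS hw hH
  rw [key1 μ hw H hH]
  have e1 : ∫⁻ β, ∫⁻ u, PS w H (reo (β, u)) ∂(Measure.pi (fun _ : Fin M => ex))
        ∂(Measure.pi (fun _ : Fin M => μ)) =
      ∫⁻ u, ∫⁻ β, PS w H (reo (β, u)) ∂(Measure.pi (fun _ : Fin M => μ))
        ∂(Measure.pi (fun _ : Fin M => ex)) :=
    lintegral_lintegral_swap (f := fun β u => PS w H (reo (β, u)))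
      (hPS.comp measurable_reo).aemeasurable
  have e2 : ∫⁻ u, ∫⁻ β, PS w H (reo (β, u)) ∂(Measure.pi (fun _ : Fin M => μ))
        ∂(Measure.pi (fun _ : Fin M => ex)) =
      ∫⁻ u, ∫⁻ β, PS w H (β, u) ∂(Measure.pi (fun _ : Fin M => μ))
        ∂(Measure.pi (fun _ : Fin M => ex)) := hPERM E μ M (PS w H) hPS
  have e3 : ∫⁻ u, ∫⁻ β, PS w H (β, u) ∂(Measure.pi (fun _ : Fin M => μ))
        ∂(Measure.pi (fun _ : Fin M => ex)) =
      ∫⁻ β, ∫⁻ u, PS w H (β, u) ∂(Measure.pi (fun _ : Fin M => ex))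
        ∂(Measure.pi (fun _ : Fin M => μ)) :=
    (lintegral_lintegral_swap (f := fun β u => PS w H (β, u)) hPS.aemeasurable).symm
  rw [e1, e2, e3]
  refine lintegral_congr fun β => ?_
  unfold PS
  exact lintegral_finsetSum _ fun l _ => (measurable_term hw hH l).comp measurable_prodMk_left

omit [MeasurableSpace E] in
lemma inner_rank (hP1 : StP1) (hP2 : StP2) (w : E → ℝ) (hpos : ∀ x, 0 < w x)
    (β : Fin M → E) (l : Fin M) :
    ∫⁻ u, ind w (β, u) l * ((((rk u l : Fin M) : ℕ) : ℝ≥0∞) + 1)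
        ∂(Measure.pi (fun _ : Fin M => ex)) ≤
      ENNReal.ofReal (w (β l) / ∑ j, w (β j)) + ∑ j ∈ Finset.univ.erase l,
        ENNReal.ofReal ((w (β l) / ∑ i ∈ Finset.univ.erase j, w (β i)) ^ 2) := by
  have := prob_ex
  have hAm := measurableSet_AA (fun j => w (β j)) l
  have hBm : ∀ j : Fin M, MeasurableSet (AA (fun j => w (β j)) l ∩ {u : Fin M → ℝ | u j < u l}) :=
    fun j => hAm.inter (measurableSet_lt (measurable_pi_apply j) (measurable_pi_apply l))
  have hpt : ∀ u : Fin M → ℝ, ind w (β, u) l * ((((rk u l : Fin M) : ℕ) : ℝ≥0∞) + 1) =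
      (AA (fun j => w (β j)) l).indicator 1 u + ∑ j ∈ Finset.univ.erase l,
        (AA (fun j => w (β j)) l ∩ {u : Fin M → ℝ | u j < u l}).indicator 1 u := by
    intro u
    have h1 : (((rk u l : Fin M) : ℕ) : ℝ≥0∞) = ∑ j ∈ Finset.univ.erase l,
        if u j < u l then (1 : ℝ≥0∞) else 0 := by
      rw [rk_val]
      push_cast
      rw [← Finset.add_sum_erase _ _ (Finset.mem_univ l), if_neg (lt_irrefl _), zero_add]
    rw [h1, mul_add, mul_one, add_comm, Finset.mul_sum]
    unfold ind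
    congr 1
    refine Finset.sum_congr rfl fun j _ => ?_
    by_cases hu : u ∈ AA (fun j => w (β j)) l
    · by_cases hj : u j < u l
      · rw [indicator_of_mem (show u ∈ AA (fun j => w (β j)) l ∩ {u : Fin M → ℝ | u j < u l} from
          ⟨hu, hj⟩), indicator_of_mem hu, if_pos hj]
        simp
      · rw [indicator_of_notMem (show u ∉ AA (fun j => w (β j)) l ∩ {u : Fin M → ℝ | u j < u l} from
          fun h => hj h.2), if_neg hj, mul_zero]
    · rw [indicator_of_notMem (show u ∉ AA (fun j => w (β j)) l ∩ {u : Fin M → ℝ | u j < u l} from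
          fun h => hu h.1), indicator_of_notMem hu, zero_mul]
  rw [lintegral_congr hpt, lintegral_add_left (measurable_one.indicator hAm),
    lintegral_finsetSum _ fun j _ => measurable_one.indicator (hBm j),
    lintegral_indicator_one hAm, hP1 M (fun j => w (β j)) (fun j => hpos _) l]
  gcongr with j hj
  rw [lintegral_indicator_one (hBm j)]
  exact hP2 M (fun j => w (β j)) (fun j => hpos _) l j (Finset.ne_of_mem_erase hj)

omit [MeasurableSpace E] in
lemma inner_F (hP1 : StP1) (w : E → ℝ) (hpos : ∀ x, 0 < w x) (β : Fin M → E) (l : Fin M)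
    (c : ℝ≥0∞) :
    ∫⁻ u, ind w (β, u) l * c ∂(Measure.pi (fun _ : Fin M => ex)) =
      ENNReal.ofReal (w (β l) / ∑ j, w (β j)) * c := by
  have := prob_ex
  have hAm := measurableSet_AA (fun j => w (β j)) l
  unfold ind
  rw [lintegral_mul_const _ (measurable_one.indicator hAm), lintegral_indicator_one hAm,
    hP1 M (fun j => w (β j)) (fun j => hpos _) l]

lemma stepA (hP1 : StP1) (hP2 : StP2) (hPERM : StPERM) (hP4 : StP4) (hP5 : StP5)
    (μ : Measure E) [IsProbabilityMeasure μ] (w : E → ℝ) (C δ : ℝ) (hC : 1 ≤ C) (hδ : 0 < δ)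
    (hw : Measurable w) (hδw : ∀ x, δ ≤ w x) (h1 : ∫⁻ x, ENNReal.ofReal (w x) ∂μ = 1)
    (h2 : ∫⁻ x, ENNReal.ofReal (w x) ^ 2 ∂μ ≤ ENNReal.ofReal C) (ε : ℝ) (hε : 0 < ε) :
    ∃ (M : ℕ) (q : Fin M → (Fin M → E) → ℝ≥0∞), (∀ i, Measurable (q i)) ∧
    (∀ β, ∑ i, q i β ≤ 1) ∧
    ∑ i : Fin M, ((i : ℕ) + 1 : ℝ≥0∞) * ∫⁻ β, q i β ∂(Measure.pi (fun _ : Fin M => μ)) ≤
      ENNReal.ofReal (20 * C) ∧
    ∀ F : E → ℝ≥0∞, Measurable F → (∀ x, F x ≤ 1) →
      ∫⁻ x, ENNReal.ofReal (w x) * F x ∂μ ≤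
        ∑ i : Fin M, ∫⁻ β, q i β * F (β i) ∂(Measure.pi (fun _ : Fin M => μ)) +
          ENNReal.ofReal ε := by
  have hpos : ∀ x, 0 < w x := fun x => hδ.trans_le (hδw x)
  have t1 : Tendsto (fun M : ℕ => Real.sqrt (C / M)) atTop (𝓝 0) := by
    have := (tendsto_const_div_atTop_nhds_zero_nat C).sqrt
    rwa [Real.sqrt_zero] at this
  obtain ⟨M, hM4, hMs, hM1⟩ := ((hP4 E μ w C δ hC hδ hw hδw h1 h2).and
    ((t1.eventually (ge_mem_nhds hε)).and (eventually_ge_atTop 1))).exists
  refine ⟨M, qq w, measurable_qq hw, sum_qq_le hw, ?_, ?_⟩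
  · have e1 : ∑ i : Fin M, ((i : ℕ) + 1 : ℝ≥0∞) * ∫⁻ β, qq w i β ∂(Measure.pi (fun _ : Fin M => μ))
        = ∑ i : Fin M, ∫⁻ β, qq w i β * ((i : ℕ) + 1 : ℝ≥0∞)
          ∂(Measure.pi (fun _ : Fin M => μ)) := by
      refine Finset.sum_congr rfl fun i _ => ?_
      rw [lintegral_mul_const _ (measurable_qq hw i), mul_comm]
    rw [e1, key hPERM μ hw (fun i _ => ((i : ℕ) + 1 : ℝ≥0∞)) (fun i => measurable_const)]
    have e2 : ∀ β : Fin M → E, ∑ l, ∫⁻ u, ind w (β, u) l * ((((rk u l : Fin M) : ℕ) : ℝ≥0∞) + 1)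
        ∂(Measure.pi (fun _ : Fin M => ex)) ≤ 1 + ∑ l, ∑ j ∈ Finset.univ.erase l,
          ENNReal.ofReal ((w (β l) / ∑ i ∈ Finset.univ.erase j, w (β i)) ^ 2) := by
      intro β
      refine (Finset.sum_le_sum fun l _ => inner_rank hP1 hP2 w hpos β l).trans ?_
      rw [Finset.sum_add_distrib]
      gcongr
      have hS : 0 < ∑ j : Fin M, w (β j) :=
        Finset.sum_pos (fun j _ => hpos _) ⟨⟨0, hM1⟩, Finset.mem_univ _⟩
      rw [← ENNReal.ofReal_sum_of_nonneg (fun l _ => (div_pos (hpos _) hS).le),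
        ← Finset.sum_div, div_self hS.ne', ENNReal.ofReal_one]
    have hm : ∀ l j : Fin M, Measurable (fun β : Fin M → E =>
        ENNReal.ofReal ((w (β l) / ∑ i ∈ Finset.univ.erase j, w (β i)) ^ 2)) := by
      intro l j
      refine ENNReal.measurable_ofReal.comp (Measurable.pow_const (Measurable.div ?_ ?_) 2)
      · exact hw.comp (measurable_pi_apply l)
      · exact Finset.measurable_sum _ fun i _ => hw.comp (measurable_pi_apply i)
    refine (lintegral_mono e2).trans ?_
    rw [lintegral_add_left measurable_const, lintegral_one, measure_univ,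
      lintegral_finsetSum _ fun l _ => Finset.measurable_sum _ fun j _ => hm l j]
    have e3 : ∀ l : Fin M, ∫⁻ β, ∑ j ∈ Finset.univ.erase l,
        ENNReal.ofReal ((w (β l) / ∑ i ∈ Finset.univ.erase j, w (β i)) ^ 2)
        ∂(Measure.pi (fun _ : Fin M => μ)) = ∑ j ∈ Finset.univ.erase l, ∫⁻ β,
        ENNReal.ofReal ((w (β l) / ∑ i ∈ Finset.univ.erase j, w (β i)) ^ 2)
        ∂(Measure.pi (fun _ : Fin M => μ)) := fun l => lintegral_finsetSum _ fun j _ => hm l j
    simp only [e3]
    calc 1 + _ ≤ 1 + ENNReal.ofReal (18 * C) := by gcongr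
      _ = ENNReal.ofReal (1 + 18 * C) := by
        rw [ENNReal.ofReal_add zero_le_one (by positivity), ENNReal.ofReal_one]
      _ ≤ ENNReal.ofReal (20 * C) := ENNReal.ofReal_le_ofReal (by linarith)
  · intro F hF hF1
    rw [key hPERM μ hw (fun _ => F) (fun _ => hF)]
    have e1 : ∀ β : Fin M → E, ∑ l, ∫⁻ u, ind w (β, u) l * F (β l)
        ∂(Measure.pi (fun _ : Fin M => ex)) =
        ∑ l : Fin M, ENNReal.ofReal (w (β l) / ∑ j, w (β j)) * F (β l) := fun β =>
      Finset.sum_congr rfl fun l _ => inner_F hP1 w hpos β l _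
    rw [lintegral_congr e1]
    refine (hP5 E μ w C hC hw hpos h1 h2 M hM1 F hF hF1).trans ?_
    gcongr

end

end SELx

open SELx in
theorem l_sel : StP1 → StP2 → StPERM → StP4 → StP5 → StSEL := by
  intro hP1 hP2 hPERM hP4 hP5 E _ μ _ w C hC hw hw0 h1 h2 ε hε
  set d : ℝ := ε / 2 with hd
  have hd0 : 0 < d := by positivity
  clear_value d
  have h1d : 0 < 1 + d := by positivity
  set v : E → ℝ := fun x => (w x + d) / (1 + d) with hv
  have hvm : Measurable v := (hw.add_const d).div_const _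
  have hvr : ∀ x, ENNReal.ofReal (v x) =
      (ENNReal.ofReal (w x) + ENNReal.ofReal d) * ENNReal.ofReal (1 / (1 + d)) := by
    intro x
    rw [hv, ← ENNReal.ofReal_add (hw0 x) hd0.le, ← ENNReal.ofReal_mul (by linarith [hw0 x])]
    congr 1
    ring
  have hwm : Measurable (fun x => ENNReal.ofReal (w x)) := ENNReal.measurable_ofReal.comp hw
  have hv1 : ∫⁻ x, ENNReal.ofReal (v x) ∂μ = 1 := by
    simp only [hvr]
    rw [lintegral_mul_const _ (hwm.add_const _), lintegral_add_left hwm, h1, lintegral_const,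
      measure_univ, mul_one, ← ENNReal.ofReal_one, ← ENNReal.ofReal_add zero_le_one hd0.le,
      ← ENNReal.ofReal_mul h1d.le]
    congr 1
    field_simp
  have hv2 : ∫⁻ x, ENNReal.ofReal (v x) ^ 2 ∂μ ≤ ENNReal.ofReal C := by
    have e1 : ∀ x, ENNReal.ofReal (v x) ^ 2 = (ENNReal.ofReal (w x) ^ 2 +
        (ENNReal.ofReal (2 * d) * ENNReal.ofReal (w x) + ENNReal.ofReal (d ^ 2))) *
          ENNReal.ofReal ((1 / (1 + d)) ^ 2) := by
      intro x
      rw [← ENNReal.ofReal_pow (hw0 x), ← ENNReal.ofReal_mul (by positivity),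
        ← ENNReal.ofReal_add (mul_nonneg (by positivity) (hw0 x)) (by positivity),
        ← ENNReal.ofReal_add (by positivity)
          (add_nonneg (mul_nonneg (by positivity) (hw0 x)) (by positivity)),
        ← ENNReal.ofReal_mul (add_nonneg (by positivity)
          (add_nonneg (mul_nonneg (by positivity) (hw0 x)) (by positivity))),
        ← ENNReal.ofReal_pow (div_nonneg (by linarith [hw0 x]) h1d.le)]
      congr 1
      ring
    simp only [e1]
    have hm2 : Measurable (fun x => ENNReal.ofReal (w x) ^ 2) := hwm.pow_const 2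
    have hm3 : Measurable (fun x => ENNReal.ofReal (w x) ^ 2 +
        (ENNReal.ofReal (2 * d) * ENNReal.ofReal (w x) + ENNReal.ofReal (d ^ 2))) :=
      hm2.add ((hwm.const_mul _).add_const _)
    rw [lintegral_mul_const _ hm3, lintegral_add_left hm2,
      lintegral_add_left (hwm.const_mul _), lintegral_const_mul _ hwm, h1, lintegral_const,
      measure_univ, mul_one, mul_one]
    calc (∫⁻ x, ENNReal.ofReal (w x) ^ 2 ∂μ + (ENNReal.ofReal (2 * d) + ENNReal.ofReal (d ^ 2))) *
          ENNReal.ofReal ((1 / (1 + d)) ^ 2)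
        ≤ (ENNReal.ofReal C + (ENNReal.ofReal (2 * d) + ENNReal.ofReal (d ^ 2))) *
          ENNReal.ofReal ((1 / (1 + d)) ^ 2) := by gcongr
      _ = ENNReal.ofReal ((C + (2 * d + d ^ 2)) * (1 / (1 + d)) ^ 2) := by
        rw [← ENNReal.ofReal_add (by positivity) (by positivity),
          ← ENNReal.ofReal_add (by linarith) (by positivity), ← ENNReal.ofReal_mul (by positivity)]
      _ ≤ ENNReal.ofReal C := by
        apply ENNReal.ofReal_le_ofReal
        have e9 : (1 / (1 + d)) ^ 2 = 1 / (1 + d) ^ 2 := by rw [one_div, one_div, inv_pow]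
        rw [e9, mul_one_div, div_le_iff₀ (by positivity)]
        nlinarith [mul_nonneg (sub_nonneg.mpr hC) hd0.le, mul_nonneg (sub_nonneg.mpr hC) (sq_nonneg d)]
  obtain ⟨M, q, hq1, hq2, hq3, hq4⟩ := stepA hP1 hP2 hPERM hP4 hP5 μ v C (d / (1 + d)) hC
    (by positivity) hvm (fun x => by
      rw [hv]
      exact div_le_div_of_nonneg_right (by linarith [hw0 x]) h1d.le) hv1 hv2 d hd0
  refine ⟨M, q, hq1, hq2, hq3, ?_⟩
  intro F hF hF1
  have e5 : ∀ x, ENNReal.ofReal (w x) * F x ≤
      ENNReal.ofReal (v x) * F x + ENNReal.ofReal d * ENNReal.ofReal (v x) := by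
    intro x
    have hvx : 0 ≤ v x := div_nonneg (by linarith [hw0 x]) h1d.le
    have hwv : w x ≤ v x + d * v x := by
      have : v x + d * v x = w x + d := by rw [hv]; field_simp
      rw [this]; linarith
    calc ENNReal.ofReal (w x) * F x ≤ ENNReal.ofReal (v x + d * v x) * F x := by
          gcongr
      _ = ENNReal.ofReal (v x) * F x + ENNReal.ofReal d * ENNReal.ofReal (v x) * F x := by
          rw [ENNReal.ofReal_add hvx (by positivity), ENNReal.ofReal_mul hd0.le, add_mul]
      _ ≤ ENNReal.ofReal (v x) * F x + ENNReal.ofReal d * ENNReal.ofReal (v x) * 1 := by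
          gcongr
          exact hF1 x
      _ = _ := by rw [mul_one]
  have hvm' : Measurable (fun x => ENNReal.ofReal (v x)) := ENNReal.measurable_ofReal.comp hvm
  have hvF : Measurable (fun x => ENNReal.ofReal (v x) * F x) := hvm'.mul hF
  calc ∫⁻ x, ENNReal.ofReal (w x) * F x ∂μ
      ≤ ∫⁻ x, (ENNReal.ofReal (v x) * F x + ENNReal.ofReal d * ENNReal.ofReal (v x)) ∂μ :=
        lintegral_mono e5
    _ = ∫⁻ x, ENNReal.ofReal (v x) * F x ∂μ + ENNReal.ofReal d := by
        rw [lintegral_add_left hvF, lintegral_const_mul _ hvm', hv1, mul_one]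
    _ ≤ (∑ i : Fin M, ∫⁻ β, q i β * F (β i) ∂(Measure.pi (fun _ : Fin M => μ)) +
          ENNReal.ofReal d) + ENNReal.ofReal d := by
        gcongr
        exact hq4 F hF hF1
    _ = ∑ i : Fin M, ∫⁻ β, q i β * F (β i) ∂(Measure.pi (fun _ : Fin M => μ)) +
          ENNReal.ofReal ε := by
        rw [add_assoc, ← ENNReal.ofReal_add hd0.le hd0.le]
        congr 2
        rw [hd]; ring

end Pool.Agent.R132.CM
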