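import Pool.Agent.R132.CM.Defs

/-!
# CM-SEL2: selection of a block and of a position in the block
-/

set_option autoImplicit false

open MeasureTheory ProbabilityTheory Filter Topology Set unitInterval
open scoped ENNReal NNReal

namespace Pool.Agent.R132.CM

namespace Sel2Aux

variable {E : Type} [MeasurableSpace E] {n : ℕ}

/-- The conditional probability of the position `j`. -/
noncomputable def r (h : Fin n → E → ℝ) (j : Fin n) (x : E) : ℝ≥0∞ :=
  ENNReal.ofReal (h j x) / ENNReal.ofReal (∑ i, h i x)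

lemma r_meas {h : Fin n → E → ℝ} (hm : ∀ j, Measurable (h j)) (j : Fin n) :
    Measurable (r h j) :=
  (hm j).ennreal_ofReal.div (Finset.measurable_sum _ fun i _ => hm i).ennreal_ofReal

omit [MeasurableSpace E] in
lemma r_sum {h : Fin n → E → ℝ} (h0 : ∀ j x, 0 ≤ h j x) (x : E) : ∑ j, r h j x ≤ 1 := by
  unfold r
  simp_rw [div_eq_mul_inv]
  rw [← Finset.sum_mul, ← ENNReal.ofReal_sum_of_nonneg fun i _ => h0 i x, ← div_eq_mul_inv]
  exact ENNReal.div_self_le_one

omit [MeasurableSpace E] in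
lemma r_mul {h : Fin n → E → ℝ} (h0 : ∀ j x, 0 ≤ h j x) (j : Fin n) (x : E) :
    ENNReal.ofReal ((1 / (n : ℝ)) * ∑ i, h i x) * r h j x =
      ENNReal.ofReal ((1 / (n : ℝ)) * h j x) := by
  have hn : (0 : ℝ) ≤ 1 / (n : ℝ) := by positivity
  unfold r
  rw [ENNReal.ofReal_mul hn, ENNReal.ofReal_mul hn, mul_assoc]
  congr 1
  rcases (Finset.sum_nonneg fun i (_ : i ∈ Finset.univ) => h0 i x).eq_or_lt with hs | hs
  · have h1 : h j x = 0 := (Finset.sum_eq_zero_iff_of_nonneg fun i _ => h0 i x).1 hs.symm j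
      (Finset.mem_univ j)
    rw [← hs, h1]
    simp
  · exact ENNReal.mul_div_cancel (ENNReal.ofReal_pos.2 hs).ne' ENNReal.ofReal_ne_top

end Sel2Aux

open Sel2Aux in
theorem l_sel2 : StSEL → StSEL2 := by
  intro hS E _ μ _ n h C hn hC hm h0 h1 h2 ε hε
  have hwm : Measurable (fun x => (1 / (n : ℝ)) * ∑ j, h j x) :=
    (Finset.measurable_sum _ fun i _ => hm i).const_mul _
  have hw0 : ∀ x, 0 ≤ (1 / (n : ℝ)) * ∑ j, h j x := fun x =>
    mul_nonneg (by positivity) (Finset.sum_nonneg fun i _ => h0 i x)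
  obtain ⟨M, q, hq1, hq2, hq3, hq4⟩ := hS E μ _ C hC hwm hw0 h1 h2 ε hε
  have hrm : ∀ (i : Fin M) (j : Fin n), Measurable (fun β : Fin M → E => r h j (β i)) :=
    fun i j => (r_meas hm j).comp (measurable_pi_apply i)
  have hqm : ∀ (i : Fin M) (j : Fin n), Measurable (fun β : Fin M → E => q i β * r h j (β i)) :=
    fun i j => (hq1 i).mul (hrm i j)
  have hle : ∀ (i : Fin M) (β : Fin M → E), ∑ j, q i β * r h j (β i) ≤ q i β := by
    intro i β
    rw [← Finset.mul_sum]
    exact mul_le_of_le_one_right' (r_sum h0 _)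
  refine ⟨M, fun i j β => q i β * r h j (β i), hqm, ?_, ?_, ?_⟩
  · intro β
    exact (Finset.sum_le_sum fun i _ => hle i β).trans (hq2 β)
  · refine le_trans (Finset.sum_le_sum fun i _ => ?_) hq3
    rw [← Finset.mul_sum, ← lintegral_finsetSum _ fun j _ => hqm i j]
    exact mul_le_mul' le_rfl (lintegral_mono fun β => hle i β)
  · intro F hFm hF1
    have hGm : Measurable (fun x => ∑ j, r h j x * F j x) :=
      Finset.measurable_sum _ fun j _ => (r_meas hm j).mul (hFm j)
    have hG1 : ∀ x, ∑ j, r h j x * F j x ≤ 1 := fun x =>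
      (Finset.sum_le_sum fun j _ => mul_le_of_le_one_right' (hF1 j x)).trans (r_sum h0 x)
    have key := hq4 (fun x => ∑ j, r h j x * F j x) hGm hG1
    have e1 : ∫⁻ x, ENNReal.ofReal ((1 / (n : ℝ)) * ∑ j, h j x) * ∑ j, r h j x * F j x ∂μ =
        ∑ j, ∫⁻ x, ENNReal.ofReal ((1 / (n : ℝ)) * h j x) * F j x ∂μ := by
      have hm1 : ∀ j, Measurable (fun x => ENNReal.ofReal ((1 / (n : ℝ)) * h j x) * F j x) :=
        fun j => ((hm j).const_mul (1 / (n : ℝ))).ennreal_ofReal.mul (hFm j)
      rw [← lintegral_finsetSum _ fun j _ => hm1 j]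
      refine lintegral_congr fun x => ?_
      rw [Finset.mul_sum]
      refine Finset.sum_congr rfl fun j _ => ?_
      rw [← mul_assoc, r_mul h0]
    have e2 : ∀ i : Fin M, ∫⁻ β, q i β * (∑ j, r h j (β i) * F j (β i))
        ∂(Measure.pi (fun _ : Fin M => μ)) =
        ∑ j, ∫⁻ β, q i β * r h j (β i) * F j (β i) ∂(Measure.pi (fun _ : Fin M => μ)) := by
      intro i
      have hm2 : ∀ j, Measurable (fun β : Fin M → E => q i β * r h j (β i) * F j (β i)) :=
        fun j => (hqm i j).mul ((hFm j).comp (measurable_pi_apply i))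
      rw [← lintegral_finsetSum _ fun j _ => hm2 j]
      refine lintegral_congr fun β => ?_
      rw [Finset.mul_sum]
      refine Finset.sum_congr rfl fun j _ => ?_
      rw [mul_assoc]
    rw [e1] at key
    simp_rw [e2] at key
    exact key

end Pool.Agent.R132.CM
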