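import Pool.Agent.R132.CM.Defs

/-!
Existence of an i.i.d. sequence with law `gam3 v`, and the law of partial sums (StSUM3).
-/

set_option autoImplicit false

open MeasureTheory ProbabilityTheory Filter Topology Set
open scoped ENNReal NNReal

namespace Pool.Agent.R132.CM

namespace LSUM3

instance gam3_prob (v : ℝ) : IsProbabilityMeasure (gam3 v) := by
  unfold gam3
  exact Measure.isProbabilityMeasure_map (by fun_prop)

theorem charFun_gam3 (v : ℝ) (hv : 0 ≤ v) (t : E3) :
    charFun (gam3 v) t = Complex.exp (-(v * ‖t‖ ^ 2 / 2 : ℝ)) := by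
  unfold gam3
  rw [charFun_map_smul, charFun_stdGaussian, norm_smul, Real.norm_of_nonneg (Real.sqrt_nonneg v)]
  congr 1
  have h : (Real.sqrt v * ‖t‖) ^ 2 = v * ‖t‖ ^ 2 := by
    rw [mul_pow, Real.sq_sqrt hv]
  rw [← Complex.ofReal_pow, h]
  push_cast
  ring

end LSUM3

open LSUM3 in
theorem l_sum3 : StSUM3 := by
  refine ⟨fun v => ⟨Measure.infinitePi (fun _ : ℕ => gam3 v), fun i ω => ω i, inferInstance,
    ⟨fun i => measurable_pi_apply i, ?_, fun i => ?_⟩⟩, ?_⟩
  · exact iIndepFun_infinitePi (P := fun _ : ℕ => gam3 v) (X := fun _ : ℕ => (id : E3 → E3))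
      (fun _ => measurable_id)
  · exact Measure.infinitePi_map_eval (fun _ : ℕ => gam3 v) i
  · intro n hn Ω' _ P' _ ζ hζ s
    have hn0 : (0 : ℝ) < n := by exact_mod_cast hn
    have : IsProbabilityMeasure (P'.map (fun ω => ∑ l ∈ s, ζ l ω)) :=
      Measure.isProbabilityMeasure_map
        (Finset.measurable_fun_sum s fun i _ => hζ.meas i).aemeasurable
    apply Measure.ext_of_charFun
    funext t
    have h1 := iIndepFun.charFun_map_fun_finsetSum_eq_prod (s := s) (X := ζ) (P := P')
      (fun i _ => (hζ.meas i).aemeasurable) (hζ.ind.restrict _)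
    rw [h1, Finset.prod_apply, charFun_gam3 _ (by positivity)]
    simp_rw [hζ.law]
    rw [Finset.prod_const, charFun_gam3 _ (by positivity), ← Complex.exp_nat_mul]
    congr 1
    push_cast
    ring

end Pool.Agent.R132.CM
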