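import Pool.Agent.R132.CM.Defs

/-!
# CM-W8 (MP_0f8574_pr): the selection of a window of the Brownian path (helper973)
-/

set_option autoImplicit false

open MeasureTheory ProbabilityTheory Filter Topology Set unitInterval
open scoped ENNReal NNReal
open Pool.Agent.R967.FB

namespace Pool.Agent.R132.CM

namespace W8x

instance isProb_gam1 (v : ℝ) : IsProbabilityMeasure (gam1 v) := by
  unfold gam1
  infer_instance

/-- transfer to the finite product -/
lemma transfer (hB : StBLK) {Ω : Type} [MeasurableSpace Ω] (P : Measure Ω)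
    [IsProbabilityMeasure P] {v : ℝ} {ξ : ℕ → Ω → ℝ} (h : IIDG P v ξ) (N : ℕ)
    (Φ : (Fin N → ℝ) → ℝ≥0∞) (hΦ : Measurable Φ) :
    ∫⁻ b, Φ b ∂(Measure.pi (fun _ : Fin N => gam1 v)) =
      ∫⁻ ω, Φ (fun l => ξ l ω) ∂P := by
  have hb := hB Ω P v ξ h N 1
  have hmeas : Measurable (fun ω (k : Fin 1) (l : Fin N) => ξ (N * k + l) ω) := by
    refine measurable_pi_iff.2 fun k => measurable_pi_iff.2 fun l => h.meas _
  have hmp := measurePreserving_eval
    (fun _ : Fin 1 => Measure.pi (fun _ : Fin N => gam1 v)) 0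
  have hcm : Measurable (fun β : Fin 1 → Fin N → ℝ => Φ (Function.eval 0 β)) :=
    hΦ.comp (measurable_pi_apply 0)
  rw [← hmp.lintegral_comp hΦ, ← hb, lintegral_map hcm hmeas]
  refine lintegral_congr fun ω => ?_
  congr 1
  funext l
  simp

/-- shift of an i.i.d. sequence -/
lemma shift {Ω : Type} [MeasurableSpace Ω] {P : Measure Ω} {v : ℝ} {ξ : ℕ → Ω → ℝ}
    (h : IIDG P v ξ) (j : ℕ) : IIDG P v (fun l => ξ (j + l)) where
  meas := fun i => h.meas _
  ind := h.ind.precomp (fun a b hab => by simpa using hab)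
  law := fun i => h.law _

lemma S_congr {x y : ℕ → ℝ} {n : ℕ} (h : ∀ l, l < n → x l = y l) {i : ℕ} (hi : i ≤ n) :
    S x i = S y i :=
  Finset.sum_congr rfl fun l hl => h l ((Finset.mem_range.1 hl).trans_le hi)

lemma G_congr {x y : ℕ → ℝ} {n : ℕ} (hn : 1 ≤ n) (h : ∀ l, l < n → x l = y l) :
    G n n x = G n n y := by
  have hS : ∀ i, i ≤ n → S x i = S y i := fun i hi => S_congr h hi
  unfold G
  by_cases hc : ∀ i, 1 ≤ i → i ≤ n → 0 < S x i
  · have hc' : ∀ i, 1 ≤ i → i ≤ n → 0 < S y i := fun i h1 h2 => by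
      rw [← hS i h2]
      exact hc i h1 h2
    rw [if_pos hc, if_pos hc', hS 1 hn, hS n le_rfl]
    congr 1
    refine Finset.prod_congr rfl fun i hi => ?_
    have := Finset.mem_Ico.1 hi
    rw [hS i this.2.le, hS (i + 1) this.2]
  · have hc' : ¬ ∀ i, 1 ≤ i → i ≤ n → 0 < S y i := fun h' => hc fun i h1 h2 => by
      rw [hS i h2]
      exact h' i h1 h2
    rw [if_neg hc, if_neg hc']

lemma g_congr {x y : ℕ → ℝ} {c n : ℕ} (hn : 1 ≤ n) (h : ∀ l, l < n → x l = y l) :
    g c n x = g c n y := by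
  unfold g
  rw [G_congr hn h, S_congr h le_rfl]

lemma G_nonneg {n : ℕ} (hn : 1 ≤ n) (x : ℕ → ℝ) : 0 ≤ G n n x := by
  unfold G
  split_ifs with hc
  · have h1 := hc 1 le_rfl hn
    have h2 := hc n hn le_rfl
    refine mul_nonneg (by positivity) (Finset.prod_nonneg fun i hi => ?_)
    have hi' := Finset.mem_Ico.1 hi
    have h3 := hc i hi'.1 hi'.2.le
    have h4 := hc (i + 1) (by omega) hi'.2
    have h5 : Real.exp (-(2 * n * S x i * S x (i + 1))) ≤ 1 := by
      rw [Real.exp_le_one_iff]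
      have : 0 ≤ 2 * (n : ℝ) * S x i * S x (i + 1) := by positivity
      linarith
    linarith
  · exact le_rfl

lemma g_nonneg {c n : ℕ} (hn : 1 ≤ n) (x : ℕ → ℝ) : 0 ≤ g c n x := by
  unfold g rho
  refine mul_nonneg (G_nonneg hn x) ?_
  rw [pow_mul]
  positivity

lemma measurable_S (i : ℕ) : Measurable (fun x : ℕ → ℝ => S x i) := by
  unfold S
  exact Finset.measurable_fun_sum _ fun l _ => measurable_pi_apply l

lemma measurable_G (n m : ℕ) : Measurable (fun x : ℕ → ℝ => G n m x) := by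
  unfold G
  have hset : {x : ℕ → ℝ | ∀ i, 1 ≤ i → i ≤ m → 0 < S x i} =
      ⋂ i : ℕ, ⋂ (_ : 1 ≤ i), ⋂ (_ : i ≤ m), {x : ℕ → ℝ | 0 < S x i} := by
    ext x
    simp
  refine Measurable.ite ?_ ?_ measurable_const
  · change MeasurableSet {x : ℕ → ℝ | ∀ i, 1 ≤ i → i ≤ m → 0 < S x i}
    rw [hset]
    exact MeasurableSet.iInter fun i => MeasurableSet.iInter fun _ => MeasurableSet.iInter fun _ =>
      measurableSet_lt measurable_const (measurable_S i)
  · refine Measurable.mul ?_ ?_
    · exact ((measurable_S 1).const_mul _).mul (measurable_S m)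
    · refine Finset.measurable_fun_prod _ fun i _ => ?_
      refine measurable_const.sub (Real.measurable_exp.comp ?_)
      exact (((measurable_S i).const_mul _).mul (measurable_S (i + 1))).neg

lemma measurable_g (c n : ℕ) : Measurable (fun x : ℕ → ℝ => g c n x) := by
  unfold g rho
  exact (measurable_G n n).mul (measurable_const.div ((measurable_S n).pow_const _))

/-- extension by zero -/
noncomputable def ex0 (N : ℕ) (b : Fin N → ℝ) (l : ℕ) : ℝ := if h : l < N then b ⟨l, h⟩ else 0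

lemma measurable_sh_ex0 (N j : ℕ) : Measurable (fun b : Fin N → ℝ => sh j (ex0 N b)) := by
  refine measurable_pi_iff.2 fun l => ?_
  unfold sh ex0
  by_cases h : j + l < N
  · simp only [h, dif_pos]
    exact measurable_pi_apply _
  · simp only [h, dif_neg, not_false_iff]
    exact measurable_const

lemma sh_ex0 {N j l : ℕ} (ξ : ℕ → ℝ) (h : j + l < N) :
    sh j (ex0 N (fun i : Fin N => ξ i)) l = ξ (j + l) := by
  unfold sh ex0
  rw [dif_pos h]

end W8x

open W8x

theorem l_w8 : StINC → StBLK → StMEAN → StSM → StSEL2 → StW8 := by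
  intro hINC hBLK hMEAN hSM hSEL2 W hW c n hc hn ε hε
  have hWp : IsProbabilityMeasure W := hW.isGaussianProcess.isProbabilityMeasure
  have hn1 : 1 ≤ n := by omega
  have hn0 : (0 : ℝ) < n := by exact_mod_cast hn1
  have hI := hINC W hW n hn1
  set v : ℝ := 1 / (n : ℝ) with hv
  let μ : Measure (Fin (2 * n) → ℝ) := Measure.pi (fun _ : Fin (2 * n) => gam1 v)
  let h : Fin n → (Fin (2 * n) → ℝ) → ℝ := fun j b => g c n (sh j (ex0 (2 * n) b))
  have hmeas : ∀ j, Measurable (h j) := fun j =>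
    (measurable_g c n).comp (measurable_sh_ex0 (2 * n) j)
  have hnn : ∀ j x, 0 ≤ h j x := fun j x => g_nonneg hn1 _
  have hinc : ∀ l, Measurable (fun w : C(ℝ≥0, ℝ) => incr n w l) := hI.meas
  -- evaluation of h along the path
  have hval : ∀ (j : Fin n) (k : ℕ) (w : C(ℝ≥0, ℝ)),
      h j (fun l : Fin (2 * n) => incr n w (2 * n * k + l)) =
        g c n (fun l => incr n w (2 * n * k + j + l)) := by
    intro j k w
    refine g_congr hn1 fun l hl => ?_
    have h1 : (j : ℕ) + l < 2 * n := by have := j.2; omega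
    rw [sh_ex0 (fun i => incr n w (2 * n * k + i)) h1]
    congr 1
    ring
  have hval0 : ∀ (j : Fin n) (w : C(ℝ≥0, ℝ)),
      h j (fun l : Fin (2 * n) => incr n w l) = g c n (fun l => incr n w (j + l)) := by
    intro j w
    have := hval j 0 w
    simpa using this
  have hsum : ∀ w : C(ℝ≥0, ℝ), (1 / (n : ℝ)) * ∑ j, h j (fun l : Fin (2 * n) => incr n w l) =
      Wt c n (fun l => incr n w l) := by
    intro w
    unfold Wt
    rw [Finset.sum_range]
    congr 1
    exact Finset.sum_congr rfl fun j _ => hval0 j w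
  have hΦm : Measurable (fun b : Fin (2 * n) → ℝ =>
      ENNReal.ofReal ((1 / (n : ℝ)) * ∑ j, h j b)) :=
    ENNReal.measurable_ofReal.comp ((Finset.measurable_fun_sum _ fun j _ => hmeas j).const_mul _)
  have h1 : ∫⁻ x, ENNReal.ofReal ((1 / (n : ℝ)) * ∑ j, h j x) ∂μ = 1 := by
    rw [transfer hBLK W hI (2 * n) _ hΦm]
    have e : ∀ w : C(ℝ≥0, ℝ), ENNReal.ofReal ((1 / (n : ℝ)) *
        ∑ j, h j (fun l : Fin (2 * n) => incr n w l)) =
        ENNReal.ofReal (1 / (n : ℝ)) * ∑ j : Fin n,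
          ENNReal.ofReal (g c n (fun l => incr n w (j + l))) := by
      intro w
      rw [ENNReal.ofReal_mul (by positivity), ENNReal.ofReal_sum_of_nonneg (fun j _ => hnn j _)]
      congr 1
      exact Finset.sum_congr rfl fun j _ => by rw [hval0 j w]
    simp_rw [e]
    have hm : ∀ j : Fin n, Measurable (fun w : C(ℝ≥0, ℝ) =>
        ENNReal.ofReal (g c n (fun l => incr n w (j + l)))) := fun j =>
      ENNReal.measurable_ofReal.comp ((measurable_g c n).comp
        (measurable_pi_iff.2 fun l => hinc _))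
    rw [lintegral_const_mul _ (Finset.measurable_fun_sum _ fun j _ => hm j),
      lintegral_finsetSum _ (fun j _ => hm j)]
    have e2 : ∀ j : Fin n, ∫⁻ w, ENNReal.ofReal (g c n (fun l => incr n w (j + l))) ∂W = 1 :=
      fun j => hMEAN c n hc hn1 _ W _ (shift hI j)
    simp only [e2, Finset.sum_const, Finset.card_univ, Fintype.card_fin, nsmul_eq_mul, mul_one]
    rw [← ENNReal.ofReal_natCast, ← ENNReal.ofReal_mul (by positivity)]
    rw [one_div_mul_cancel hn0.ne', ENNReal.ofReal_one]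
  have h2 : ∫⁻ x, ENNReal.ofReal ((1 / (n : ℝ)) * ∑ j, h j x) ^ 2 ∂μ ≤ ENNReal.ofReal 1300 := by
    rw [transfer hBLK W hI (2 * n) _ (hΦm.pow_const 2)]
    simp_rw [hsum]
    exact hSM c n hc hn _ W _ hI
  obtain ⟨M, q, hq, hq1, hq2, hq3⟩ := hSEL2 (Fin (2 * n) → ℝ) μ n h 1300 hn1 (by norm_num) hmeas
    hnn h1 h2 ε hε
  -- blocks
  let blk : C(ℝ≥0, ℝ) → Fin M → Fin (2 * n) → ℝ := fun w k l => incr n w (2 * n * k + l)
  have hblkm : Measurable blk :=
    measurable_pi_iff.2 fun k => measurable_pi_iff.2 fun l => hinc _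
  have hblk : W.map blk = Measure.pi (fun _ : Fin M => μ) := hBLK _ W v _ hI (2 * n) M
  have hint : ∀ Ψ : (Fin M → Fin (2 * n) → ℝ) → ℝ≥0∞, Measurable Ψ →
      ∫⁻ β, Ψ β ∂(Measure.pi (fun _ : Fin M => μ)) = ∫⁻ w, Ψ (blk w) ∂W := by
    intro Ψ hΨ
    rw [← hblk, lintegral_map hΨ hblkm]
  let e := (finProdFinEquiv (m := M) (n := n)).symm
  let tt : Fin M × Fin n → ℝ≥0 := fun a => ((2 * n * a.1 + a.2 : ℕ) : ℝ≥0) / (n : ℝ≥0)
  have hnN : (n : ℝ≥0) ≠ 0 := by
    have : 0 < n := hn1
    exact_mod_cast this.ne'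
  refine ⟨M * n, fun i => tt (e i), fun i w => q (e i).1 (e i).2 (blk w), ?_, ?_, ?_, ?_⟩
  · intro i
    exact (hq _ _).comp hblkm
  · intro w
    rw [e.sum_comp (fun a : Fin M × Fin n => q a.1 a.2 (blk w)), Fintype.sum_prod_type]
    exact hq1 (blk w)
  · rw [e.sum_comp (fun a : Fin M × Fin n => (tt a : ℝ≥0∞) * ∫⁻ w, q a.1 a.2 (blk w) ∂W),
      Fintype.sum_prod_type]
    have hb : ∀ (k : Fin M) (j : Fin n), (tt (k, j) : ℝ≥0∞) * ∫⁻ w, q k j (blk w) ∂W ≤
        2 * (((k : ℕ) + 1 : ℝ≥0∞) * ∫⁻ β, q k j β ∂(Measure.pi (fun _ : Fin M => μ))) := by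
      intro k j
      rw [hint _ (hq k j), ← mul_assoc]
      gcongr
      have h3 : tt (k, j) ≤ 2 * ((k : ℕ) + 1 : ℝ≥0) := by
        change ((2 * n * (k : ℕ) + (j : ℕ) : ℕ) : ℝ≥0) / (n : ℝ≥0) ≤ _
        rw [div_le_iff₀ (by positivity)]
        have hj := j.2
        have : 2 * n * (k : ℕ) + (j : ℕ) ≤ 2 * ((k : ℕ) + 1) * n := by nlinarith
        exact_mod_cast this
      have h4 : (tt (k, j) : ℝ≥0∞) ≤ ((2 * ((k : ℕ) + 1 : ℝ≥0) : ℝ≥0) : ℝ≥0∞) := by
        exact_mod_cast h3
      refine h4.trans (le_of_eq ?_)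
      push_cast
      rfl
    calc ∑ k : Fin M, ∑ j : Fin n, (tt (k, j) : ℝ≥0∞) * ∫⁻ w, q k j (blk w) ∂W
        ≤ ∑ k : Fin M, ∑ j : Fin n, 2 * (((k : ℕ) + 1 : ℝ≥0∞) *
            ∫⁻ β, q k j β ∂(Measure.pi (fun _ : Fin M => μ))) :=
          Finset.sum_le_sum fun k _ => Finset.sum_le_sum fun j _ => hb k j
      _ = 2 * ∑ k : Fin M, ∑ j : Fin n, (((k : ℕ) + 1 : ℝ≥0∞) *
            ∫⁻ β, q k j β ∂(Measure.pi (fun _ : Fin M => μ))) := by
          simp only [Finset.mul_sum]
      _ ≤ 2 * ENNReal.ofReal (20 * 1300) := by gcongr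
      _ ≤ 60000 := by
          rw [show (20 * 1300 : ℝ) = ((26000 : ℕ) : ℝ) by norm_num, ENNReal.ofReal_natCast]
          norm_num
  · intro F hF hF1
    let FF : Fin n → (Fin (2 * n) → ℝ) → ℝ≥0∞ := fun j b =>
      F (fun i => S (sh j (ex0 (2 * n) b)) (i + 1))
    have hFm : Measurable (fun x : ℕ → ℝ => F (fun i : Fin n => S x (i + 1))) :=
      hF.comp (measurable_pi_iff.2 fun i => measurable_S _)
    have hFFm : ∀ j, Measurable (FF j) := fun j => hFm.comp (measurable_sh_ex0 (2 * n) j)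
    have hFFv : ∀ (j : Fin n) (k : ℕ) (w : C(ℝ≥0, ℝ)),
        FF j (fun l : Fin (2 * n) => incr n w (2 * n * k + l)) =
          F (fun i => S (fun l => incr n w (2 * n * k + j + l)) (i + 1)) := by
      intro j k w
      change F _ = F _
      congr 1
      funext i
      refine S_congr (n := n) (fun l hl => ?_) i.2
      have h1 : (j : ℕ) + l < 2 * n := by have := j.2; omega
      rw [sh_ex0 (fun i => incr n w (2 * n * k + i)) h1]
      congr 1
      ring
    have hmain := hq3 FF hFFm (fun j x => hF1 _)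
    -- left side
    have hL : ∑ j, ∫⁻ x, ENNReal.ofReal ((1 / (n : ℝ)) * h j x) * FF j x ∂μ =
        ∫⁻ w, F (fun i => S (incr n w) (i + 1)) * ENNReal.ofReal (g c n (incr n w)) ∂W := by
      have hj : ∀ j : Fin n, ∫⁻ x, ENNReal.ofReal ((1 / (n : ℝ)) * h j x) * FF j x ∂μ =
          ENNReal.ofReal (1 / (n : ℝ)) *
            ∫⁻ w, F (fun i => S (incr n w) (i + 1)) * ENNReal.ofReal (g c n (incr n w)) ∂W := by
        intro j
        have hm1 : Measurable (fun x : Fin (2 * n) → ℝ =>
            ENNReal.ofReal ((1 / (n : ℝ)) * h j x) * FF j x) :=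
          (ENNReal.measurable_ofReal.comp ((hmeas j).const_mul _)).mul (hFFm j)
        rw [transfer hBLK W hI (2 * n) _ hm1]
        -- function of the first n coordinates
        let Θ : (Fin n → ℝ) → ℝ≥0∞ := fun b =>
          ENNReal.ofReal (1 / (n : ℝ)) * (F (fun i => S (sh 0 (ex0 n b)) (i + 1)) *
            ENNReal.ofReal (g c n (sh 0 (ex0 n b))))
        have hΘ : Measurable Θ :=
          ((hFm.comp (measurable_sh_ex0 n 0)).mul (ENNReal.measurable_ofReal.comp
            ((measurable_g c n).comp (measurable_sh_ex0 n 0)))).const_mul _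
        have hΘv : ∀ ξ : ℕ → ℝ, Θ (fun l : Fin n => ξ l) =
            ENNReal.ofReal (1 / (n : ℝ)) * (F (fun i => S ξ (i + 1)) *
              ENNReal.ofReal (g c n ξ)) := by
          intro ξ
          have hx : ∀ l, l < n → sh 0 (ex0 n (fun l : Fin n => ξ l)) l = ξ l := by
            intro l hl
            rw [sh_ex0 ξ (by omega), Nat.zero_add]
          change ENNReal.ofReal (1 / (n : ℝ)) * (F _ * ENNReal.ofReal _) = _
          rw [g_congr hn1 hx]
          congr 3
          funext i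
          exact S_congr hx i.2
        have ha := transfer hBLK W hI n Θ hΘ
        have hb := transfer hBLK W (shift hI j) n Θ hΘ
        have hab0 : ∫⁻ w, Θ (fun l : Fin n => incr n w l) ∂W =
            ∫⁻ w, Θ (fun l : Fin n => incr n w (j + l)) ∂W := ha.symm.trans hb
        have hab : ∫⁻ w, ENNReal.ofReal (1 / (n : ℝ)) * (F (fun i => S (incr n w) (i + 1)) *
              ENNReal.ofReal (g c n (incr n w))) ∂W =
            ∫⁻ w, ENNReal.ofReal (1 / (n : ℝ)) *
              (F (fun i => S (fun l => incr n w (j + l)) (i + 1)) *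
              ENNReal.ofReal (g c n (fun l => incr n w (j + l)))) ∂W := by
          rw [← lintegral_congr (fun w => hΘv (incr n w)),
            ← lintegral_congr (fun w => hΘv (fun l => incr n w (j + l)))]
          exact hab0
        have hm2 : Measurable (fun w : C(ℝ≥0, ℝ) => F (fun i => S (incr n w) (i + 1)) *
            ENNReal.ofReal (g c n (incr n w))) :=
          (hFm.comp (measurable_pi_iff.2 fun l => hinc l)).mul
            (ENNReal.measurable_ofReal.comp ((measurable_g c n).comp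
              (measurable_pi_iff.2 fun l => hinc l)))
        rw [← lintegral_const_mul _ hm2]
        refine Eq.trans ?_ hab.symm
        refine lintegral_congr fun w => ?_
        have e1 := hFFv j 0 w
        simp only [Nat.mul_zero, Nat.zero_add] at e1
        rw [e1, hval0 j w, ENNReal.ofReal_mul (by positivity)]
        ring
      simp_rw [hj]
      rw [Finset.sum_const, Finset.card_univ, Fintype.card_fin, nsmul_eq_mul, ← mul_assoc,
        ← ENNReal.ofReal_natCast, ← ENNReal.ofReal_mul (by positivity),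
        mul_one_div_cancel hn0.ne', ENNReal.ofReal_one, one_mul]
    rw [← hL]
    refine hmain.trans (le_of_eq ?_)
    congr 1
    rw [e.sum_comp (fun a : Fin M × Fin n => ∫⁻ w, q a.1 a.2 (blk w) * F (gw n w (tt a)) ∂W),
      Fintype.sum_prod_type]
    refine Finset.sum_congr rfl fun k _ => Finset.sum_congr rfl fun j _ => ?_
    rw [hint (fun β => q k j β * FF j (β k))
      ((hq k j).mul ((hFFm j).comp (measurable_pi_apply k)))]
    refine lintegral_congr fun w => ?_
    congr 1
    rw [hFFv j k w]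
    congr 1
    funext i
    -- telescoping
    have htel : ∀ m : ℕ, S (fun l => incr n w (2 * n * k + j + l)) m =
        w (((2 * n * k + j + m : ℕ) : ℝ≥0) / (n : ℝ≥0)) -
          w (((2 * n * k + j : ℕ) : ℝ≥0) / (n : ℝ≥0)) := by
      intro m
      induction m with
      | zero => simp [S]
      | succ m ih =>
        have : S (fun l => incr n w (2 * n * k + j + l)) (m + 1) =
            S (fun l => incr n w (2 * n * k + j + l)) m + incr n w (2 * n * k + j + m) := by
          unfold S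
          rw [Finset.sum_range_succ]
        rw [this, ih]
        unfold incr
        have e3 : 2 * n * (k : ℕ) + (j : ℕ) + (m + 1) = 2 * n * (k : ℕ) + (j : ℕ) + m + 1 := by
          ring
        rw [e3]
        ring
    rw [htel]
    unfold gw
    congr 2
    change ((2 * n * (k : ℕ) + (j : ℕ) + ((i : ℕ) + 1) : ℕ) : ℝ≥0) / (n : ℝ≥0) =
      ((2 * n * (k : ℕ) + (j : ℕ) : ℕ) : ℝ≥0) / (n : ℝ≥0) + (((i : ℕ) + 1 : ℕ) : ℝ≥0) / (n : ℝ≥0)
    rw [← add_div]
    push_cast
    rfl

end Pool.Agent.R132.CM
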