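import Pool.Agent.R132.CM.Defs
import Pool.Agent.R132.CM.LROT
import Pool.Agent.R132.CM.LPOL
import Pool.Agent.R132.CM.LCHG
import Pool.Agent.R132.CM.LKER
import Pool.Agent.R132.CM.LGRID
import Pool.Agent.R132.CM.LSUM3
import Pool.Agent.R132.CM.LONE
import Pool.Agent.R132.CM.LNEG
import Pool.Agent.R132.CM.LMOM
import Pool.Agent.R132.CM.LOFF0
import Pool.Agent.R132.CM.LOFF1
import Pool.Agent.R132.CM.LDIAG0
import Pool.Agent.R132.CM.LD1
import Pool.Agent.R132.CM.LDIAG1
import Pool.Agent.R132.CM.LSM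
import Pool.Agent.R132.CM.LP1
import Pool.Agent.R132.CM.LP2
import Pool.Agent.R132.CM.LPERM
import Pool.Agent.R132.CM.LP4
import Pool.Agent.R132.CM.LP5
import Pool.Agent.R132.CM.LSEL
import Pool.Agent.R132.CM.LSEL2
import Pool.Agent.R132.CM.LINC
import Pool.Agent.R132.CM.LBLK
import Pool.Agent.R132.CM.LW8
import Pool.Agent.R132.CM.LLEV
import Pool.Agent.R132.CM.LGRV
import Pool.Agent.R132.CM.LCOMP
import Pool.Agent.R132.CM.LLIM
import Pool.Agent.R132.CM.LMEAS
import Pool.Agent.R132.CM.LEXT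
import Pool.Agent.R132.CM.LREP
import Pool.Agent.R132.CM.LMAIN

set_option autoImplicit false

namespace Pool.Agent.R132.CM

theorem fin_ker : StKER := l_ker l_rot l_pol l_chg2
theorem fin_grid : StGRID := l_grid fin_ker
theorem fin_mom : StMOM := l_mom fin_ker
theorem fin_one : StONE := (l_one fin_grid l_sum3 fin_mom).1
theorem fin_mean : StMEAN := (l_one fin_grid l_sum3 fin_mom).2
theorem fin_sm : StSM :=
  l_sm (l_off0 fin_one fin_mom fin_mean) (l_off1 fin_one fin_mom fin_mean)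
    (l_diag0 fin_grid fin_one fin_mom)
    (l_diag1 fin_grid l_sum3 (l_d1 (l_neg fin_ker) fin_mom l_sum3))
theorem fin_sel2 : StSEL2 := l_sel2 (l_sel l_p1 l_p2 l_perm l_p4 l_p5)
theorem fin_lev : StLEV := l_lev (l_w8 l_inc l_blk fin_mean fin_sm fin_sel2)
theorem fin_lim : StLIM := l_lim fin_lev (l_grv fin_grid l_inc fin_mom) l_comp

/-- the main statement -/
theorem main_all : ∀ c ≤ 1, Main c := l_main fin_lim (l_ext l_meas) l_meas l_rep

end Pool.Agent.R132.CM
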