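import Pool.Agent.R132.CM.Defs

/-! # CM-EXT: laws on `C(I, ℝ)` are determined by the dyadic evaluations (by helper25) -/

set_option autoImplicit false

open MeasureTheory ProbabilityTheory Filter Topology Set unitInterval
open scoped ENNReal NNReal

namespace Pool.Agent.R132.CM

/-- the dyadic evaluations of level `k` -/
noncomputable def dev (k : ℕ) (x : C(I, ℝ)) (i : Fin (2 ^ k)) : ℝ := x (dy k i)

theorem measurable_dev (k : ℕ) : Measurable (dev k) := by
  refine measurable_pi_lambda _ fun i => ?_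
  exact (continuous_eval_const (dy k i)).measurable

theorem ext_approx (u : I) (k : ℕ) : ∃ i : Fin (2 ^ k), |((dy k i : I) : ℝ) - (u : ℝ)| ≤ (1 / 2) ^ k := by
  have h2 : (0 : ℝ) < 2 ^ k := by positivity
  have h2n : 0 < 2 ^ k := by positivity
  have hu0 : 0 ≤ (u : ℝ) := u.2.1
  have hu1 : (u : ℝ) ≤ 1 := u.2.2
  set m := ⌊(u : ℝ) * 2 ^ k⌋₊ with hm
  have hm1 : (m : ℝ) ≤ (u : ℝ) * 2 ^ k := Nat.floor_le (by positivity)
  have hm2 : (u : ℝ) * 2 ^ k < m + 1 := Nat.lt_floor_add_one _
  have hk : ((1 : ℝ) / 2) ^ k = 1 / 2 ^ k := by rw [div_pow, one_pow]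
  rw [hk]
  by_cases h : m < 2 ^ k
  · refine ⟨⟨m, h⟩, ?_⟩
    simp only [dy]
    have e : ((m : ℝ) + 1) / 2 ^ k - u = ((m : ℝ) + 1 - u * 2 ^ k) / 2 ^ k := by
      field_simp
    rw [e, abs_div, abs_of_pos h2]
    refine div_le_div_of_nonneg_right ?_ h2.le
    rw [abs_le]
    constructor <;> linarith
  · have h3 : (2 : ℝ) ^ k ≤ m := by
      have : 2 ^ k ≤ m := not_lt.mp h
      exact_mod_cast this
    have h4 : (u : ℝ) = 1 := by
      have : (2 : ℝ) ^ k ≤ u * 2 ^ k := h3.trans hm1
      have h5 : 1 ≤ (u : ℝ) := by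
        by_contra hc
        push Not at hc
        nlinarith
      linarith
    refine ⟨⟨2 ^ k - 1, by omega⟩, ?_⟩
    simp only [dy]
    have e : (((2 ^ k - 1 : ℕ) : ℝ) + 1) / 2 ^ k = 1 := by
      have : ((2 ^ k - 1 : ℕ) : ℝ) + 1 = 2 ^ k := by
        have h6 : 2 ^ k - 1 + 1 = 2 ^ k := by omega
        exact_mod_cast h6
      rw [this, div_self h2.ne']
    rw [e, h4]
    simp only [sub_self, abs_zero]
    positivity

theorem ext_coarse (k : ℕ) (i : Fin (2 ^ k)) : ∃ j : Fin (2 ^ (k + 1)), dy (k + 1) j = dy k i := by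
  have hi := i.isLt
  refine ⟨⟨2 * (i : ℕ) + 1, by rw [pow_succ]; omega⟩, ?_⟩
  apply Subtype.ext
  simp only [dy]
  push_cast
  rw [pow_succ]
  field_simp
  ring

/-- the sigma-algebra of the dyadic evaluations of level `k` -/
noncomputable abbrev lev (k : ℕ) : MeasurableSpace C(I, ℝ) :=
  MeasurableSpace.comap (dev k) MeasurableSpace.pi

theorem lev_mono : Monotone lev := by
  refine monotone_nat_of_le_succ fun k => ?_
  choose j hj using ext_coarse k
  have h : dev k = (fun (f : Fin (2 ^ (k + 1)) → ℝ) i => f (j i)) ∘ dev (k + 1) := by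
    funext x i
    simp only [dev, Function.comp]
    rw [hj i]
  have h2 : lev k = MeasurableSpace.comap (dev (k + 1))
      (MeasurableSpace.comap (fun (f : Fin (2 ^ (k + 1)) → ℝ) i => f (j i))
        MeasurableSpace.pi) := by
    rw [MeasurableSpace.comap_comp, ← h]
  rw [h2]
  apply MeasurableSpace.comap_mono
  apply measurable_iff_comap_le.1
  exact measurable_pi_lambda _ fun i => measurable_pi_apply _

theorem l_ext (hM : StMEAS) : StEXT := by
  intro μ₁ μ₂ _ _ _ _ hΦ
  -- the Borel sigma-algebra is generated by the levels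
  have hgen : pathI = ⨆ k, lev k := by
    apply le_antisymm
    · have h1 : @Measurable C(I, ℝ) C(I, ℝ) (⨆ k, lev k) pathI id := by
        refine @hM C(I, ℝ) (⨆ k, lev k) id fun u => ?_
        choose i hi using ext_approx u
        have h2 : ∀ k, @Measurable C(I, ℝ) ℝ (⨆ k, lev k) _ (fun x : C(I, ℝ) => x (dy k (i k))) := by
          intro k
          have h3 : @Measurable C(I, ℝ) ℝ (lev k) _ (fun x : C(I, ℝ) => x (dy k (i k))) := by
            have : (fun x : C(I, ℝ) => x (dy k (i k))) =
                (fun f : Fin (2 ^ k) → ℝ => f (i k)) ∘ dev k := rfl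
            rw [this]
            exact (measurable_pi_apply _).comp (comap_measurable (dev k))
          exact h3.mono (le_iSup lev k) le_rfl
        refine @measurable_of_tendsto_metrizable C(I, ℝ) ℝ (⨆ k, lev k) _ _ _ _
          (fun k x => x (dy k (i k))) _ h2 ?_
        rw [tendsto_pi_nhds]
        intro x
        have h4 : Tendsto (fun k => dy k (i k)) atTop (𝓝 u) := by
          rw [tendsto_subtype_rng, tendsto_iff_dist_tendsto_zero]
          refine squeeze_zero (fun k => dist_nonneg) (fun k => ?_)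
            (tendsto_pow_atTop_nhds_zero_of_lt_one (r := (1 / 2 : ℝ)) (by norm_num) (by norm_num))
          rw [Real.dist_eq]
          exact hi k
        exact (x.continuous.tendsto u).comp h4
      intro s hs
      exact h1 hs
    · refine iSup_le fun k => ?_
      exact measurable_iff_comap_le.1 (measurable_dev k)
  have hgen2 : pathI = MeasurableSpace.generateFrom {s | ∃ k, MeasurableSet[lev k] s} := by
    rw [hgen, MeasurableSpace.measurableSpace_iSup_eq]
  refine ext_of_generate_finite {s | ∃ k, MeasurableSet[lev k] s} hgen2 ?_ ?_ ?_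
  · rintro s ⟨k, hs⟩ t ⟨l, ht⟩ _
    refine ⟨max k l, ?_⟩
    exact MeasurableSet.inter (lev_mono (le_max_left k l) _ hs)
      (lev_mono (le_max_right k l) _ ht)
  · rintro s ⟨k, S, hS, rfl⟩
    have h := hΦ k (S.indicator 1) (measurable_one.indicator hS)
    have e : ∀ μ : Measure C(I, ℝ), ∫⁻ x, (S.indicator (1 : (Fin (2 ^ k) → ℝ) → ℝ≥0∞))
        (fun i => x (dy k i)) ∂μ = μ (dev k ⁻¹' S) := by
      intro μ
      have : (fun x : C(I, ℝ) => (S.indicator (1 : (Fin (2 ^ k) → ℝ) → ℝ≥0∞))
          (fun i => x (dy k i))) = (dev k ⁻¹' S).indicator 1 := by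
        funext x
        rfl
      rw [this, lintegral_indicator_one (measurable_dev k hS)]
    rw [e, e] at h
    exact h
  · rw [measure_univ, measure_univ]

end Pool.Agent.R132.CM
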