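import Pool.Agent.R132.CM.Defs

/-!
Second moment of the weight of a block (StSM) from the correlation bounds.
-/

set_option autoImplicit false

open MeasureTheory ProbabilityTheory Filter Topology Set
open scoped ENNReal NNReal

namespace Pool.Agent.R132.CM

namespace LSM

theorem meas_S (i : ℕ) : Measurable (fun x : ℕ → ℝ => S x i) := by
  unfold S
  exact Finset.measurable_fun_sum _ fun l _ => measurable_pi_apply l

theorem meas_G (n m : ℕ) : Measurable (fun x : ℕ → ℝ => G n m x) := by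
  unfold G
  refine Measurable.ite ?_ ?_ measurable_const
  · simp only [Set.ofPred_forall]
    exact MeasurableSet.iInter fun i => MeasurableSet.iInter fun _ => MeasurableSet.iInter fun _ =>
      measurableSet_lt measurable_const (meas_S i)
  · refine Measurable.mul ?_ ?_
    · exact (measurable_const.mul (meas_S 1)).mul (meas_S m)
    · refine Finset.measurable_fun_prod _ fun i _ => ?_
      refine measurable_const.sub (Real.measurable_exp.comp ?_)
      exact ((measurable_const.mul (meas_S i)).mul (meas_S (i + 1))).neg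

theorem meas_g (c n : ℕ) : Measurable (fun x : ℕ → ℝ => g c n x) := by
  unfold g rho
  exact (meas_G n n).mul (measurable_const.div ((meas_S n).pow_const _))

theorem sum_k (m : ℕ) :
    ∑ k ∈ Finset.range m, ((k + 1 : ℕ) : ℝ) ^ (-(3 / 4) : ℝ) ≤ 4 * (m : ℝ) ^ ((1 / 4) : ℝ) := by
  induction m with
  | zero => simp
  | succ m ih =>
    rw [Finset.sum_range_succ]
    set a : ℝ := ((m + 1 : ℕ) : ℝ) ^ ((1 / 4) : ℝ) with ha
    set b : ℝ := (m : ℝ) ^ ((1 / 4) : ℝ) with hb
    have hm0 : (0 : ℝ) ≤ m := Nat.cast_nonneg m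
    have hm1 : (0 : ℝ) < ((m + 1 : ℕ) : ℝ) := by positivity
    have ha0 : 0 < a := Real.rpow_pos_of_pos hm1 _
    have hb0 : 0 ≤ b := Real.rpow_nonneg hm0 _
    have ha4 : a ^ 4 = (m : ℝ) + 1 := by
      rw [ha, ← Real.rpow_natCast, ← Real.rpow_mul hm1.le]
      norm_num
    have hb4 : b ^ 4 = (m : ℝ) := by
      rw [hb, ← Real.rpow_natCast, ← Real.rpow_mul hm0]
      norm_num
    have hab : b ≤ a := by
      apply Real.rpow_le_rpow hm0 _ (by norm_num)
      push_cast; linarith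
    have ha3 : ((m + 1 : ℕ) : ℝ) ^ (-(3 / 4) : ℝ) = (a ^ 3)⁻¹ := by
      rw [ha, ← Real.rpow_natCast, ← Real.rpow_mul hm1.le, ← Real.rpow_neg hm1.le]
      norm_num
    rw [ha3]
    have key : (a ^ 3)⁻¹ ≤ 4 * (a - b) := by
      rw [inv_le_iff_one_le_mul₀ (by positivity)]
      have h1 : a ^ 4 - b ^ 4 = 1 := by rw [ha4, hb4]; ring
      have h2 : a ^ 4 - b ^ 4 = (a - b) * (a ^ 3 + a ^ 2 * b + a * b ^ 2 + b ^ 3) := by ring
      have h3 : a ^ 3 + a ^ 2 * b + a * b ^ 2 + b ^ 3 ≤ 4 * a ^ 3 := by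
        have e1 : a ^ 2 * b ≤ a ^ 3 := by nlinarith [sq_nonneg a]
        have e2 : a * b ^ 2 ≤ a ^ 3 := by
          have : b ^ 2 ≤ a ^ 2 := by gcongr
          nlinarith
        have e3 : b ^ 3 ≤ a ^ 3 := by gcongr
        linarith
      have h4 : (a - b) * (a ^ 3 + a ^ 2 * b + a * b ^ 2 + b ^ 3) ≤ (a - b) * (4 * a ^ 3) :=
        mul_le_mul_of_nonneg_left h3 (sub_nonneg.2 hab)
      nlinarith
    linarith

/-- the off-diagonal bound -/
noncomputable def f (n k : ℕ) : ℝ := 100 * ((n : ℝ) / k) ^ ((3 / 4) : ℝ)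

theorem f_nonneg (n k : ℕ) : 0 ≤ f n k := by unfold f; positivity

theorem sum_f (n m : ℕ) (hn : 1 ≤ n) (hmn : m ≤ n) : ∑ k ∈ Finset.range m, f n (k + 1) ≤ 400 * n := by
  have hn0 : (0 : ℝ) < n := by exact_mod_cast hn
  have h1 : ∀ k ∈ Finset.range m, f n (k + 1) =
      100 * (n : ℝ) ^ ((3 / 4) : ℝ) * ((k + 1 : ℕ) : ℝ) ^ (-(3 / 4) : ℝ) := by
    intro k _
    unfold f
    rw [Real.div_rpow hn0.le (Nat.cast_nonneg _), Real.rpow_neg (Nat.cast_nonneg _)]
    ring
  rw [Finset.sum_congr rfl h1, ← Finset.mul_sum]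
  have h2 := sum_k m
  have h3 : (m : ℝ) ^ ((1 / 4) : ℝ) ≤ (n : ℝ) ^ ((1 / 4) : ℝ) := by
    apply Real.rpow_le_rpow (Nat.cast_nonneg m) _ (by norm_num)
    exact_mod_cast hmn
  have h4 : (n : ℝ) ^ ((3 / 4) : ℝ) * (n : ℝ) ^ ((1 / 4) : ℝ) = n := by
    rw [← Real.rpow_add hn0]; norm_num
  calc 100 * (n : ℝ) ^ ((3 / 4) : ℝ) * ∑ k ∈ Finset.range m, ((k + 1 : ℕ) : ℝ) ^ (-(3 / 4) : ℝ)
      ≤ 100 * (n : ℝ) ^ ((3 / 4) : ℝ) * (4 * (n : ℝ) ^ ((1 / 4) : ℝ)) := by
        gcongr
        exact h2.trans (by gcongr)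
    _ = 400 * ((n : ℝ) ^ ((3 / 4) : ℝ) * (n : ℝ) ^ ((1 / 4) : ℝ)) := by ring
    _ = 400 * n := by rw [h4]

/-- pairwise bound -/
noncomputable def bb (n j l : ℕ) : ℝ :=
  if l < j then f n (j - l) else if l = j then 500 * n else f n (l - j)

theorem bb_nonneg (n j l : ℕ) : 0 ≤ bb n j l := by
  unfold bb
  split_ifs
  · exact f_nonneg _ _
  · positivity
  · exact f_nonneg _ _

theorem sum_bb (n j : ℕ) (hj : j < n) : ∑ l ∈ Finset.range n, bb n j l ≤ 1300 * n := by
  obtain ⟨r, rfl⟩ := Nat.exists_eq_add_of_lt hj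
  have hn : 1 ≤ j + r + 1 := by omega
  set n := j + r + 1 with hndef
  have e : n = (j + 1) + r := by omega
  have h0 : ∑ l ∈ Finset.range n, bb n j l =
      ∑ l ∈ Finset.range j, bb n j l + bb n j j + ∑ i ∈ Finset.range r, bb n j (j + 1 + i) := by
    conv_lhs => rw [show Finset.range n = Finset.range ((j + 1) + r) from by rw [e]]
    rw [Finset.sum_range_add, Finset.sum_range_succ]
  rw [h0]
  have h1 : ∑ l ∈ Finset.range j, bb n j l = ∑ k ∈ Finset.range j, f n (k + 1) := by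
    rw [← Finset.sum_range_reflect (fun k => f n (k + 1)) j]
    refine Finset.sum_congr rfl fun l hl => ?_
    have hl' := Finset.mem_range.1 hl
    unfold bb
    rw [if_pos hl']
    congr 1
    omega
  have h2 : bb n j j = 500 * n := by
    unfold bb; simp
  have h3 : ∑ i ∈ Finset.range r, bb n j (j + 1 + i) = ∑ k ∈ Finset.range r, f n (k + 1) := by
    refine Finset.sum_congr rfl fun i _ => ?_
    unfold bb
    rw [if_neg (by omega), if_neg (by omega)]
    congr 1
    omega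
  rw [h1, h2, h3]
  have a1 := sum_f n j hn (by omega)
  have a2 := sum_f n r hn (by omega)
  linarith

theorem ofReal_sum_le {ι : Type*} (s : Finset ι) (h : ι → ℝ) :
    ENNReal.ofReal (∑ i ∈ s, h i) ≤ ∑ i ∈ s, ENNReal.ofReal (h i) := by
  classical
  induction s using Finset.induction_on with
  | empty => simp
  | insert a s ha ih =>
    rw [Finset.sum_insert ha, Finset.sum_insert ha]
    exact ENNReal.ofReal_add_le.trans (by gcongr)

theorem shift {Ω : Type} [MeasurableSpace Ω] {P : Measure Ω} {v : ℝ} {ξ : ℕ → Ω → ℝ}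
    (h : IIDG P v ξ) (j : ℕ) : IIDG P v (fun l => ξ (j + l)) :=
  ⟨fun i => h.meas _, h.ind.precomp (g := fun l => j + l) (fun a b hab => by simpa using hab),
    fun i => h.law _⟩

end LSM

open LSM in
theorem l_sm (hO0 : StOFF 0) (hO1 : StOFF 1) (hD0 : StDIAG 0) (hD1 : StDIAG 1) : StSM := by
  intro c n hc hn4 Ω _ P _ ξ hξ
  have hO : StOFF c := by
    rcases Nat.le_one_iff_eq_zero_or_eq_one.1 hc with rfl | rfl
    · exact hO0
    · exact hO1
  have hD : StDIAG c := by
    rcases Nat.le_one_iff_eq_zero_or_eq_one.1 hc with rfl | rfl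
    · exact hD0
    · exact hD1
  have hn0 : (0 : ℝ) < n := by
    have : 0 < n := by omega
    exact_mod_cast this
  set F : ℕ → Ω → ℝ≥0∞ := fun j ω => ENNReal.ofReal (g c n (sh j (fun l => ξ l ω))) with hF
  have hFm : ∀ j, Measurable (F j) := by
    intro j
    have hm : Measurable (fun ω => (fun l => ξ (j + l) ω : ℕ → ℝ)) :=
      measurable_pi_lambda _ fun l => hξ.meas (j + l)
    exact ENNReal.measurable_ofReal.comp ((meas_g c n).comp hm)
  have hFF : ∀ j l, Measurable (fun ω => F j ω * F l ω) := fun j l => (hFm j).mul (hFm l)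
  have hFs : ∀ j, Measurable (fun ω => ∑ l ∈ Finset.range n, F j ω * F l ω) := fun j =>
    Finset.measurable_fun_sum _ fun l _ => hFF j l
  -- pairwise bounds
  have hlt : ∀ j l, j < l → l < n → ∫⁻ ω, F j ω * F l ω ∂P ≤ ENNReal.ofReal (f n (l - j)) := by
    intro j l hjl hln
    have h := hO n (l - j) (by omega) (by omega) Ω P (fun i => ξ (j + i)) (shift hξ j)
    refine le_trans (le_of_eq ?_) h
    refine lintegral_congr fun ω => ?_
    simp only [hF]
    congr 3
    funext i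
    simp only [sh]
    congr 1
    omega
  have hdiag : ∀ j, ∫⁻ ω, F j ω * F j ω ∂P ≤ ENNReal.ofReal (500 * n) := by
    intro j
    have h := hD n hn4 Ω P (fun i => ξ (j + i)) (shift hξ j)
    refine le_trans (le_of_eq ?_) h
    refine lintegral_congr fun ω => ?_
    rw [sq]
    rfl
  have hpair : ∀ j l, j < n → l < n → ∫⁻ ω, F j ω * F l ω ∂P ≤ ENNReal.ofReal (bb n j l) := by
    intro j l hj hl
    unfold bb
    split_ifs with h1 h2
    · have := hlt l j h1 hj
      simpa only [mul_comm] using this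
    · subst h2; exact hdiag l
    · exact hlt j l (by omega) hl
  have hW : ∀ ω, ENNReal.ofReal (Wt c n (fun l => ξ l ω)) ≤
      ENNReal.ofReal (1 / (n : ℝ)) * ∑ j ∈ Finset.range n, F j ω := by
    intro ω
    unfold Wt
    rw [ENNReal.ofReal_mul (by positivity)]
    gcongr
    exact ofReal_sum_le _ _
  have hsq : ∀ ω, ENNReal.ofReal (Wt c n (fun l => ξ l ω)) ^ 2 ≤
      ENNReal.ofReal (1 / (n : ℝ)) ^ 2 *
        ∑ j ∈ Finset.range n, ∑ l ∈ Finset.range n, F j ω * F l ω := by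
    intro ω
    calc ENNReal.ofReal (Wt c n (fun l => ξ l ω)) ^ 2
        ≤ (ENNReal.ofReal (1 / (n : ℝ)) * ∑ j ∈ Finset.range n, F j ω) ^ 2 := by
          gcongr; exact hW ω
      _ = _ := by
          rw [mul_pow, sq (∑ j ∈ Finset.range n, F j ω), Finset.sum_mul_sum]
  calc ∫⁻ ω, ENNReal.ofReal (Wt c n (fun l => ξ l ω)) ^ 2 ∂P
      ≤ ∫⁻ ω, ENNReal.ofReal (1 / (n : ℝ)) ^ 2 *
        ∑ j ∈ Finset.range n, ∑ l ∈ Finset.range n, F j ω * F l ω ∂P := lintegral_mono hsq
    _ = ENNReal.ofReal (1 / (n : ℝ)) ^ 2 *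
        ∑ j ∈ Finset.range n, ∑ l ∈ Finset.range n, ∫⁻ ω, F j ω * F l ω ∂P := by
        rw [lintegral_const_mul _ (Finset.measurable_fun_sum _ fun j _ => hFs j)]
        congr 1
        rw [lintegral_finsetSum _ (fun j _ => hFs j)]
        refine Finset.sum_congr rfl fun j _ => ?_
        rw [lintegral_finsetSum _ (fun l _ => hFF j l)]
    _ ≤ ENNReal.ofReal (1 / (n : ℝ)) ^ 2 *
        ∑ j ∈ Finset.range n, ∑ l ∈ Finset.range n, ENNReal.ofReal (bb n j l) := by
        gcongr with j hj l hl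
        exact hpair j l (Finset.mem_range.1 hj) (Finset.mem_range.1 hl)
    _ = ENNReal.ofReal ((1 / (n : ℝ)) ^ 2 *
        ∑ j ∈ Finset.range n, ∑ l ∈ Finset.range n, bb n j l) := by
        rw [ENNReal.ofReal_mul (by positivity), ENNReal.ofReal_pow (by positivity),
          ENNReal.ofReal_sum_of_nonneg (fun j _ => Finset.sum_nonneg fun l _ => bb_nonneg n j l)]
        congr 1
        refine Finset.sum_congr rfl fun j _ => ?_
        rw [ENNReal.ofReal_sum_of_nonneg (fun l _ => bb_nonneg n j l)]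
    _ ≤ ENNReal.ofReal 1300 := by
        apply ENNReal.ofReal_le_ofReal
        have h1 : ∑ j ∈ Finset.range n, ∑ l ∈ Finset.range n, bb n j l ≤ n * (1300 * n) := by
          calc ∑ j ∈ Finset.range n, ∑ l ∈ Finset.range n, bb n j l
              ≤ ∑ _j ∈ Finset.range n, (1300 * (n : ℝ)) :=
                Finset.sum_le_sum fun j hj => sum_bb n j (Finset.mem_range.1 hj)
            _ = n * (1300 * n) := by simp
        calc (1 / (n : ℝ)) ^ 2 * ∑ j ∈ Finset.range n, ∑ l ∈ Finset.range n, bb n j l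
            ≤ (1 / (n : ℝ)) ^ 2 * (n * (1300 * n)) := by gcongr
          _ = 1300 := by field_simp

end Pool.Agent.R132.CM
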